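import Pool.Agent.P.MP_f30597_gt.CP.IfaceC

/-! Assembly: vanishing simplicial volume forces an infinite abelian normal subgroup. -/

namespace Pool.Agent.P.MP_f30597_gt.CP

open Finset Matrix SI

noncomputable section

theorem splits (hCOC : S_COC) (hDISC : S_DISC) (hBOUND : S_BOUND) (hGEOM : S_GEOM) (hNZ : S_NZ)
    (hOM : S_OM) (hFIN : S_FIN) {G ι : Type} [Group G] [Fintype ι] {n : ℕ} (hn0 : 0 < n)
    (S : St (n + 1) G) {deg : ι → ℕ} {c : Matrix ι ι (ZG G)} {w w' : ι → ℤ}
    (hc : IsResolution deg c w) (hn : ∀ a, deg a ≤ n)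
    (hc' : IsResolution (fun a => n - deg a) (cst c) w') (hV : SimplicialVolumeZero G n) :
    S.Splits := by
  classical
  by_contra hS
  obtain ⟨o, ho, B, hB, hBC, hG⟩ := hGEOM n hn0 G S
  obtain ⟨M, hM⟩ := hBOUND _ G S hS B hB hBC
  have e : ∀ g l, S.phi B o (tr g l) =
      cB B fun i => S.r g (tup (l.map fun h => S.r h o) i) := fun g l => by
    rw [St.phi, cL, ← tup_map, tr, List.map_map, List.map_map]
    simp only [Function.comp_def, S.r_r]
  have hu : ∀ l : List G, l.length = n + 1 → ∀ i, tup (l.map fun h => S.r h o) i ∈ S.C :=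
    fun l hl i => by
      obtain ⟨h, -, e⟩ := List.mem_map.1 (tup_mem (l := l.map fun h => S.r h o) (by simpa) i)
      exact e ▸ S.inv h o ho
  have h1 : ∀ u ∈ Len (G := G) (n + 2), ev (S.phi B o) (bdZ u) = 0 := fun u hu => by
    refine (ev_mp (cL B) (fun g => S.r g o) _).symm.trans ?_
    rw [← bd_mp]
    refine hCOC _ B hB S.eta _ (mp_on _ (fun l hl => ⟨by simpa using hl, fun x hx => ?_⟩)
      (len_iff.1 hu))
    obtain ⟨h, -, rfl⟩ := List.mem_map.1 hx
    exact PC.eta_Pos.c (S.inv h o ho)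
  have h2 : ∀ l : List G, l.length = n + 1 → {g | S.phi B o (tr g l) ≠ 0}.Finite := fun l hl =>
    (hDISC _ G S B hB hBC _ (hu l hl)).subset fun g hg => (cB_ne (e g l ▸ hg)).2
  obtain ⟨z, z1, z2, z3⟩ := hNZ G ι n deg c w w' hc hn hn0 hc' _ h1 h2 hG
  obtain ⟨o1, o2, o3⟩ := hOM G n _ M h1 h2 fun l hl A => by
    simp only [e]; exact hM _ (hu l hl) A
  exact hFIN G n _ M o1 o2 o3 z z1 z2 z3 hV

/-- the structure attached to a divisible cone -/
def Divides.st {n : ℕ} {C : Set (Fin (n + 1) → ℝ)}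
    {G : Subgroup (SpecialLinearGroup (Fin (n + 1)) ℝ)} (h : Divides C G) : St (n + 1) G where
  C := C
  eta := h.proper.choose
  op := h.isOpen
  cv := h.convex
  ne := h.nonempty
  nz h0 := by
    obtain ⟨ε, hε, h1⟩ := Metric.isOpen_iff.1 h.isOpen 0 h0
    have h2 : ∀ t : ℝ, |t| = ε / 2 → 0 < h.proper.choose fun _ => t := fun t ht =>
      h.proper.choose_spec _ (subset_closure (h1 (by simp [ht, hε])))
        fun e => by rw [show t = 0 from congrFun e 0, abs_zero] at ht; linarith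
    have h3 := h2 (-(ε / 2)) (by rw [abs_neg, abs_of_pos (half_pos hε)])
    rw [show (fun _ => -(ε / 2) : Fin (n + 1) → ℝ) = -fun _ => ε / 2 from rfl, map_neg] at h3
    linarith [h2 (ε / 2) (abs_of_pos (half_pos hε))]
  cone := h.cone
  pos := h.proper.choose_spec
  r := { toFun g := toLin' g.1.1
         map_one' := toLin'_one
         map_mul' g k := toLin'_mul _ _ }
  det_r g := (LinearMap.det_toLin' _).trans g.1.2
  inj g k e := Subtype.ext (Subtype.ext (toLin'.injective e))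
  inv g := h.inv g.1 g.2
  disc K hK hC := ((h.disc K hK hC).preimage Subtype.val_injective.injOn).subset
    fun g hg => ⟨g.2, hg⟩
  cocpt := by
    obtain ⟨K, h1, h2, h3⟩ := h.cocompact
    refine ⟨K, h1, h2, fun x hx => ?_⟩
    obtain ⟨g, hg, t⟩ := h3 x hx
    exact ⟨⟨g, hg⟩, t⟩

end

end Pool.Agent.P.MP_f30597_gt.CP
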