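import Mathlib

/-! Proper convex cones and groups dividing them. -/

namespace Pool.Agent.P.MP_f30597_gt.CP

open Finset MeasureTheory

set_option linter.unusedSectionVars false

noncomputable section

/-- the vector space, with the sup norm -/
abbrev V (m : ℕ) : Type := Fin m → ℝ

/-- linear functionals -/
abbrev Fn (m : ℕ) : Type := V m →ₗ[ℝ] ℝ

/-- endomorphisms -/
abbrev En (m : ℕ) : Type := Module.End ℝ (V m)

/-- a proper open convex cone -/
structure PC (m : ℕ) where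
  C : Set (V m)
  eta : Fn m
  op : IsOpen C
  cv : Convex ℝ C
  ne : C.Nonempty
  nz : (0 : V m) ∉ C
  cone : ∀ x ∈ C, ∀ t : ℝ, 0 < t → t • x ∈ C
  pos : ∀ x ∈ closure C, x ≠ 0 → 0 < eta x

/-- a group dividing a cone -/
structure St (m : ℕ) (G : Type) [Group G] extends PC m where
  r : G →* En m
  det_r : ∀ g, LinearMap.det (r g) = 1
  inj : Function.Injective r
  inv : ∀ g, ∀ x ∈ C, r g x ∈ C
  disc : ∀ K : Set (V m), IsCompact K → K ⊆ C →
    {g | ∃ x ∈ K, ∃ t : ℝ, 0 < t ∧ t • r g x ∈ K}.Finite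
  cocpt : ∃ K : Set (V m), IsCompact K ∧ K ⊆ C ∧ ∀ x ∈ C, ∃ g, ∃ t : ℝ, 0 < t ∧ t • r g x ∈ K

variable {m : ℕ}

/-- the determinant of a tuple of vectors -/
def dt (u : Fin m → V m) : ℝ := (Matrix.of u).det

/-- the open cone spanned by a tuple -/
def cn (u : Fin m → V m) : Set (V m) := {p | ∃ s : Fin m → ℝ, (∀ i, 0 < s i) ∧ p = ∑ i, s i • u i}

/-- the signed volume of the part of `B` in the cone of `u` -/
def cB (B : Set (V m)) (u : Fin m → V m) : ℝ :=
  (SignType.sign (dt u) : ℝ) * (volume (B ∩ cn u)).toReal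

/-- the tuple normalised by a functional -/
def nm (x : Fn m) (u : Fin m → V m) : Fin m → V m := fun i => (x (u i))⁻¹ • u i

theorem dt_map (f : En m) (u : Fin m → V m) :
    dt (fun i => f (u i)) = LinearMap.det f * dt u := by
  have : (Matrix.of fun i => f (u i)) = Matrix.of u * (LinearMap.toMatrix' f).transpose := by
    ext i j
    have := congrFun (LinearMap.toMatrix'_mulVec f (u i)) j
    simp only [Matrix.mulVec, dotProduct] at this
    simp [Matrix.mul_apply, ← this, mul_comm]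
  rw [dt, this, Matrix.det_mul, Matrix.det_transpose, LinearMap.det_toMatrix', mul_comm, dt]

theorem dt_smul (a : Fin m → ℝ) (u : Fin m → V m) :
    dt (fun i => a i • u i) = (∏ i, a i) * dt u := Matrix.det_mul_column a (Matrix.of u)

theorem dt_cont : Continuous (dt : (Fin m → V m) → ℝ) :=
  Continuous.matrix_det (A := fun u : Fin m → V m => Matrix.of u) continuous_id

theorem dt_ne_iff (u : Fin m → V m) : dt u ≠ 0 ↔ LinearIndependent ℝ u := by
  rw [dt, ← isUnit_iff_ne_zero, ← Matrix.isUnit_iff_isUnit_det,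
    ← Matrix.linearIndependent_rows_iff_isUnit]
  rfl

/-- Cramer coordinates -/
def crd (u : Fin m → V m) (i : Fin m) : Fn m :=
  (dt u)⁻¹ • (Matrix.detRowAlternating.toMultilinearMap.toLinearMap u i)

theorem crd_apply (u : Fin m → V m) (i : Fin m) (v : V m) :
    crd u i v = dt (Function.update u i v) / dt u := by
  rw [div_eq_inv_mul]; rfl

theorem crd_self {u : Fin m → V m} (h : dt u ≠ 0) (i k : Fin m) :
    crd u i (u k) = if i = k then 1 else 0 := by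
  rw [crd_apply]
  split_ifs with e
  · subst e; rw [Function.update_eq_self, div_self h]
  · rw [div_eq_zero_iff]
    exact Or.inl (Matrix.det_updateRow_eq_zero (M := Matrix.of u) (Ne.symm e))

theorem sum_dual {b : Fin m → V m} {l : Fin m → Fn m}
    (h : ∀ i k, l i (b k) = if i = k then 1 else 0) (v : V m) : ∑ i, l i v • b i = v := by
  have h1 : (Matrix.of b) * (Matrix.of fun j i => l i (Pi.single j 1)) = 1 := by
    ext k i
    have : l i (b k) = ∑ j, b k j * l i (Pi.single j 1) := by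
      conv_lhs => rw [pi_eq_sum_univ' (b k), map_sum]
      exact sum_congr rfl fun j _ => by rw [map_smul, smul_eq_mul]
    rw [Matrix.mul_apply, Matrix.one_apply]
    simp only [Matrix.of_apply]
    rw [← this, h]
    simp [eq_comm]
  have h2 := mul_eq_one_comm.1 h1
  have h3 : ∀ j, ∑ i, l i (Pi.single j 1) • b i = Pi.single j 1 := fun j => by
    ext c
    have := congrFun (congrFun h2 j) c
    rw [Matrix.mul_apply, Matrix.one_apply] at this
    simpa [Pi.single_apply, eq_comm] using this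
  conv_rhs => rw [pi_eq_sum_univ' v]
  conv_lhs => rw [pi_eq_sum_univ' v]
  simp only [map_sum, map_smul, smul_eq_mul, sum_smul, mul_smul]
  rw [sum_comm]
  exact sum_congr rfl fun j _ => by rw [← smul_sum, h3]

theorem sum_crd {u : Fin m → V m} (h : dt u ≠ 0) (v : V m) : ∑ i, crd u i v • u i = v :=
  sum_dual (crd_self h) v

namespace PC

variable (K : PC m)

/-- the closed cone -/
def Cb : Set (V m) := closure K.C

/-- nonnegative functionals -/
def Nn (z : Fn m) : Prop := ∀ x ∈ K.Cb, 0 ≤ z x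

/-- positive functionals -/
def Pos (z : Fn m) : Prop := ∀ x ∈ K.Cb, x ≠ 0 → 0 < z x

/-- splitting idempotents -/
def Idem (e : En m) : Prop := e * e = e ∧ ∀ x ∈ K.Cb, e x ∈ K.Cb ∧ x - e x ∈ K.Cb

/-- the cone is decomposable -/
def Splits : Prop := ∃ e, K.Idem e ∧ e ≠ 0 ∧ e ≠ 1

/-- a compact piece of the cone above `B` -/
def Kup (B : Set (V m)) (L M : ℝ) : Set (V m) :=
  {q | q ∈ K.Cb ∧ K.eta q ≤ M ∧ ∃ b ∈ B, L • q - b ∈ K.Cb}

variable {K}

theorem cb_closed : IsClosed K.Cb := isClosed_closure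

theorem sub_cb {x : V m} (h : x ∈ K.C) : x ∈ K.Cb := subset_closure h

theorem c_ne {x : V m} (h : x ∈ K.C) : x ≠ 0 := fun e => K.nz (e ▸ h)

theorem eta_Pos : K.Pos K.eta := K.pos

theorem Pos.nn {z : Fn m} (h : K.Pos z) : K.Nn z := fun x hx => by
  by_cases e : x = 0
  · simp [e]
  · exact (h x hx e).le

theorem Pos.c {z : Fn m} (h : K.Pos z) {x : V m} (hx : x ∈ K.C) : 0 < z x :=
  h x (sub_cb hx) (c_ne hx)

theorem m_pos (K : PC m) : 0 < m := by
  obtain ⟨x, hx⟩ := K.ne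
  rcases m with _ | m
  · exact absurd (Subsingleton.elim x 0) (c_ne hx)
  · exact Nat.succ_pos m

theorem cb_smul' {x : V m} (h : x ∈ K.Cb) {t : ℝ} (ht : 0 < t) : t • x ∈ K.Cb :=
  map_mem_closure (f := fun x : V m => t • x) (continuous_const_smul t) h
    fun y hy => K.cone y hy t ht

theorem zero_cb : (0 : V m) ∈ K.Cb := by
  obtain ⟨x, hx⟩ := K.ne
  have : Filter.Tendsto (fun t : ℝ => t • x) (nhdsWithin 0 (Set.Ioi 0)) (nhds ((0 : ℝ) • x)) :=
    ((continuous_id.smul continuous_const).tendsto 0).mono_left nhdsWithin_le_nhds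
  rw [zero_smul] at this
  exact mem_closure_of_tendsto this
    (eventually_nhdsWithin_of_forall fun t ht => K.cone x hx t ht)

theorem cb_smul {x : V m} (h : x ∈ K.Cb) {t : ℝ} (ht : 0 ≤ t) : t • x ∈ K.Cb := by
  rcases ht.eq_or_lt with rfl | ht
  · rw [zero_smul]; exact zero_cb
  · exact cb_smul' h ht

theorem c_add_cb {x y : V m} (hx : x ∈ K.C) (hy : y ∈ K.Cb) : x + y ∈ K.C := by
  have := K.cv.combo_interior_closure_mem_interior (K.op.interior_eq.symm ▸ hx) hy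
    (a := 1 / 2) (b := 1 / 2) (by norm_num) (by norm_num) (by norm_num)
  rw [K.op.interior_eq] at this
  have h2 := K.cone _ this 2 two_pos
  rwa [smul_add, smul_smul, smul_smul, show (2 : ℝ) * (1 / 2) = 1 by norm_num, one_smul,
    one_smul] at h2

theorem cb_add {x y : V m} (hx : x ∈ K.Cb) (hy : y ∈ K.Cb) : x + y ∈ K.Cb :=
  map_mem_closure (f := fun x : V m => x + y) (continuous_id.add continuous_const) hx
    fun _ h => c_add_cb h hy

theorem cb_sum {ι : Type*} (s : Finset ι) {f : ι → V m} (h : ∀ i ∈ s, f i ∈ K.Cb) :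
    ∑ i ∈ s, f i ∈ K.Cb := sum_induction f (· ∈ K.Cb) (fun _ _ => cb_add) zero_cb h

theorem c_sum {ι : Type*} {s : Finset ι} (hs : s.Nonempty) {f : ι → V m}
    (h : ∀ i ∈ s, f i ∈ K.C) : ∑ i ∈ s, f i ∈ K.C :=
  sum_induction_nonempty f (· ∈ K.C) (fun _ _ hx hy => c_add_cb hx (sub_cb hy)) hs h

theorem cn_sub {u : Fin m → V m} (h : ∀ i, u i ∈ K.C) : cn u ⊆ K.C := by
  rintro _ ⟨s, hs, rfl⟩
  exact c_sum ⟨⟨0, K.m_pos⟩, mem_univ _⟩ fun i _ => K.cone _ (h i) _ (hs i)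

theorem Nn.mono {z : Fn m} (h : K.Nn z) {x y : V m} (hxy : y - x ∈ K.Cb) : z x ≤ z y := by
  have := h _ hxy
  rwa [map_sub, sub_nonneg] at this

theorem pointed {x : V m} (h : x ∈ K.Cb) (h' : -x ∈ K.Cb) : x = 0 := by
  by_contra e
  have h1 := K.pos x h e
  have h2 := eta_Pos.nn _ h'
  rw [map_neg] at h2
  linarith

theorem Pos.norm {z : Fn m} (h : K.Pos z) : ∃ r : ℝ, 0 < r ∧ ∀ x ∈ K.Cb, r * ‖x‖ ≤ z x := by
  obtain ⟨x0, hx0⟩ := K.ne
  have hc : IsCompact (K.Cb ∩ Metric.sphere 0 1) := (isCompact_sphere 0 1).inter_left cb_closed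
  have h1 : ∀ x ∈ K.Cb, x ≠ 0 → ‖x‖⁻¹ • x ∈ K.Cb ∩ Metric.sphere (0 : V m) 1 := fun x hx e =>
    ⟨cb_smul hx (by positivity), by simp [norm_smul, e]⟩
  obtain ⟨p, hp, hm⟩ := hc.exists_isMinOn ⟨_, h1 x0 (sub_cb hx0) (c_ne hx0)⟩
    z.continuous_of_finiteDimensional.continuousOn
  refine ⟨z p, h p hp.1 fun e => by simpa [e] using hp.2, fun x hx => ?_⟩
  by_cases e : x = 0
  · simp [e]
  · have := hm (h1 x hx e)
    simp only [Set.mem_ofPred_eq, map_smul, smul_eq_mul] at this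
    rwa [← le_div_iff₀ (norm_pos_iff.2 e), div_eq_inv_mul]

theorem Pos.compact {z : Fn m} (h : K.Pos z) (M : ℝ) : IsCompact {x | x ∈ K.Cb ∧ z x ≤ M} := by
  obtain ⟨r, hr, h1⟩ := h.norm
  refine Metric.isCompact_of_isClosed_isBounded
    (cb_closed.inter (isClosed_le z.continuous_of_finiteDimensional continuous_const))
    (isBounded_iff_forall_norm_le.2 ⟨M / r, fun x hx => ?_⟩)
  rw [le_div_iff₀ hr, mul_comm]
  exact (h1 x hx.1).trans hx.2

theorem exists_rad {B : Set (V m)} (hB : IsCompact B) (h : B ⊆ K.C) :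
    ∃ ρ : ℝ, 0 < ρ ∧ ∀ p ∈ B, ∀ v, ‖v‖ ≤ ρ → p + v ∈ K.C := by
  obtain ⟨ρ, hρ, h1⟩ := hB.exists_cthickening_subset_open K.op h
  exact ⟨ρ, hρ, fun p hp v hv =>
    h1 (Metric.mem_cthickening_of_dist_le _ p _ _ hp (by simpa using hv))⟩

theorem rad_cb {p : V m} {ρ : ℝ} (hρ : 0 < ρ) (h : ∀ v, ‖v‖ ≤ ρ → p + v ∈ K.C) (v : V m) {L : ℝ}
    (hL : ‖v‖ ≤ L * ρ) : L • p - v ∈ K.Cb := by
  rcases (nonneg_of_mul_nonneg_left ((norm_nonneg v).trans hL) hρ).eq_or_lt with rfl | hL0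
  · rw [zero_mul, norm_le_zero_iff] at hL
    simpa [hL] using zero_cb
  · have := K.cone _ (h (-(L⁻¹ • v)) (by
      rw [norm_neg, norm_smul, Real.norm_of_nonneg (by positivity), inv_mul_le_iff₀ hL0]
      exact hL)) L hL0
    rw [smul_add, smul_neg, smul_inv_smul₀ hL0.ne', ← sub_eq_add_neg] at this
    exact sub_cb this

/-- uniform comparability -/
theorem cmp {B B' : Set (V m)} (hB : IsCompact B) (h : B ⊆ K.C) (hB' : Bornology.IsBounded B') :
    ∃ L : ℝ, 1 ≤ L ∧ ∀ p ∈ B, ∀ v ∈ B', L • p - v ∈ K.Cb := by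
  obtain ⟨ρ, hρ, h1⟩ := exists_rad hB h
  obtain ⟨M, hM⟩ := isBounded_iff_forall_norm_le.1 hB'
  exact ⟨max 1 (M / ρ), le_max_left _ _, fun p hp v hv => rad_cb hρ (h1 p hp) v
    ((hM v hv).trans ((div_le_iff₀ hρ).1 (le_max_right _ _)))⟩

theorem Nn.bound {z : Fn m} (hz : K.Nn z) {p : V m} {ρ : ℝ} (hρ : 0 < ρ)
    (h : ∀ v, ‖v‖ ≤ ρ → p + v ∈ K.C) (v : V m) : |z v| ≤ z p / ρ * ‖v‖ := by
  have e : z p / ρ * ‖v‖ = z ((‖v‖ / ρ) • p) := by rw [map_smul, smul_eq_mul]; ring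
  rw [e, abs_le, neg_le, ← map_neg]
  exact ⟨hz.mono (rad_cb hρ h _ (by rw [norm_neg, div_mul_cancel₀ _ hρ.ne'])),
    hz.mono (rad_cb hρ h _ (by rw [div_mul_cancel₀ _ hρ.ne']))⟩

/-- a linear map bounded on the cone is bounded -/
theorem bdd_cb (K : PC m) : ∃ c : ℝ, 0 < c ∧ ∀ (W : Type) [NormedAddCommGroup W]
    [NormedSpace ℝ W] (f : V m →ₗ[ℝ] W) (M : ℝ), (∀ x ∈ K.Cb, ‖f x‖ ≤ M * ‖x‖) →
      ∀ v, ‖f v‖ ≤ c * M * ‖v‖ := by
  obtain ⟨p, hp⟩ := K.ne
  obtain ⟨ρ, hρ, h1⟩ := exists_rad (isCompact_singleton (x := p)) (Set.singleton_subset_iff.2 hp)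
  refine ⟨2 * ‖p‖ / ρ + 1, by positivity, fun W _ _ f M h v => ?_⟩
  have hM : 0 ≤ M := nonneg_of_mul_nonneg_left ((norm_nonneg _).trans (h p (sub_cb hp)))
    (norm_pos_iff.2 (c_ne hp))
  have h2 := h _ (rad_cb hρ (h1 p rfl) v (L := ‖v‖ / ρ) (by rw [div_mul_cancel₀ _ hρ.ne']))
  have h3 := h _ (cb_smul (sub_cb hp) (show 0 ≤ ‖v‖ / ρ by positivity))
  have h4 : ‖(‖v‖ / ρ) • p‖ = ‖v‖ / ρ * ‖p‖ := by
    rw [norm_smul, Real.norm_of_nonneg (by positivity)]
  have h5 := norm_sub_le ((‖v‖ / ρ) • p) v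
  have h6 := norm_sub_le (f ((‖v‖ / ρ) • p)) (f ((‖v‖ / ρ) • p - v))
  rw [← map_sub, sub_sub_cancel] at h6
  rw [h4] at h3 h5
  calc ‖f v‖ ≤ M * (‖v‖ / ρ * ‖p‖) + M * (‖v‖ / ρ * ‖p‖ + ‖v‖) :=
        h6.trans (add_le_add h3 (h2.trans (mul_le_mul_of_nonneg_left h5 hM)))
    _ = _ := by ring

theorem ext_cb {W : Type} [AddCommGroup W] [Module ℝ W] {f g : V m →ₗ[ℝ] W}
    (h : ∀ x ∈ K.Cb, f x = g x) : f = g := by
  obtain ⟨p, hp⟩ := K.ne
  refine LinearMap.ext fun v => ?_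
  obtain ⟨L, hL, h1⟩ := cmp (isCompact_singleton (x := p)) (Set.singleton_subset_iff.2 hp)
    (Bornology.isBounded_singleton (x := v))
  have h2 := h _ (h1 p rfl v rfl)
  rw [map_sub, map_sub, map_smul, map_smul, h p (sub_cb hp)] at h2
  exact sub_right_injective h2

theorem mem_c {p : V m} (h : K.Cb ∈ nhds p) : p ∈ K.C := by
  have := K.cv.interior_closure_eq_interior_of_nonempty_interior
    (K.op.interior_eq.symm ▸ K.ne)
  rw [K.op.interior_eq] at this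
  exact this ▸ mem_interior_iff_mem_nhds.2 h

theorem sum_basis {u : Fin m → V m} (h : dt u ≠ 0) (hu : ∀ i, u i ∈ K.Cb) : ∑ i, u i ∈ K.C := by
  refine mem_c (Filter.mem_of_superset (x := {v | ∀ i, 0 < crd u i v}) ?_ fun v hv => ?_)
  · refine IsOpen.mem_nhds ?_ fun i => by simp [crd_self h]
    rw [Set.ofPred_forall]
    exact isOpen_iInter_of_finite fun i =>
      isOpen_lt continuous_const (crd u i).continuous_of_finiteDimensional
  · rw [← sum_crd h v]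
    exact cb_sum _ fun i _ => cb_smul (hu i) (hv i).le

theorem exists_basis (K : PC m) : ∃ u : Fin m → V m, (∀ i, u i ∈ K.C ∧ K.eta (u i) = 1) ∧
    dt u ≠ 0 := by
  have h1 : Submodule.span ℝ K.C = ⊤ :=
    Submodule.eq_top_of_nonempty_interior' _
      (K.ne.mono (interior_maximal Submodule.subset_span K.op))
  let b := Module.Basis.ofSpan h1.ge
  have := FiniteDimensional.fintypeBasisIndex b
  let b' := b.reindex (b.indexEquiv (Pi.basisFun ℝ (Fin m)))
  have h2 : ∀ i, b' i ∈ K.C := fun i => by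
    rw [Module.Basis.reindex_apply]
    exact Module.Basis.ofSpan_subset h1.ge ⟨_, rfl⟩
  refine ⟨nm K.eta b', fun i => ⟨K.cone _ (h2 i) _ (inv_pos.2 (eta_Pos.c (h2 i))), ?_⟩, ?_⟩
  · rw [nm, map_smul, smul_eq_mul, inv_mul_cancel₀ (eta_Pos.c (h2 i)).ne']
  · unfold nm
    rw [dt_smul]
    exact mul_ne_zero (prod_ne_zero_iff.2 fun i _ => inv_ne_zero (eta_Pos.c (h2 i)).ne')
      ((dt_ne_iff _).2 b'.linearIndependent)

theorem kup_sub {B : Set (V m)} (h : B ⊆ K.C) {L : ℝ} (hL : 0 < L) (M : ℝ) :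
    K.Kup B L M ⊆ K.C := by
  rintro q ⟨-, -, b, hb, h1⟩
  have := K.cone _ (c_add_cb (h hb) h1) _ (inv_pos.2 hL)
  rwa [add_sub_cancel, inv_smul_smul₀ hL.ne'] at this

theorem kup_compact {B : Set (V m)} (hB : IsCompact B) (L M : ℝ) : IsCompact (K.Kup B L M) := by
  have := (((eta_Pos.compact (K := K) M).prod hB).inter_right
    (t := {p : V m × V m | L • p.1 - p.2 ∈ K.Cb})
    (cb_closed.preimage (by fun_prop))).image continuous_fst
  convert this using 1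
  ext q
  exact ⟨fun ⟨h1, h2, b, hb, h3⟩ => ⟨(q, b), ⟨⟨⟨h1, h2⟩, hb⟩, h3⟩, rfl⟩, by
    rintro ⟨p, ⟨⟨⟨h1, h2⟩, hb⟩, h3⟩, rfl⟩
    exact ⟨h1, h2, _, hb, h3⟩⟩

theorem exists_w (K : PC m) : ∃ w : ℝ, 0 < w ∧ ∀ u : Fin m → V m,
    (∀ i, u i ∈ K.Cb ∧ K.eta (u i) ≤ 1) → |dt u| ≤ w := by
  obtain ⟨w, hw⟩ := (isCompact_univ_pi fun _ : Fin m => eta_Pos.compact (K := K) 1).bddAbove_image
    dt_cont.abs.continuousOn
  exact ⟨max w 1, by positivity, fun u hu =>
    (hw ⟨u, fun i _ => hu i, rfl⟩).trans (le_max_left _ _)⟩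

end PC

namespace St

variable {G : Type} [Group G] (S : St m G)

theorem r_r (g h : G) (x : V m) : S.r g (S.r h x) = S.r (g * h) x := by rw [map_mul]; rfl

theorem r_one (x : V m) : S.r 1 x = x := by rw [map_one]; rfl

theorem r_inv (g : G) (x : V m) : S.r g⁻¹ (S.r g x) = x := by rw [r_r, inv_mul_cancel, r_one]

theorem r_inv' (g : G) (x : V m) : S.r g (S.r g⁻¹ x) = x := by rw [r_r, mul_inv_cancel, r_one]

theorem r_cb (g : G) {x : V m} (h : x ∈ S.Cb) : S.r g x ∈ S.Cb :=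
  map_mem_closure (S.r g).continuous_of_finiteDimensional h (S.inv g)

theorem dt_r (g : G) (u : Fin m → V m) : dt (fun i => S.r g (u i)) = dt u := by
  rw [dt_map, S.det_r, one_mul]

/-- the translated functional -/
def xg (g : G) : Fn m := S.eta ∘ₗ S.r g

theorem xg_Pos (g : G) : S.Pos (S.xg g) := fun x hx e =>
  S.pos _ (S.r_cb g hx) fun e' => e (by rw [← S.r_inv g x, e', map_zero])

theorem exists_w : ∃ w : ℝ, 0 < w ∧ ∀ g, ∀ u : Fin m → V m,
    (∀ i, u i ∈ S.Cb ∧ S.xg g (u i) ≤ 1) → |dt u| ≤ w := by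
  obtain ⟨w, h0, hw⟩ := S.toPC.exists_w
  exact ⟨w, h0, fun g u hu => S.dt_r g u ▸ hw _ fun i => ⟨S.r_cb g (hu i).1, (hu i).2⟩⟩

end St

theorem cB_zero {B : Set (V m)} {u : Fin m → V m} (z : Fn m) (hB : ∀ p ∈ B, 0 < z p)
    (hu : ∀ i, z (u i) ≤ 0) : cB B u = 0 := by
  have : B ∩ cn u = ∅ := Set.eq_empty_of_forall_notMem fun p ⟨h1, s, hs, e⟩ => by
    refine absurd (hB p h1) (not_lt.2 ?_)
    rw [e, map_sum]
    exact sum_nonpos fun i _ => by
      rw [map_smul]; exact mul_nonpos_of_nonneg_of_nonpos (hs i).le (hu i)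
  simp [cB, this]

theorem cB_ne {B : Set (V m)} {u : Fin m → V m} (h : cB B u ≠ 0) :
    dt u ≠ 0 ∧ (B ∩ cn u).Nonempty :=
  ⟨fun e => h (by simp [cB, e]), Set.nonempty_iff_ne_empty.2 fun e => h (by simp [cB, e])⟩

end

end Pool.Agent.P.MP_f30597_gt.CP
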