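import Pool.Agent.P.MP_f30597_gt.SI.Defs

/-! Definitions: vanishing simplicial volume, divisible convex cones. -/

namespace Pool.Agent.P.MP_f30597_gt.CP

open Matrix

noncomputable section

/-- The boundary of the homogeneous bar complex with real coefficients. -/
def bdR {G : Type} (z : List G →₀ ℝ) : List G →₀ ℝ :=
  z.sum fun l x => ∑ i ∈ Finset.range l.length, Finsupp.single (l.eraseIdx i) ((-1) ^ i * x)

/-- The image of a real chain in the coinvariants. -/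
def coR {G : Type} [Group G] (z : List G →₀ ℝ) : List G →₀ ℝ :=
  z.mapDomain fun l => l.map fun t => (l.headD 1)⁻¹ * t

/-- The real fundamental class of `G` in degree `n` has l1-seminorm zero. -/
def SimplicialVolumeZero (G : Type) [Group G] (n : ℕ) : Prop :=
  ∃ z : List G →₀ ℤ, SI.IsFundCycle n z ∧ ∀ ε : ℝ, 0 < ε → ∃ u : List G →₀ ℝ,
    (∀ l ∈ u.support, l.length = n + 2) ∧
      ((coR (z.mapRange Int.cast Int.cast_zero + bdR u)).sum fun _ x => |x|) < ε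

/-- `C` is a properly convex open cone, and `G` acts properly and cocompactly on the space of its
rays. -/
structure Divides {m : ℕ} (C : Set (Fin m → ℝ))
    (G : Subgroup (SpecialLinearGroup (Fin m) ℝ)) : Prop where
  isOpen : IsOpen C
  convex : Convex ℝ C
  nonempty : C.Nonempty
  cone : ∀ x ∈ C, ∀ t : ℝ, 0 < t → t • x ∈ C
  proper : ∃ η : (Fin m → ℝ) →ₗ[ℝ] ℝ, ∀ x ∈ closure C, x ≠ 0 → 0 < η x
  inv : ∀ g ∈ G, ∀ x ∈ C, g.1 *ᵥ x ∈ C
  disc : ∀ K : Set (Fin m → ℝ), IsCompact K → K ⊆ C →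
    {g ∈ G | ∃ x ∈ K, ∃ t : ℝ, 0 < t ∧ t • g.1 *ᵥ x ∈ K}.Finite
  cocompact : ∃ K : Set (Fin m → ℝ), IsCompact K ∧ K ⊆ C ∧
    ∀ x ∈ C, ∃ g ∈ G, ∃ t : ℝ, 0 < t ∧ t • g.1 *ᵥ x ∈ K

end

end Pool.Agent.P.MP_f30597_gt.CP
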