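import Pool.Agent.P.MP_f30597_gt.SI.Cap
import Pool.Agent.P.MP_f30597_gt.CP.Defs
import Pool.Agent.P.MP_f30597_gt.CP.BaseG

/-! Chains of lists in an arbitrary type. -/

namespace Pool.Agent.P.MP_f30597_gt.CP

open Finset SI

set_option linter.unusedSectionVars false

noncomputable section

variable {X Y : Type}

theorem ind' {P : Bar X → Prop} (h0 : P 0) (h1 : ∀ x y, P x → P y → P (x + y))
    (h2 : ∀ (k : ℤ) l, P (k • sx l)) (u : Bar X) : P u :=
  Finsupp.induction_linear u h0 h1 fun l k => by simpa using h2 k l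

/-- chains supported on lists with a property -/
abbrev On (p : List X → Prop) : Submodule ℤ (Bar X) := Finsupp.supported ℤ ℤ {l | p l}

theorem mem_on {p : List X → Prop} {u : Bar X} : u ∈ On p ↔ ∀ l ∈ u.support, p l := Iff.rfl

theorem sx_on {p : List X → Prop} {l : List X} (h : p l) : sx l ∈ On p :=
  Finsupp.single_mem_supported ℤ 1 h

theorem on_mono {p q : List X → Prop} (h : ∀ l, p l → q l) {u : Bar X} (hu : u ∈ On p) :
    u ∈ On q := fun l hl => h l (hu hl)

theorem on_and {p q : List X → Prop} {u : Bar X} (hp : u ∈ On p) (hq : u ∈ On q) :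
    u ∈ On fun l => p l ∧ q l := fun _ hl => ⟨hp hl, hq hl⟩

theorem on_map {M : Type} [AddCommGroup M] {p : List X → Prop} (f : Bar X →ₗ[ℤ] M)
    (P : Submodule ℤ M) (h : ∀ l, p l → f (sx l) ∈ P) {u : Bar X} (hu : u ∈ On p) : f u ∈ P := by
  have : On p ≤ P.comap f := by
    rw [On, Finsupp.supported_eq_span_single, Submodule.span_le]
    rintro _ ⟨l, hl, rfl⟩
    exact h l hl
  exact this hu

theorem on_eq {M : Type} [AddCommGroup M] {p : List X → Prop} (f f' : Bar X →ₗ[ℤ] M)
    (h : ∀ l, p l → f (sx l) = f' (sx l)) {u : Bar X} (hu : u ∈ On p) : f u = f' u :=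
  sub_eq_zero.1 (on_map (f - f') ⊥ (fun l hl => sub_eq_zero.2 (h l hl)) hu)

theorem all_eq {M : Type} [AddCommGroup M] (f f' : Bar X →ₗ[ℤ] M)
    (h : ∀ l, f (sx l) = f' (sx l)) (u : Bar X) : f u = f' u :=
  on_eq (p := fun _ => True) f f' (fun l _ => h l) fun _ _ => trivial

theorem cons_sx' (x : X) (l : List X) : cons x (sx l) = sx (x :: l) := Finsupp.mapDomain_single

theorem bd_sx (l : List X) :
    bdZ (sx l) = ∑ i ∈ range l.length, (-1 : ℤ) ^ i • sx (l.eraseIdx i) := by
  rw [bdZ, Finsupp.linearCombination_single, one_smul]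

theorem bd_nil : bdZ (sx ([] : List X)) = 0 := by simp [bd_sx]

theorem bd_cons (x : X) (u : Bar X) : bdZ (cons x u) = u - cons x (bdZ u) := by
  refine all_eq (bdZ ∘ₗ cons x) (LinearMap.id - cons x ∘ₗ bdZ) (fun l => ?_) u
  change bdZ (cons x (sx l)) = sx l - cons x (bdZ (sx l))
  rw [cons_sx', bd_sx, bd_sx, List.length_cons, sum_range_succ', map_sum, add_comm,
    sub_eq_add_neg, ← sum_neg_distrib]
  simp only [map_zsmul, cons_sx', pow_succ, mul_neg_one, neg_smul, List.eraseIdx_cons_succ]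
  simp

theorem bd_bd (u : Bar X) : bdZ (bdZ u) = 0 := by
  refine all_eq (bdZ ∘ₗ bdZ) 0 (fun l => ?_) u
  change bdZ (bdZ (sx l)) = 0
  induction l with
  | nil => rw [bd_nil, map_zero]
  | cons x l ih => rw [← cons_sx', bd_cons, map_sub, bd_cons, ih]; simp

theorem bd_on {p q : List X → Prop} (h : ∀ l, p l → ∀ i < l.length, q (l.eraseIdx i)) {u : Bar X}
    (hu : u ∈ On p) : bdZ u ∈ On q :=
  on_map bdZ (On q) (fun l hl => by
    rw [bd_sx]
    exact sum_mem fun i hi => Submodule.smul_mem _ _ (sx_on (h l hl i (mem_range.1 hi)))) hu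

theorem bd_length {k : ℕ} {u : Bar X} (hu : u ∈ On fun l => l.length = k + 1) :
    bdZ u ∈ On fun l => l.length = k :=
  bd_on (fun l hl i hi => by rw [List.length_eraseIdx_of_lt hi, hl]; rfl) hu

theorem cons_on {p q : List X → Prop} (x : X) (h : ∀ l, p l → q (x :: l)) {u : Bar X}
    (hu : u ∈ On p) : cons x u ∈ On q :=
  on_map (cons x) (On q) (fun l hl => by rw [cons_sx']; exact sx_on (h l hl)) hu

/-- push forward -/
def mp (f : X → Y) : Bar X →ₗ[ℤ] Bar Y := Finsupp.lmapDomain ℤ ℤ (List.map f)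

theorem mp_sx (f : X → Y) (l : List X) : mp f (sx l) = sx (l.map f) := Finsupp.mapDomain_single

theorem bd_mp (f : X → Y) (u : Bar X) : bdZ (mp f u) = mp f (bdZ u) :=
  all_eq (bdZ ∘ₗ mp f) (mp f ∘ₗ bdZ) (fun l => by
    change bdZ (mp f (sx l)) = mp f (bdZ (sx l))
    simp only [mp_sx, bd_sx, map_sum, map_zsmul, List.length_map, List.eraseIdx_map]) u

theorem mp_on {p : List X → Prop} {q : List Y → Prop} (f : X → Y) (h : ∀ l, p l → q (l.map f))
    {u : Bar X} (hu : u ∈ On p) : mp f u ∈ On q :=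
  on_map (mp f) (On q) (fun l hl => by rw [mp_sx]; exact sx_on (h l hl)) hu

/-- definition by recursion on the length -/
theorem exists_rec {M : Type} [AddCommGroup M] (a : M) (F : List X → M → M) :
    ∃ H : Bar X →ₗ[ℤ] M, H (sx []) = a ∧ ∀ l, l ≠ [] → H (sx l) = F l (H (bdZ (sx l))) := by
  let T : ℕ → Bar X →ₗ[ℤ] M := fun k => k.rec (Finsupp.linearCombination ℤ fun _ => a)
    fun _ T => Finsupp.linearCombination ℤ fun l => F l (T (bdZ (sx l)))
  have e : ∀ (f : List X → M) l, Finsupp.linearCombination ℤ f (sx l) = f l := fun f l => by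
    rw [Finsupp.linearCombination_single, one_smul]
  refine ⟨Finsupp.linearCombination ℤ fun l => T l.length (sx l), (e _ _).trans (e _ _),
    fun l hl => ?_⟩
  obtain ⟨k, hk⟩ := Nat.exists_eq_succ_of_ne_zero (mt List.length_eq_zero_iff.1 hl)
  rw [e, hk]
  refine (e _ _).trans (congrArg _ (on_eq (p := fun l => l.length = k) _ _ (fun l' hl' => ?_)
    (bd_length (sx_on hk))))
  rw [e, hl']

theorem len_ind {P : List X → Prop} (h0 : P [])
    (h1 : ∀ l, l ≠ [] → (∀ i < l.length, P (l.eraseIdx i)) → P l) (l : List X) : P l := by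
  induction hk : l.length generalizing l with
  | zero => exact List.length_eq_zero_iff.1 hk ▸ h0
  | succ k ih =>
    exact h1 l (fun e => by simp [e] at hk) fun i hi =>
      ih _ (by rw [List.length_eraseIdx_of_lt hi, hk]; rfl)

theorem bd_sx_map {M : Type} [AddCommGroup M] (f : Bar X →ₗ[ℤ] M) (P : Submodule ℤ M)
    {l : List X} (h : ∀ i < l.length, f (sx (l.eraseIdx i)) ∈ P) : f (bdZ (sx l)) ∈ P := by
  rw [bd_sx, map_sum]
  exact sum_mem fun i hi => by rw [map_zsmul]; exact P.smul_mem _ (h i (mem_range.1 hi))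

/-- a chain map vanishing on the empty list is null-homotopic, by cones -/
theorem exists_cone (a : Bar X →ₗ[ℤ] Bar Y) (ha : ∀ u, bdZ (a u) = a (bdZ u)) (h0 : a (sx []) = 0)
    (p : (l : List X) → l ≠ [] → Y) : ∃ H : Bar X →ₗ[ℤ] Bar Y,
      (∀ u, bdZ (H u) + H (bdZ u) = a u) ∧ H (sx []) = 0 ∧
        ∀ l (h : l ≠ []), H (sx l) = cons (p l h) (a (sx l) - H (bdZ (sx l))) := by
  classical
  obtain ⟨H, h1, h2⟩ := exists_rec (X := X) (0 : Bar Y)
    fun l y => if h : l ≠ [] then cons (p l h) (a (sx l) - y) else 0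
  have h3 : ∀ l (h : l ≠ []), H (sx l) = cons (p l h) (a (sx l) - H (bdZ (sx l))) :=
    fun l h => (h2 l h).trans (dif_pos h)
  refine ⟨H, all_eq (bdZ ∘ₗ H + H ∘ₗ bdZ) a (len_ind ?_ fun l h ih => ?_), h1, h3⟩
  · change bdZ (H _) + H (bdZ _) = _
    rw [h1, bd_nil, map_zero, map_zero, h0, add_zero]
  · have h4 : bdZ (H (bdZ (sx l))) + H (bdZ (bdZ (sx l))) = a (bdZ (sx l)) :=
      sub_eq_zero.1 (bd_sx_map (bdZ ∘ₗ H + H ∘ₗ bdZ - a) ⊥ fun i hi => sub_eq_zero.2 (ih i hi))
    change bdZ (H _) + H (bdZ _) = _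
    rw [bd_bd, map_zero, add_zero] at h4
    rw [h3 l h, bd_cons, map_sub bdZ, h4, ha, sub_self, map_zero, sub_zero, sub_add_cancel]

/-- evaluation of a real cochain -/
def ev (φ : List X → ℝ) : Bar X →ₗ[ℤ] ℝ := Finsupp.linearCombination ℤ φ

theorem ev_sx (φ : List X → ℝ) (l : List X) : ev φ (sx l) = φ l := by
  rw [ev, Finsupp.linearCombination_single, one_smul]

theorem ev_zero {p : List X → Prop} {φ : List X → ℝ} (h : ∀ l, p l → φ l = 0) {u : Bar X}
    (hu : u ∈ On p) : ev φ u = 0 := on_eq (ev φ) 0 (fun l hl => (ev_sx φ l).trans (h l hl)) hu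

theorem ev_mp (φ : List Y → ℝ) (f : X → Y) (u : Bar X) :
    ev φ (mp f u) = ev (fun l => φ (l.map f)) u :=
  all_eq (ev φ ∘ₗ mp f) _ (fun l => by rw [LinearMap.comp_apply, mp_sx, ev_sx, ev_sx]) u

variable {m : ℕ}

/-- the tuple of a list -/
def tup (l : List (V m)) : Fin m → V m := fun i => l.getD i 0

theorem tup_mem {l : List (V m)} (h : l.length = m) (i : Fin m) : tup l i ∈ l := by
  rw [tup, List.getD_eq_getElem _ _ (h.symm ▸ i.2)]
  exact List.getElem_mem _

theorem tup_ofFn (u : Fin m → V m) : tup (List.ofFn u) = u := funext fun i => by simp [tup]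

theorem tup_map {l : List (V m)} (f : En m) : tup (l.map f) = fun i => f (tup l i) :=
  funext fun i => by rw [tup, tup, ← List.getD_map l 0 f, map_zero]

/-- the signed volume as a cochain -/
def cL (B : Set (V m)) (l : List (V m)) : ℝ := cB B (tup l)

theorem cL_zero {B : Set (V m)} {l : List (V m)} (z : Fn m) (hB : ∀ p ∈ B, 0 < z p)
    (hl : ∀ x ∈ l, z x ≤ 0) : cL B l = 0 :=
  cB_zero z hB fun i => by
    by_cases h : i.1 < l.length
    · rw [tup, List.getD_eq_getElem _ _ h]; exact hl _ (List.getElem_mem _)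
    · rw [tup, List.getD_eq_default _ _ (not_lt.1 h), map_zero]

/-- the convex hull of a list -/
def hull (l : List (V m)) : Set (V m) := convexHull ℝ {x | x ∈ l}

variable {G : Type} [Group G]

theorem len_iff {k : ℕ} {u : Bar G} : u ∈ Len k ↔ u ∈ On fun l => l.length = k := Iff.rfl

/-- the cochain on the group -/
def St.phi (S : St m G) (B : Set (V m)) (o : V m) (l : List G) : ℝ :=
  cL B (l.map fun g => S.r g o)

end

end Pool.Agent.P.MP_f30597_gt.CP
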