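import Pool.Agent.P.MP_f30597_gt.CP.BaseG

/-! Statements of the geometric steps. -/

namespace Pool.Agent.P.MP_f30597_gt.CP

open Finset MeasureTheory

noncomputable section

variable {m : ℕ}

/-- positive functionals can be normalised by automorphisms of the cone -/
def PC.Nrm (K : PC m) : Prop := ∃ R : ℝ, 0 < R ∧ ∀ z, K.Pos z → ∃ h : V m ≃ₗ[ℝ] V m,
  (∀ x ∈ K.Cb, h x ∈ K.Cb) ∧ (∀ x ∈ K.Cb, h.symm x ∈ K.Cb) ∧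
    ∀ x ∈ K.Cb, ‖x‖ ≤ R * z (h x) ∧ z (h x) ≤ R * ‖x‖

/-- limit data -/
structure PC.Star (K : PC m) (x y : Fn m) (I : Finset (Fin m)) (b : Fin m → V m)
    (l : Fin m → Fn m) : Prop where
  hx : K.Nn x
  hy : K.Nn y
  hxy : K.Pos (x + y)
  ne : I.Nonempty
  ne' : I ≠ univ
  bin : ∀ i, b i ∈ K.Cb
  bI : ∀ i ∈ I, y (b i) = 0
  bJ : ∀ i ∉ I, x (b i) = 0
  lI : ∀ i ∈ I, ∀ v ∈ K.Cb, |l i v| ≤ 2 * x v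
  lJ : ∀ i ∉ I, ∀ v ∈ K.Cb, |l i v| ≤ 2 * y v
  dual : ∀ i k, l i (b k) = if i = k then 1 else 0

/-- approximate data -/
structure PC.Data (K : PC m) (T : ℝ) (x y : Fn m) (I : Finset (Fin m)) (b : Fin m → V m)
    (l : Fin m → Fn m) : Prop where
  hx : K.Pos x
  hy : K.Pos y
  ne : I.Nonempty
  ne' : I ≠ univ
  bin : ∀ i, b i ∈ K.Cb
  bI : ∀ i ∈ I, x (b i) ≤ 1 ∧ T * y (b i) ≤ 1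
  bJ : ∀ i ∉ I, T * x (b i) ≤ 1 ∧ y (b i) ≤ 1
  lI : ∀ i ∈ I, ∀ v ∈ K.Cb, x v ≤ 1 → y v ≤ T → |l i v| ≤ 2
  lJ : ∀ i ∉ I, ∀ v ∈ K.Cb, x v ≤ T → y v ≤ 1 → |l i v| ≤ 2
  dual : ∀ i k, (i ∈ I ↔ k ∈ I) → l i (b k) = if i = k then 1 else 0

/-- the doubling property -/
def PC.Dbl (K : PC m) (T : ℝ) : Prop := ∀ x y : Fn m, K.Pos x → K.Pos y →
  ∀ I : Finset (Fin m), I.Nonempty → I ≠ univ → ∀ s : ℝ, 0 < s → ∀ ξ ζ : Fin m → V m,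
    dt ξ ≠ 0 → dt ζ ≠ 0 → (∀ i ∉ I, ξ i ∈ K.Cb ∧ T * x (ξ i) ≤ s ∧ y (ξ i) ≤ 1) →
    (∀ i ∈ I, ζ i ∈ K.Cb ∧ x (ζ i) ≤ 1 ∧ s * T * y (ζ i) ≤ 1) →
    (∃ i ∉ I, ∃ v ∈ K.Cb, x v ≤ s * T ∧ y v ≤ 1 ∧ 2 * |dt ξ| < |dt (Function.update ξ i v)|) ∨
    ∃ i ∈ I, ∃ v ∈ K.Cb, x v ≤ 1 ∧ s * y v ≤ T ∧ 2 * |dt ζ| < |dt (Function.update ζ i v)|

/-- `w` bounds the determinants below the slice of `x` -/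
def PC.Wb (K : PC m) (w : ℝ) (x : Fn m) : Prop :=
  ∀ ξ : Fin m → V m, (∀ i, ξ i ∈ K.Cb ∧ x (ξ i) ≤ 1) → |dt ξ| ≤ w

-- deps:
def S_NORM : Prop := ∀ (m : ℕ) (G : Type) [Group G] (S : St m G), S.Nrm

-- deps:
def S_STAR : Prop := ∀ (m : ℕ) (K : PC m), K.Nrm → ∀ x y I b l, K.Star x y I b l → K.Splits

-- deps: STAR
def S_ML : Prop := ∀ (m : ℕ) (K : PC m), K.Nrm → ¬K.Splits →
  ∃ T : ℝ, 1 < T ∧ ∀ x y I b l, ¬K.Data T x y I b l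

-- deps:
def S_DBL : Prop := ∀ (m : ℕ) (K : PC m) (T : ℝ), (∀ x y I b l, ¬K.Data T x y I b l) → K.Dbl T

-- deps:
def S_GAP1 : Prop := ∀ (m : ℕ) (K : PC m) (T : ℝ), 1 < T → K.Dbl T →
  ∀ (k : ℕ) (x y : Fn m) (u : Fin m → V m) (I : Finset (Fin m)) (s₀ s₁ : ℝ), K.Pos x → K.Pos y →
    (∀ i, u i ∈ K.Cb) → dt u ≠ 0 → K.Wb (2 ^ k * |dt (nm x u)|) x →
    K.Wb (2 ^ k * |dt (nm y u)|) y → I.Nonempty → I ≠ univ → 0 < s₀ →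
    (∀ i ∉ I, x (u i) ≤ s₀ * y (u i)) → (∀ i ∈ I, s₁ * y (u i) ≤ x (u i)) →
    s₁ ≤ T ^ (4 * k + 2) * s₀

-- deps:
def S_CHAIN : Prop := ∀ (m : ℕ) (ρ : Fin m → ℝ) (Λ : ℝ), 1 ≤ Λ → (∀ i, 0 < ρ i) →
  (∀ (I : Finset (Fin m)) (s₀ s₁ : ℝ), I.Nonempty → I ≠ univ → 0 < s₀ → (∀ i ∉ I, ρ i ≤ s₀) →
    (∀ i ∈ I, s₁ ≤ ρ i) → s₁ ≤ Λ * s₀) → ∀ i j, ρ i ≤ Λ ^ m * ρ j

-- deps: ML DBL GAP1 CHAIN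
def S_GAP : Prop := ∀ (m : ℕ) (K : PC m), K.Nrm → ¬K.Splits → ∃ c : ℕ,
  ∀ (k : ℕ) (w : ℝ) (x y : Fn m) (u : Fin m → V m), K.Pos x → K.Pos y → (∀ i, u i ∈ K.Cb) →
    dt u ≠ 0 → K.Wb w x → K.Wb w y → w ≤ 2 ^ k * |dt (nm x u)| → w ≤ 2 ^ k * |dt (nm y u)| →
    ∀ i, x (u i) ≤ 2 ^ (c * (k + 1)) * y (u i)

-- deps:
def S_NEAR : Prop := ∀ (m : ℕ) (G : Type) [Group G] (S : St m G) (B : Set (V m)), IsCompact B →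
  B ⊆ S.C → ∃ F : Finset G, ∀ (u : Fin m → V m) (g h : G), (∀ i, u i ∈ S.C) →
    (B ∩ cn fun i => S.r g (u i)).Nonempty → (B ∩ cn fun i => S.r h (u i)).Nonempty →
    (∀ i, S.xg g (u i) ≤ 2 * S.xg h (u i) ∧ S.xg h (u i) ≤ 2 * S.xg g (u i)) → g * h⁻¹ ∈ F

-- deps:
def S_BOX : Prop := ∀ (m : ℕ) (G : Type) [Group G] (F A : Finset G) (a : G → Fin m → ℝ) (L : ℕ),
  (∀ g ∈ A, ∀ i, 0 < a g i) → (∀ g ∈ A, ∀ h ∈ A, ∀ i, a g i ≤ 2 ^ L * a h i) →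
  (∀ g ∈ A, ∀ h ∈ A, (∀ i, a g i ≤ 2 * a h i ∧ a h i ≤ 2 * a g i) → g * h⁻¹ ∈ F) →
  A.card ≤ F.card * (2 * L + 1) ^ m

-- deps:
def S_SUM : Prop := ∀ (N c m : ℕ) (w : ℝ), 0 < w → ∃ M : ℝ, ∀ (α : Type) (A : Finset α)
  (d : α → ℝ), (∀ a ∈ A, 0 < d a ∧ d a ≤ w) → (∀ k : ℕ, ∀ A' ⊆ A, (∀ a ∈ A', w ≤ 2 ^ k * d a) →
    A'.card ≤ N * (2 * (c * (k + 1)) + 1) ^ m) → ∑ a ∈ A, d a ≤ M

-- deps: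
def S_VOL : Prop := ∀ (m : ℕ) (z : Fn m) (B : Set (V m)) (c : ℝ) (u : Fin m → V m), 0 ≤ c →
  (∀ i, 0 < z (u i)) → (∀ p ∈ B, z p ≤ c) → |cB B u| ≤ c ^ m * |dt (nm z u)|

-- deps: NORM GAP NEAR BOX SUM VOL
def S_BOUND : Prop := ∀ (m : ℕ) (G : Type) [Group G] (S : St m G), ¬S.Splits →
  ∀ B : Set (V m), IsCompact B → B ⊆ S.C → ∃ M : ℝ, ∀ u : Fin m → V m, (∀ i, u i ∈ S.C) →
    ∀ A : Finset G, ∑ g ∈ A, |cB B fun i => S.r g (u i)| ≤ M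

-- deps:
def S_DISC : Prop := ∀ (m : ℕ) (G : Type) [Group G] (S : St m G) (B : Set (V m)), IsCompact B →
  B ⊆ S.C → ∀ u : Fin m → V m, (∀ i, u i ∈ S.C) →
    {g | (B ∩ cn fun i => S.r g (u i)).Nonempty}.Finite

-- deps:
def S_SEG : Prop := ∀ (ι : Type) [Fintype ι] (lam s : ι → ℝ) (P : ι → Prop),
  ((∃ i, 0 < lam i) ↔ ∃ i, lam i < 0) →
  (∀ (τ : ℝ) i j, i ≠ j → s i + τ * lam i = 0 → s j + τ * lam j ≠ 0) →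
  (∀ i, P i ↔ ∃ τ : ℝ, s i + τ * lam i = 0 ∧ ∀ j, j ≠ i → 0 < s j + τ * lam j) →
  (∀ i, lam i ≠ 0 → ¬P i) ∨
    ∃ a b, 0 < lam a ∧ lam b < 0 ∧ ∀ i, lam i ≠ 0 → (P i ↔ i = a ∨ i = b)

-- deps: SEG
def S_COC0 : Prop := ∀ (m : ℕ) (u : Fin (m + 1) → V m) (z : Fn m), (∀ i, 0 < z (u i)) →
  ∀ p : V m, (∀ i j, i ≠ j → p ∉ Submodule.span ℝ (u '' {k | k ≠ i ∧ k ≠ j})) →
    ∑ i : Fin (m + 1), (-1 : ℝ) ^ (i : ℕ) * ((SignType.sign (dt fun j => u (i.succAbove j)) : ℝ) *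
      (cn fun j => u (i.succAbove j)).indicator (fun _ => (1 : ℝ)) p) = 0

-- deps: COC0
def S_COC1 : Prop := ∀ (m : ℕ) (B : Set (V m)), IsCompact B →
  ∀ (u : Fin (m + 1) → V m) (z : Fn m), (∀ i, 0 < z (u i)) →
    ∑ i : Fin (m + 1), (-1 : ℝ) ^ (i : ℕ) * cB B (fun j => u (i.succAbove j)) = 0

-- deps:
def S_RAD : Prop := ∀ (m : ℕ) (K : PC m) (o : V m) (D : Set (V m)), o ∈ K.C → K.eta o = 1 →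
  IsCompact D → (∀ x ∈ D, K.eta x = 1 ∧ x ≠ o) → ∃ d : ℝ, 0 < d ∧ d ≤ 1 / 2 ∧ ∀ ε : ℝ, 0 < ε →
    ∃ q : V m → V m, ContinuousOn q D ∧ ∀ x ∈ D, q x ∈ K.C ∧ K.eta (q x) = 1 ∧
      ∃ z : Fn m, K.Nn z ∧ z o = 1 ∧ z x ≤ 1 - 2 * d ∧ z (q x) ≤ ε

-- deps: RAD
def S_PUSH : Prop := ∀ (m : ℕ) (G : Type) [Group G] (S : St m G) (o : V m) (D : Set (V m)),
  o ∈ S.C → S.eta o = 1 → IsCompact D → (∀ x ∈ D, S.eta x = 1 ∧ x ≠ o) →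
  ∃ ρ : ℝ, 0 < ρ ∧ ∃ E : Finset G, ∀ F : Finset G, ∃ δ : ℝ, 0 < δ ∧ ∃ γ : V m → G,
    (∀ x ∈ D, γ x ∉ F) ∧ (∀ x ∈ D, ∀ y ∈ D, dist x y ≤ δ → (γ x)⁻¹ * γ y ∈ E) ∧
    ∀ x ∈ D, ∃ z : Fn m, (∀ p ∈ Metric.closedBall o ρ, 0 < z p) ∧
      ∀ y ∈ D, dist x y ≤ δ → z y ≤ 0 ∧ z (S.r (γ y) o) ≤ 0

-- deps:
def S_IDEM : Prop := ∀ (m : ℕ) (K : PC m), {e | K.Idem e}.Finite

-- deps:
def S_CEN1 : Prop := ∀ (m : ℕ) (G : Type) [Group G] (S : St m G) (e : En m), S.Idem e → e ≠ 0 →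
  e ≠ 1 → ∀ G₁ : Subgroup G, G₁.FiniteIndex → (∀ g ∈ G₁, S.r g * e = e * S.r g) →
  ∀ A : Finset G, (∀ s ∈ A, s ∈ G₁) →
    ∃ Φ : Set G, Φ.Finite ∧ {γ | γ ∈ G₁ ∧ ∀ s ∈ A, γ * s * γ⁻¹ ∈ Φ}.Infinite

-- deps: IDEM CEN1
def S_CENTER : Prop := ∀ (m : ℕ) (G : Type) [Group G] (S : St m G), S.Splits →
  ∃ A : Subgroup G, A.Normal ∧ (A : Set G).Infinite ∧ ∀ a ∈ A, ∀ b ∈ A, a * b = b * a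

end

end Pool.Agent.P.MP_f30597_gt.CP
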