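import Pool.Agent.P.MP_f30597_gt.CP.BaseC
import Pool.Agent.P.MP_f30597_gt.CP.IfaceG

/-! Statements of the steps on chains. -/

namespace Pool.Agent.P.MP_f30597_gt.CP

open Finset Matrix MeasureTheory SI

noncomputable section

/-- the barycentre -/
def bary {m : ℕ} (l : List (V m)) : V m := (l.length : ℝ)⁻¹ • l.sum

/-- a face of a simplex -/
def face {m : ℕ} (e : Fin m → V m) (i : Fin m) : Set (V m) := convexHull ℝ (e '' {j | j ≠ i})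

/-- the sum of a cochain over the group -/
def om {G : Type} [Group G] (φ : List G → ℝ) (l : List G) : ℝ := ∑ᶠ g, φ (tr g l)

/-- chains with nonzero value whose boundary consists of small simplices far away -/
def Geo {G : Type} [Group G] (n : ℕ) (φ : List G → ℝ) : Prop :=
  ∃ E : Finset G, ∀ F : Finset G, ∃ W ∈ Len (G := G) (n + 1), ev φ W ≠ 0 ∧
    bdZ W ∈ On fun l => ∃ g ∉ F, ∀ x ∈ l, g⁻¹ * x ∈ E

-- deps: COC1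
def S_COC : Prop := ∀ (m : ℕ) (B : Set (V m)), IsCompact B → ∀ (z : Fn m) (u : Bar (V m)),
  (u ∈ On fun l => l.length = m + 1 ∧ ∀ x ∈ l, 0 < z x) → ev (cL B) (bdZ u) = 0

-- deps:
def S_PRISM : Prop := ∀ (X Y : Type) (f g : X → Y), ∃ P : Bar X →ₗ[ℤ] Bar Y,
  (∀ u, bdZ (P u) + P (bdZ u) = mp g u - mp f u) ∧ ∀ l, P (sx l) ∈ On fun l' =>
    l'.length = l.length + 1 ∧ ∀ y ∈ l', ∃ x ∈ l, y = f x ∨ y = g x

-- deps: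
def S_MESH : Prop := ∀ (m : ℕ) (sd : Bar (V m) →ₗ[ℤ] Bar (V m)), sd (sx []) = sx [] →
  (∀ l, l ≠ [] → sd (sx l) = cons (bary l) (sd (bdZ (sx l)))) →
  ∀ l, sd (sx l) ∈ On fun l' => l'.length = l.length ∧ (∀ x ∈ l', x ∈ hull l) ∧
    ∀ (k : ℕ) (δ : ℝ), l.length ≤ k + 1 → (∀ x ∈ l, ∀ y ∈ l, dist x y ≤ δ) →
      ∀ x ∈ l', ∀ y ∈ l', dist x y ≤ k / (k + 1) * δ

-- deps: MESH
def S_SD : Prop := ∀ m : ℕ, ∃ sd T : Bar (V m) →ₗ[ℤ] Bar (V m),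
  (∀ u, bdZ (sd u) = sd (bdZ u)) ∧ (∀ u, bdZ (T u) + T (bdZ u) = u - sd u) ∧
  (∀ l, T (sx l) ∈ On fun l' => l'.length = l.length + 1 ∧ ∀ x ∈ l', x ∈ hull l) ∧
  ∀ l, sd (sx l) ∈ On fun l' => l'.length = l.length ∧ (∀ x ∈ l', x ∈ hull l) ∧
    ∀ (k : ℕ) (δ : ℝ), l.length ≤ k + 1 → (∀ x ∈ l, ∀ y ∈ l, dist x y ≤ δ) →
      ∀ x ∈ l', ∀ y ∈ l', dist x y ≤ k / (k + 1) * δ

-- deps: SD COC
def S_SUB : Prop := ∀ (n : ℕ) (B : Set (V (n + 1))), IsCompact B →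
  ∀ (z : Fn (n + 1)) (e : Fin (n + 1) → V (n + 1)), (∀ i, 0 < z (e i)) → dt e ≠ 0 →
  ∀ δ : ℝ, 0 < δ → ∃ W : Bar (V (n + 1)),
    (W ∈ On fun l => l.length = n + 1 ∧ ∀ x ∈ l, x ∈ convexHull ℝ (Set.range e)) ∧
    (bdZ W ∈ On fun l => l.length = n ∧ (∃ i, ∀ x ∈ l, x ∈ face e i) ∧
      ∀ x ∈ l, ∀ y ∈ l, dist x y ≤ δ) ∧ ev (cL B) W = cB B e

-- deps: PUSH SUB PRISM COC
def S_GEOM : Prop := ∀ n : ℕ, 0 < n → ∀ (G : Type) [Group G] (S : St (n + 1) G),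
  ∃ o ∈ S.C, ∃ B : Set (V (n + 1)), IsCompact B ∧ B ⊆ S.C ∧ Geo n (S.phi B o)

-- deps:
def S_HTPY : Prop := ∀ (G : Type) [Group G] (f : Bar G →ₗ[ZG G] Bar G),
  (∀ u, bdZ (f u) = f (bdZ u)) → f (sx []) = sx [] → (∀ l, f (sx l) ∈ Len l.length) →
  ∃ H : Bar G →ₗ[ℤ] Bar G, (∀ u, bdZ (H u) + H (bdZ u) = u - f u) ∧
    (∀ l, H (sx l) ∈ Len (l.length + 1)) ∧ ∀ g l, H (sx (tr g l)) = el g • H (sx l)

-- deps:
def S_LOC : Prop := ∀ (G ι : Type) [Group G] [Fintype ι] [DecidableEq ι] (n : ℕ) (deg : ι → ℕ)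
  (c : Matrix ι ι (ZG G)) (w' : ι → ℤ), (∀ a, deg a ≤ n) →
  IsResolution (fun a => n - deg a) (cst c) w' → ∀ Θ : Finset G, ∃ Y : Finset G,
    ∀ x ∈ Hm (G := G) deg n, (∀ b, ∀ h ∈ Y, ((x ᵥ* c) b).coeff h = 0) →
      ∃ κ : ℤ, ∀ a, ∀ g ∈ Θ, (x a).coeff g = κ * w' a

-- deps:
def S_KAP : Prop := ∀ (G ι : Type) [Group G] [Fintype ι] (n : ℕ) (φ : List G → ℝ),
  (∀ l : List G, l.length = n + 1 → {g | φ (tr g l) ≠ 0}.Finite) →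
  ∀ (β : ι → Bar G) (w' : ι → ℤ), (∀ a, β a ∈ Len (n + 1)) → ∃ Θ : Finset G,
    ∀ (x : ι → ZG G) (κ : ℤ), (∀ a, ∀ g ∈ Θ, (x a).coeff g = κ * w' a) →
      ev φ (∑ a, x a • β a) = κ * ev (om φ) (∑ a, w' a • β a)

-- deps:
def S_FAR : Prop := ∀ (G M : Type) [Group G] [AddCommGroup M] (n : ℕ) (E : Finset G)
  (ψ : Bar G →ₗ[ℤ] M), (∀ l : List G, l.length = n → {g | ψ (sx (tr g l)) ≠ 0}.Finite) →
  ∃ F : Finset G, ∀ u ∈ Len (G := G) n, (u ∈ On fun l => ∃ g ∉ F, ∀ x ∈ l, g⁻¹ * x ∈ E) → ψ u = 0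

-- deps: HTPY LOC KAP FAR
def S_NZ : Prop := ∀ (G ι : Type) [Group G] [Fintype ι] [DecidableEq ι] (n : ℕ) (deg : ι → ℕ)
  (c : Matrix ι ι (ZG G)) (w w' : ι → ℤ), IsResolution deg c w → (∀ a, deg a ≤ n) → 0 < n →
  IsResolution (fun a => n - deg a) (cst c) w' → ∀ φ : List G → ℝ,
  (∀ u ∈ Len (G := G) (n + 2), ev φ (bdZ u) = 0) →
  (∀ l : List G, l.length = n + 1 → {g | φ (tr g l) ≠ 0}.Finite) → Geo n φ →
  ∃ z ∈ Len (G := G) (n + 1), co (bd z) = 0 ∧ ev (om φ) z ≠ 0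

-- deps:
def S_OM : Prop := ∀ (G : Type) [Group G] (n : ℕ) (φ : List G → ℝ) (M : ℝ),
  (∀ u ∈ Len (G := G) (n + 2), ev φ (bdZ u) = 0) →
  (∀ l : List G, l.length = n + 1 → {g | φ (tr g l) ≠ 0}.Finite) →
  (∀ l : List G, l.length = n + 1 → ∀ A : Finset G, ∑ g ∈ A, |φ (tr g l)| ≤ M) →
  (∀ g l, om φ (tr g l) = om φ l) ∧ (∀ l : List G, l.length = n + 1 → |om φ l| ≤ M) ∧
    ∀ u ∈ Len (G := G) (n + 2), ev (om φ) (bdZ u) = 0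

-- deps:
def S_FIN : Prop := ∀ (G : Type) [Group G] (n : ℕ) (ω : List G → ℝ) (M : ℝ),
  (∀ g l, ω (tr g l) = ω l) → (∀ l : List G, l.length = n + 1 → |ω l| ≤ M) →
  (∀ u ∈ Len (G := G) (n + 2), ev ω (bdZ u) = 0) →
  ∀ z ∈ Len (G := G) (n + 1), co (bd z) = 0 → ev ω z ≠ 0 → ¬SimplicialVolumeZero G n

-- deps:
def S_AMEN : Prop := ∀ (A : Type) [Group A], (∀ a b : A, a * b = b * a) → IsAmenable A

-- deps:
def S_SOFIC : Prop := ∀ (m : ℕ) (G : Type) [Group G] (r : G →* En m), Function.Injective r →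
  IsSofic G

end

end Pool.Agent.P.MP_f30597_gt.CP
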