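import Pool.Agent.P.MP_f30597_gt.CP.IfaceC

/-! Step AMEN. -/

set_option autoImplicit false
set_option linter.unusedSectionVars false

namespace Pool.Agent.P.MP_f30597_gt.CP

open Finset Matrix MeasureTheory SI

namespace AMENx

variable {A : Type} [CommGroup A] [DecidableEq A] (E : Finset A)

/-- Products with bounded exponents. -/
def box (N : ℕ) : Finset A :=
  (Fintype.piFinset fun _ : E => range (N + 1)).image fun k => ∏ a : E, (a : A) ^ k a

theorem mem_box {N : ℕ} {x : A} :
    x ∈ box E N ↔ ∃ k : E → ℕ, (∀ a, k a ≤ N) ∧ ∏ a : E, (a : A) ^ k a = x := by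
  simp [box]

theorem card_box (N : ℕ) : (box E N).card ≤ (N + 1) ^ E.card :=
  card_image_le.trans (by simp)

theorem one_box (N : ℕ) : (1 : A) ∈ box E N := (mem_box E).2 ⟨0, fun _ => Nat.zero_le _, by simp⟩

theorem sub_box (N : ℕ) : box E N ⊆ box E (N + 1) := fun _ hx =>
  let ⟨k, h, e⟩ := (mem_box E).1 hx
  (mem_box E).2 ⟨k, fun a => (h a).trans N.le_succ, e⟩

theorem mul_box (N : ℕ) {a x : A} (ha : a ∈ E) (hx : x ∈ box E N) : a * x ∈ box E (N + 1) := by
  obtain ⟨k, h, rfl⟩ := (mem_box E).1 hx
  refine (mem_box E).2 ⟨fun b => (if b = ⟨a, ha⟩ then 1 else 0) + k b, fun b => ?_, ?_⟩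
  · have := h b
    dsimp only
    split_ifs <;> omega
  · simp only [pow_add, prod_mul_distrib, pow_ite, pow_one, pow_zero, prod_ite_eq', mem_univ,
      if_true]

theorem am (ε : ℝ) (hε : 0 < ε) : ∃ F : Finset A, F.Nonempty ∧
    ∀ a ∈ E, ((((fun x => a * x) '' (F : Set A)) \ (F : Set A)).ncard : ℝ) ≤ ε * F.card := by
  by_contra h
  have step : ∀ N, (1 + ε) * (box E N).card ≤ (box E (N + 1)).card := by
    intro N
    by_contra h1
    refine h ⟨box E N, ⟨1, one_box E N⟩, fun a ha => ?_⟩
    have h2 : (((fun x => a * x) '' (box E N : Set A)) \ (box E N : Set A)).ncard ≤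
        (box E (N + 1) \ box E N).card := by
      rw [← Set.ncard_coe_finset, coe_sdiff]
      refine Set.ncard_le_ncard (Set.sdiff_subset_sdiff_left ?_) ((finite_toSet _).sdiff)
      rintro _ ⟨x, hx, rfl⟩
      exact mul_box E N ha hx
    have h3 := card_sdiff_add_card_eq_card (sub_box E N)
    have h4 : ((box E (N + 1) \ box E N).card : ℝ) + (box E N).card = (box E (N + 1)).card := by
      exact_mod_cast h3
    have h5 := (Nat.cast_le (α := ℝ)).2 h2
    linarith
  have grow : ∀ N, (1 + ε) ^ N ≤ (box E N).card := by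
    intro N
    induction N with
    | zero =>
      rw [pow_zero]
      exact_mod_cast card_pos.2 ⟨1, one_box E 0⟩
    | succ N ih =>
      rw [pow_succ']
      exact (mul_le_mul_of_nonneg_left ih (by positivity)).trans (step N)
  have T := (tendsto_pow_const_div_const_pow_of_one_lt E.card (r := 1 + ε) (by linarith)).comp
    (Filter.tendsto_add_atTop_nat 1)
  have h0 : (0 : ℝ) < (1 + ε)⁻¹ := by positivity
  obtain ⟨N, hN⟩ := (T.eventually (gt_mem_nhds h0)).exists
  have c : ((box E N).card : ℝ) ≤ ((N + 1 : ℕ) : ℝ) ^ E.card := by exact_mod_cast card_box E N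
  simp only [Function.comp] at hN
  rw [div_lt_iff₀ (by positivity), pow_succ', inv_mul_cancel_left₀ (by positivity)] at hN
  linarith [grow N]

end AMENx

theorem p_AMEN :
    S_AMEN := by
  intro A i h E ε hε
  let j : CommGroup A := { i with mul_comm := h }
  exact @AMENx.am A j (Classical.decEq A) E ε hε

end Pool.Agent.P.MP_f30597_gt.CP
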