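import Pool.Agent.P.MP_f30597_gt.CP.IfaceG

/-! Step BOUND. -/

set_option autoImplicit false
set_option linter.unusedSectionVars false

namespace Pool.Agent.P.MP_f30597_gt.CP

open Finset MeasureTheory

theorem p_BOUND (hNORM : S_NORM) (hGAP : S_GAP) (hNEAR : S_NEAR) (hBOX : S_BOX) (hSUM : S_SUM) (hVOL : S_VOL) :
    S_BOUND := by
  classical
  intro m G _ S hS B hB hBC
  obtain ⟨w, hw, hW⟩ := S.exists_w
  obtain ⟨c, hc⟩ := hGAP m S.toPC (hNORM m G S) hS
  obtain ⟨F, hF⟩ := hNEAR m G S B hB hBC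
  obtain ⟨c1, hc1⟩ := hB.bddAbove_image S.eta.continuous_of_finiteDimensional.continuousOn
  obtain ⟨M, hM⟩ := hSUM F.card c m w hw
  refine ⟨max c1 0 ^ m * M, fun u hu A => ?_⟩
  have hx : ∀ g i, 0 < S.xg g (u i) := fun g i => (S.xg_Pos g).c (hu i)
  have hne : ∀ g ∈ A.filter fun g => (cB B fun i => S.r g (u i)) ≠ 0,
      dt u ≠ 0 ∧ (B ∩ cn fun i => S.r g (u i)).Nonempty := fun g hg =>
    ⟨S.dt_r g u ▸ (cB_ne (mem_filter.1 hg).2).1, (cB_ne (mem_filter.1 hg).2).2⟩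
  rw [← sum_filter_of_ne (p := fun g => (cB B fun i => S.r g (u i)) ≠ 0)
    fun g _ h => abs_ne_zero.1 h]
  refine le_trans (sum_le_sum (g := fun g => max c1 0 ^ m * |dt (nm (S.xg g) u)|) fun g _ => ?_) ?_
  · have := hVOL m S.eta B (max c1 0) (fun i => S.r g (u i)) (le_max_right _ _) (hx g)
      fun p hp => (hc1 ⟨p, hp, rfl⟩).trans (le_max_left _ _)
    rwa [show (nm S.eta fun i => S.r g (u i)) = fun i => S.r g (nm (S.xg g) u i) from
      funext fun i => (map_smul _ _ _).symm, S.dt_r] at this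
  rw [← mul_sum]
  refine mul_le_mul_of_nonneg_left (hM G _ _ (fun g hg => ⟨?_, hW g _ fun i => ⟨?_, ?_⟩⟩)
    fun k A' hA' hk => ?_) (by positivity)
  · unfold nm
    rw [dt_smul]
    exact abs_pos.2 (mul_ne_zero (prod_ne_zero_iff.2 fun i _ => inv_ne_zero (hx g i).ne')
      (hne g hg).1)
  · exact PC.cb_smul (PC.sub_cb (hu i)) (inv_pos.2 (hx g i)).le
  · rw [nm, map_smul, smul_eq_mul, inv_mul_cancel₀ (hx g i).ne']
  · exact hBOX m G F A' (fun g i => S.xg g (u i)) _ (fun g _ => hx g)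
      (fun g hg h hh => hc k w _ _ u (S.xg_Pos g) (S.xg_Pos h) (fun i => PC.sub_cb (hu i))
        (hne g (hA' hg)).1 (hW g) (hW h) (hk g hg) (hk h hh))
      fun g hg h hh => hF u g h hu (hne g (hA' hg)).2 (hne h (hA' hh)).2

end Pool.Agent.P.MP_f30597_gt.CP
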