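import Pool.Agent.P.MP_f30597_gt.CP.IfaceG

/-! Step BOX. -/

set_option autoImplicit false
set_option linter.unusedSectionVars false

namespace Pool.Agent.P.MP_f30597_gt.CP

open Finset MeasureTheory

namespace BOXx

theorem lo {r : ℝ} (h : 0 < r) : (2 : ℝ) ^ Int.log 2 r ≤ r := by
  simpa using Int.zpow_log_le_self (R := ℝ) (b := 2) one_lt_two h

theorem hi (r : ℝ) : r < 2 * (2 : ℝ) ^ Int.log 2 r := by
  have := Int.lt_zpow_succ_log_self (R := ℝ) (b := 2) one_lt_two r
  rw [zpow_add_one₀ (by norm_num)] at this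
  simpa [mul_comm] using this

theorem near {x y c : ℝ} (hc : 0 < c) (hy : 0 < y) (e : Int.log 2 (x / c) = Int.log 2 (y / c)) :
    x ≤ 2 * y := by
  have h1 := hi (x / c)
  have h2 := lo (div_pos hy hc)
  rw [e] at h1
  have h3 : x / c ≤ 2 * y / c := by rw [mul_div_assoc]; linarith
  exact (div_le_div_iff_of_pos_right hc).1 h3

theorem mem {x c : ℝ} {L : ℕ} (hc : 0 < c) (hx : 0 < x) (h1 : x ≤ 2 ^ L * c) (h2 : c ≤ 2 ^ L * x) :
    Int.log 2 (x / c) ∈ Icc (-(L : ℤ)) L := by
  have hr := div_pos hx hc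
  refine mem_Icc.2 ⟨(Int.zpow_le_iff_le_log (R := ℝ) one_lt_two hr).1 ?_, ?_⟩
  · rw [zpow_neg, zpow_natCast, le_div_iff₀ hc, inv_mul_le_iff₀ (by positivity)]
    simpa using h2
  · have := (lo hr).trans ((div_le_iff₀ hc).2 h1)
    rw [← zpow_natCast] at this
    exact (zpow_le_zpow_iff_right₀ one_lt_two).1 this

end BOXx

theorem p_BOX :
    S_BOX := by
  intro m G _ F A a L hp hb hF
  classical
  rcases A.eq_empty_or_nonempty with rfl | ⟨h0, hh⟩
  · simp
  have := card_le_mul_card_image_of_maps_to (f := fun g i => Int.log 2 (a g i / a h0 i)) (s := A)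
    (t := Fintype.piFinset fun _ : Fin m => Icc (-(L : ℤ)) L)
    (fun g hg => Fintype.mem_piFinset.2 fun i =>
      BOXx.mem (hp h0 hh i) (hp g hg i) (hb g hg h0 hh i) (hb h0 hh g hg i)) F.card fun b _ => ?_
  · rw [Fintype.card_piFinset, prod_const, card_univ, Fintype.card_fin, Int.card_Icc] at this
    rwa [show ((L : ℤ) + 1 - -(L : ℤ)).toNat = 2 * L + 1 by omega] at this
  · rcases (A.filter fun g => (fun i => Int.log 2 (a g i / a h0 i)) = b).eq_empty_or_nonempty with
      e | ⟨h, hh'⟩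
    · rw [e]; simp
    obtain ⟨hA, eh⟩ := mem_filter.1 hh'
    refine card_le_card_of_injOn (fun g => g * h⁻¹) (fun g hg => ?_) fun g _ g' _ e =>
      mul_right_cancel e
    obtain ⟨gA, eg⟩ := mem_filter.1 (mem_coe.1 hg)
    refine hF g gA h hA fun i => ?_
    have e := congrFun (eg.trans eh.symm) i
    exact ⟨BOXx.near (hp h0 hh i) (hp h hA i) e, BOXx.near (hp h0 hh i) (hp g gA i) e.symm⟩

end Pool.Agent.P.MP_f30597_gt.CP
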