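import Pool.Agent.P.MP_f30597_gt.CP.IfaceG

/-! Step CEN1. -/

set_option autoImplicit false
set_option linter.unusedSectionVars false

namespace Pool.Agent.P.MP_f30597_gt.CP

open Finset MeasureTheory

namespace CEN1x

open PC

variable {m : ℕ} {G : Type} [Group G]

theorem cpt (S : St m G) {ι : Type} {I : Set ι} (hI : I.Finite) (f : ι → G) {K : Set (V m)}
    (hK : IsCompact K) (h : K ⊆ S.C) :
    IsCompact (⋃ i ∈ I, S.r (f i) '' K) ∧ (⋃ i ∈ I, S.r (f i) '' K) ⊆ S.C :=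
  ⟨hI.isCompact_biUnion fun i _ => hK.image (S.r (f i)).continuous_of_finiteDimensional,
    Set.iUnion₂_subset fun i _ => Set.image_subset_iff.2 fun x hx => S.inv _ x (h hx)⟩

theorem cocpt (S : St m G) (G₁ : Subgroup G) [G₁.FiniteIndex] : ∃ K : Set (V m), IsCompact K ∧
    K ⊆ S.C ∧ ∀ x ∈ S.C, ∃ g ∈ G₁, ∃ t : ℝ, 0 < t ∧ t • S.r g x ∈ K := by
  obtain ⟨K, h1, h2, h3⟩ := S.cocpt
  obtain ⟨h4, h5⟩ := cpt S (Set.finite_univ (α := G ⧸ G₁)) (fun q => q.out⁻¹) h1 h2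
  refine ⟨_, h4, h5, fun x hx => ?_⟩
  obtain ⟨g, t, ht, h6⟩ := h3 x hx
  obtain ⟨h, hh⟩ := QuotientGroup.mk_out_eq_mul G₁ g
  refine ⟨h⁻¹, inv_mem h.2, t, ht, Set.mem_biUnion (Set.mem_univ (g : G ⧸ G₁)) ⟨_, h6, ?_⟩⟩
  rw [map_smul, S.r_r, hh]
  simp

theorem pos {K : PC m} {f : En m} (hf : ∀ x ∈ K.Cb, f x ∈ K.Cb) (h0 : f ≠ 0) {o : V m}
    (ho : o ∈ K.C) : 0 < K.eta (f o) := by
  refine K.pos _ (hf o (sub_cb ho)) fun e => h0 (ext_cb (K := K) fun x hx => ?_)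
  obtain ⟨L, -, h1⟩ := cmp (isCompact_singleton (x := o)) (Set.singleton_subset_iff.2 ho)
    (Bornology.isBounded_singleton (x := x))
  have h2 := hf _ (h1 o rfl x rfl)
  rw [map_sub, map_smul, e, smul_zero, zero_sub] at h2
  exact pointed (hf x hx) h2

end CEN1x

open PC in
theorem p_CEN1 :
    S_CEN1 := by
  intro m G _ S e he h0 h1 G₁ _ hc A hA
  obtain ⟨o, ho⟩ := S.ne
  obtain ⟨K, hK, hKC, hco⟩ := CEN1x.cocpt S G₁
  let a : ℕ → En m := fun j => (1 / ((j : ℝ) + 1)) • 1 + (1 - 1 / ((j : ℝ) + 1)) • e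
  have ht : ∀ j : ℕ, 0 < 1 / ((j : ℝ) + 1) := fun j => by positivity
  have ht' : ∀ j : ℕ, 0 ≤ 1 - 1 / ((j : ℝ) + 1) := fun j => by
    rw [sub_nonneg, div_le_one (by positivity)]; linarith [Nat.cast_nonneg (α := ℝ) j]
  have ha : ∀ j x, a j x = (1 / ((j : ℝ) + 1)) • x + (1 - 1 / ((j : ℝ) + 1)) • e x :=
    fun j x => rfl
  have hab : ∀ j, ∀ x ∈ S.Cb, a j x ∈ S.Cb := fun j x hx =>
    cb_add (cb_smul hx (ht j).le) (cb_smul (he.2 x hx).1 (ht' j))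
  have hao : ∀ j, a j o ∈ S.C := fun j =>
    c_add_cb (S.cone o ho _ (ht j)) (cb_smul (he.2 o (sub_cb ho)).1 (ht' j))
  have har : ∀ j, ∀ g ∈ G₁, ∀ x, S.r g (a j x) = a j (S.r g x) := fun j g hg x => by
    have : S.r g (e x) = e (S.r g x) := LinearMap.congr_fun (hc g hg) x
    rw [ha, ha, map_add, map_smul, map_smul, this]
  choose γ hγ τ hτ hk using fun j => hco _ (hao j)
  have hBf : (insert o ((fun s => S.r s o) '' (A : Set G))).Finite :=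
    (A.finite_toSet.image _).insert o
  obtain ⟨L, hL, hL'⟩ := cmp (K := S.toPC) hBf.isCompact
    (Set.insert_subset ho (Set.image_subset_iff.2 fun s _ => S.inv s o ho)) hBf.isBounded
  obtain ⟨M, hM⟩ := hK.bddAbove_image S.eta.continuous_of_finiteDimensional.continuousOn
  have hL0 : 0 < L := one_pos.trans_le hL
  refine ⟨_, S.disc (K ∪ S.Kup K L (L * M)) (hK.union (kup_compact hK _ _))
    (Set.union_subset hKC (kup_sub hKC hL0 _)), fun hfin => ?_⟩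
  have hT : ∀ j, ∀ x ∈ S.Cb, τ j • S.r (γ j) (a j x) ∈ S.Cb := fun j x hx =>
    cb_smul (S.r_cb _ (hab j x hx)) (hτ j).le
  have hfin' : (Set.range γ).Finite := hfin.subset <| by
    rintro _ ⟨j, rfl⟩
    refine ⟨hγ j, fun s hs => ⟨_, Or.inl (hk j), 1, one_pos, Or.inr ?_⟩⟩
    have hs' : S.r s o ∈ insert o ((fun s => S.r s o) '' (A : Set G)) := Or.inr ⟨s, hs, rfl⟩
    have e1 : S.r (γ j * s * (γ j)⁻¹) (τ j • S.r (γ j) (a j o)) =
        τ j • S.r (γ j) (a j (S.r s o)) := by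
      rw [map_smul, ← har j s (hA s hs), S.r_r, S.r_r, inv_mul_cancel_right]
    have e2 : ∀ x y, τ j • S.r (γ j) (a j (L • x - y)) =
        L • τ j • S.r (γ j) (a j x) - τ j • S.r (γ j) (a j y) := fun x y => by
      rw [map_sub, map_sub, map_smul, map_smul, smul_sub, smul_comm]
    rw [one_smul, e1]
    refine ⟨hT j _ (sub_cb (S.inv s o ho)), ?_, _, hk j, e2 _ _ ▸ hT j _ (hL' _ hs' _ (Or.inl rfl))⟩
    have h2 := eta_Pos.nn.mono (e2 _ _ ▸ hT j _ (hL' _ (Or.inl rfl) _ hs'))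
    rw [map_smul S.eta L] at h2
    exact h2.trans (mul_le_mul_of_nonneg_left (hM ⟨_, hk j, rfl⟩) hL0.le)
  obtain ⟨h2, h3⟩ := CEN1x.cpt S hfin' (fun g => g⁻¹) hK hKC
  obtain ⟨N, hN, hN'⟩ := cmp (K := S.toPC) (h2.insert o) (Set.insert_subset ho h3)
    (h2.insert o).isBounded
  obtain ⟨j, hj⟩ := exists_nat_ge (N * N)
  have hp : τ j • a j o ∈ insert o (⋃ g ∈ Set.range γ, S.r g⁻¹ '' K) :=
    Or.inr (Set.mem_biUnion ⟨j, rfl⟩ ⟨_, hk j, by rw [map_smul, S.r_inv]⟩)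
  have hee : e (e o) = e o := LinearMap.congr_fun he.1 o
  have p1 : 0 < S.eta ((1 - e) o) :=
    CEN1x.pos (K := S.toPC) (fun x hx => (he.2 x hx).2) (sub_ne_zero.2 h1.symm) ho
  have p2 : 0 < S.eta (e o) := CEN1x.pos (K := S.toPC) (fun x hx => (he.2 x hx).1) h0 ho
  have q1 := eta_Pos.nn _ (he.2 _ (hN' _ hp _ (Or.inl rfl))).2
  have q2 := eta_Pos.nn _ (he.2 _ (hN' _ (Or.inl rfl) _ hp)).1
  simp only [LinearMap.sub_apply, Module.End.one_apply, ha, map_sub, map_add, map_smul, hee,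
    smul_eq_mul] at p1 q1 q2
  have r1 : 1 ≤ N * τ j * (1 / ((j : ℝ) + 1)) := by
    refine le_of_mul_le_mul_right ?_ p1
    linarith
  have r2 : τ j ≤ N := by
    refine le_of_mul_le_mul_right ?_ p2
    linarith
  rw [mul_one_div, le_div_iff₀ (by positivity)] at r1
  nlinarith

end Pool.Agent.P.MP_f30597_gt.CP
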