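import Pool.Agent.P.MP_f30597_gt.CP.IfaceG

/-! Step CHAIN. -/

set_option autoImplicit false
set_option linter.unusedSectionVars false

namespace Pool.Agent.P.MP_f30597_gt.CP

open Finset MeasureTheory

theorem p_CHAIN :
    S_CHAIN := by
  intro m ρ Λ hΛ hρ H i j
  by_contra hc
  rw [not_le] at hc
  let I : ℕ → Finset (Fin m) := fun a => univ.filter fun l => Λ ^ a * ρ j < ρ l
  have hI : ∀ a l, l ∈ I a ↔ Λ ^ a * ρ j < ρ l := fun a l => by simp [I]
  have hmono : ∀ a b, a ≤ b → Λ ^ a * ρ j ≤ Λ ^ b * ρ j := fun a b h =>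
    mul_le_mul_of_nonneg_right (pow_le_pow_right₀ hΛ h) (hρ j).le
  have hi : ∀ a ≤ m, i ∈ I a := fun a ha => (hI a i).2 ((hmono a m ha).trans_lt hc)
  have hj : ∀ a, j ∉ I a := fun a h => by
    have h1 := hmono 0 a (Nat.zero_le a)
    rw [pow_zero, one_mul] at h1
    exact absurd ((hI a j).1 h) (not_lt.2 h1)
  have key : ∀ a ≤ m, (I a).card + a ≤ m := by
    intro a
    induction a with
    | zero => exact fun _ => by simpa using card_le_univ (I 0)
    | succ a ih =>
      intro ha
      have h1 := ih (by omega)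
      obtain ⟨l, hl, hmin⟩ := exists_min_image (I a) ρ ⟨i, hi a (by omega)⟩
      have h2 := H (I a) (Λ ^ a * ρ j) (ρ l) ⟨l, hl⟩ (fun e => hj a (e ▸ mem_univ j))
        (mul_pos (pow_pos (zero_lt_one.trans_le hΛ) a) (hρ j))
        (fun k hk => not_lt.1 fun h => hk ((hI a k).2 h)) hmin
      have h3 : I (a + 1) ⊂ I a := by
        refine ⟨fun k hk => (hI a k).2 ((hmono a _ a.le_succ).trans_lt ((hI _ k).1 hk)),
          fun h => ?_⟩
        have h4 := (hI _ l).1 (h hl)
        rw [pow_succ', mul_assoc] at h4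
        exact absurd h4 (not_lt.2 h2)
      have := card_lt_card h3
      omega
  have h5 := key m le_rfl
  have h6 := card_pos.2 ⟨i, hi m le_rfl⟩
  omega

end Pool.Agent.P.MP_f30597_gt.CP
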