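import Pool.Agent.P.MP_f30597_gt.CP.IfaceC
import Pool.Agent.P.MP_f30597_gt.CP.IfaceG

/-! Step COC. -/

set_option autoImplicit false
set_option linter.unusedSectionVars false

namespace Pool.Agent.P.MP_f30597_gt.CP

open Finset Matrix MeasureTheory SI

theorem p_COC (hCOC1 : S_COC1) :
    S_COC := by
  intro m B hB z u hu
  refine on_eq (ev (cL B) ∘ₗ bdZ) 0 (fun l hl => ?_) hu
  have e : ∀ i : Fin (m + 1), tup (l.eraseIdx i) = fun j => l.getD (i.succAbove j) 0 := by
    intro i
    funext j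
    rw [tup, List.getD_eq_getElem?_getD, List.getD_eq_getElem?_getD, List.getElem?_eraseIdx,
      Fin.succAbove]
    by_cases c : j.1 < i.1
    · rw [if_pos c, if_pos (Fin.lt_def.2 c), Fin.val_castSucc]
    · rw [if_neg c, if_neg (mt Fin.lt_def.1 c), Fin.val_succ]
  have := hCOC1 m B hB (fun i => l.getD i 0) z fun i => hl.2 _ (by
    rw [List.getD_eq_getElem _ _ (hl.1.symm ▸ i.2)]
    exact List.getElem_mem _)
  rw [LinearMap.comp_apply, bd_sx, hl.1, sum_range, map_sum, LinearMap.zero_apply, ← this]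
  refine sum_congr rfl fun i _ => ?_
  rw [map_zsmul, ev_sx, cL, e, zsmul_eq_mul]
  push_cast
  rfl

end Pool.Agent.P.MP_f30597_gt.CP
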