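import Pool.Agent.P.MP_f30597_gt.CP.IfaceG

/-! Step COC0. -/

set_option autoImplicit false
set_option linter.unusedSectionVars false

namespace Pool.Agent.P.MP_f30597_gt.CP

open Finset MeasureTheory

namespace COC0x

variable {m : ℕ}

/-- the signed minors -/
noncomputable def lam (u : Fin (m + 1) → V m) (i : Fin (m + 1)) : ℝ :=
  (-1) ^ (i : ℕ) * dt fun j => u (i.succAbove j)

theorem sum_lam (u : Fin (m + 1) → V m) : ∑ i, lam u i • u i = 0 := by
  ext c
  have h := Matrix.det_succ_column_zero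
    (Matrix.of fun i => (Fin.cons (u i c) (u i) : Fin (m + 1) → ℝ))
  rw [Matrix.det_zero_of_column_eq (Fin.succ_ne_zero c).symm (fun k => by simp)] at h
  rw [Finset.sum_apply, Pi.zero_apply, h]
  refine sum_congr rfl fun i _ => ?_
  have : (Matrix.of fun i => (Fin.cons (u i c) (u i) : Fin (m + 1) → ℝ)).submatrix i.succAbove
      Fin.succ = Matrix.of fun j => u (i.succAbove j) := by
    ext a b; simp
  rw [this]
  simp only [lam, dt, Pi.smul_apply, smul_eq_mul, Matrix.of_apply, Fin.cons_zero]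
  ring

theorem ker {u : Fin (m + 1) → V m} {k : Fin (m + 1)} (hk : lam u k ≠ 0) (t : Fin (m + 1) → ℝ)
    (ht : ∑ i, t i • u i = 0) : ∃ τ : ℝ, ∀ i, t i = τ * lam u i := by
  have hd := Fintype.linearIndependent_iff.1 ((dt_ne_iff _).1 (right_ne_zero_of_mul hk))
  have h0 : t k - t k / lam u k * lam u k = 0 := by rw [div_mul_cancel₀ _ hk, sub_self]
  have h1 : ∑ i, (t i - t k / lam u k * lam u i) • u i = 0 := by
    simp only [sub_smul, mul_smul, sum_sub_distrib, ← smul_sum, sum_lam, ht, smul_zero, sub_zero]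
  rw [Fin.sum_univ_succAbove _ k, h0, zero_smul, zero_add] at h1
  refine ⟨t k / lam u k, fun i => sub_eq_zero.1 ?_⟩
  rcases Fin.eq_self_or_eq_succAbove k i with rfl | ⟨j, rfl⟩
  · exact h0
  · exact hd _ h1 j

theorem sgn (u : Fin (m + 1) → V m) (i : Fin (m + 1)) (x : ℝ) :
    (-1 : ℝ) ^ (i : ℕ) * ((SignType.sign (dt fun j => u (i.succAbove j)) : ℝ) * x) =
      (SignType.sign (lam u i) : ℝ) * x := by
  unfold lam
  rcases neg_one_pow_eq_or ℝ i with h | h <;> simp [h, Left.sign_neg]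

end COC0x

open COC0x in
theorem p_COC0 (hSEG : S_SEG) :
    S_COC0 := by
  classical
  intro m u z hz p hp
  simp only [sgn]
  by_cases h0 : ∀ i, lam u i = 0
  · simp [h0]
  obtain ⟨k, hk⟩ := not_forall.1 h0
  obtain ⟨s, hs⟩ : ∃ s : Fin (m + 1) → ℝ, ∑ i, s i • u i = p :=
    ⟨k.insertNth 0 fun j => crd (fun j => u (k.succAbove j)) j p, by
      rw [Fin.sum_univ_succAbove _ k]
      simpa using sum_crd (right_ne_zero_of_mul hk) p⟩
  have hτ : ∀ τ : ℝ, ∑ i, (s i + τ * lam u i) • u i = p := fun τ => by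
    simp only [add_smul, mul_smul, sum_add_distrib, ← smul_sum, sum_lam, hs, smul_zero, add_zero]
  have hz0 : ∑ i, lam u i * z (u i) = 0 := by
    simpa using congrArg z (sum_lam u)
  have h1 : (∃ i, 0 < lam u i) ↔ ∃ i, lam u i < 0 := by
    constructor
    · rintro ⟨i, hi⟩
      by_contra! h
      exact (sum_pos' (fun j _ => mul_nonneg (h j) (hz j).le)
        ⟨i, mem_univ _, mul_pos hi (hz i)⟩).ne' hz0
    · rintro ⟨i, hi⟩
      by_contra! h
      exact (sum_neg' (fun j _ => mul_nonpos_of_nonpos_of_nonneg (h j) (hz j).le)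
        ⟨i, mem_univ _, mul_neg_of_neg_of_pos hi (hz i)⟩).ne hz0
  have h2 : ∀ (τ : ℝ) i j, i ≠ j → s i + τ * lam u i = 0 → s j + τ * lam u j ≠ 0 := by
    intro τ i j hij hi hj
    refine hp i j hij (hτ τ ▸ Submodule.sum_mem _ fun l _ => ?_)
    by_cases e : l ≠ i ∧ l ≠ j
    · exact Submodule.smul_mem _ _ (Submodule.subset_span ⟨l, e, rfl⟩)
    · rcases not_and_or.1 e with e | e <;> rw [not_not.1 e] <;> simp [hi, hj]
  have h3 : ∀ i, p ∈ (cn fun j => u (Fin.succAbove i j)) ↔
      ∃ τ : ℝ, s i + τ * lam u i = 0 ∧ ∀ j, j ≠ i → 0 < s j + τ * lam u j := fun i => by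
    constructor
    · rintro ⟨t, ht, e⟩
      obtain ⟨τ, h⟩ := ker hk (fun l => i.insertNth (α := fun _ => ℝ) 0 t l - s l) (by
        simp only [sub_smul, sum_sub_distrib, hs]
        rw [Fin.sum_univ_succAbove _ i, e]
        simp)
      refine ⟨τ, by simp [← h], fun j hj => ?_⟩
      obtain ⟨l, rfl⟩ := Fin.exists_succAbove_eq hj
      simpa [← h] using ht l
    · rintro ⟨τ, h, h'⟩
      refine ⟨_, fun j => h' _ (i.succAbove_ne j), ?_⟩
      rw [← hτ τ, Fin.sum_univ_succAbove _ i, h, zero_smul, zero_add]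
  rcases hSEG _ (lam u) s _ h1 h2 h3 with h | ⟨a, b, ha, hb, h⟩
  · refine sum_eq_zero fun i _ => ?_
    by_cases e : lam u i = 0
    · simp [e]
    · rw [Set.indicator_of_notMem (h i e), mul_zero]
  · have hab : a ≠ b := fun e => by rw [e] at ha; exact lt_asymm ha hb
    rw [sum_eq_add a b hab (fun i _ hi => ?_) (by simp) (by simp),
      Set.indicator_of_mem ((h a ha.ne').2 (Or.inl rfl)),
      Set.indicator_of_mem ((h b hb.ne).2 (Or.inr rfl)), sign_pos ha, sign_neg hb]
    · simp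
    · by_cases e : lam u i = 0
      · simp [e]
      · rw [Set.indicator_of_notMem (fun hP => not_or.2 hi ((h i e).1 hP)), mul_zero]

end Pool.Agent.P.MP_f30597_gt.CP
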