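import Pool.Agent.P.MP_f30597_gt.CP.IfaceG

/-! Step COC1. -/

set_option autoImplicit false
set_option linter.unusedSectionVars false

namespace Pool.Agent.P.MP_f30597_gt.CP

open Finset MeasureTheory

namespace COC1x

theorem meas {m : ℕ} {v : Fin m → V m} (h : dt v ≠ 0) : MeasurableSet (cn v) := by
  have e : cn v = ⋂ i, {p | 0 < crd v i p} := by
    ext p
    simp only [Set.mem_iInter, Set.mem_ofPred_eq]
    refine ⟨?_, fun hp => ⟨_, hp, (sum_crd h p).symm⟩⟩
    rintro ⟨s, hs, rfl⟩ i
    simpa [map_sum, crd_self h] using hs i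
  rw [e]
  exact MeasurableSet.iInter fun i =>
    (isOpen_lt continuous_const (crd v i).continuous_of_finiteDimensional).measurableSet

theorem int {m : ℕ} {B : Set (V m)} (hB : IsCompact B) (v : Fin m → V m) :
    Integrable (fun p => (SignType.sign (dt v) : ℝ) * (cn v).indicator (fun _ => (1 : ℝ)) p)
      (volume.restrict B) ∧
    ∫ p in B, (SignType.sign (dt v) : ℝ) * (cn v).indicator (fun _ => (1 : ℝ)) p = cB B v := by
  by_cases h : dt v = 0
  · simp [h, cB]
  have : IsFiniteMeasure (volume.restrict B) := isFiniteMeasure_restrict.2 hB.measure_lt_top.ne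
  refine ⟨((integrable_const 1).indicator (meas h)).const_mul _, ?_⟩
  rw [integral_const_mul, integral_indicator_const _ (meas h), smul_eq_mul, mul_one, cB,
    Measure.real, Measure.restrict_apply (meas h), Set.inter_comm]

theorem proper {m : ℕ} (u : Fin (m + 1) → V m) {i j : Fin (m + 1)} (h : i ≠ j) :
    Submodule.span ℝ (u '' {k | k ≠ i ∧ k ≠ j}) ≠ ⊤ := by
  classical
  intro e
  have e1 : u '' {k | k ≠ i ∧ k ≠ j} = (((univ.erase j).erase i).image u : Finset (V m)) := by
    ext x
    simp [and_comm]
  have h1 := finrank_span_finset_le_card (R := ℝ) (((univ.erase j).erase i).image u)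
  have h2 := card_image_le (s := (univ.erase j).erase i) (f := u)
  have h3 := card_erase_add_one (mem_erase.2 ⟨h, mem_univ i⟩)
  have h4 := card_erase_add_one (mem_univ j)
  rw [Set.finrank, ← e1, e, finrank_top, Module.finrank_fin_fun] at h1
  rw [card_univ, Fintype.card_fin] at h4
  omega

end COC1x

theorem p_COC1 (hCOC0 : S_COC0) :
    S_COC1 := by
  intro m B hB u z hz
  simp only [← (COC1x.int hB _).2, ← integral_const_mul]
  rw [← integral_finsetSum _ fun i _ => (COC1x.int hB _).1.const_mul _]
  refine integral_eq_zero_of_ae (ae_restrict_of_ae ?_)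
  have : ∀ᵐ p : V m, ∀ i j, i ≠ j → p ∉ Submodule.span ℝ (u '' {k | k ≠ i ∧ k ≠ j}) :=
    ae_all_iff.2 fun i => ae_all_iff.2 fun j => by
      by_cases h : i = j
      · simp [h]
      · exact (measure_eq_zero_iff_ae_notMem.1
          (Measure.addHaar_submodule volume _ (COC1x.proper u h))).mono fun p hp _ => hp
  exact this.mono fun p hp => hCOC0 m u z hz p hp

end Pool.Agent.P.MP_f30597_gt.CP
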