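import Pool.Agent.P.MP_f30597_gt.CP.IfaceG

/-! Step DBL. -/

set_option autoImplicit false
set_option linter.unusedSectionVars false

namespace Pool.Agent.P.MP_f30597_gt.CP

open Finset MeasureTheory

theorem p_DBL :
    S_DBL := by
  intro m K T h x y hx hy I h1 h2 s hs ξ ζ hξ hζ a b
  by_contra c
  push Not at c
  have k : ∀ {u : Fin m → V m} {i v}, dt u ≠ 0 → |dt (Function.update u i v)| ≤ 2 * |dt u| →
      |crd u i v| ≤ 2 := fun e e' => by rwa [crd_apply, abs_div, div_le_iff₀ (abs_pos.2 e)]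
  refine h x (s • y) I (fun i => if i ∈ I then ζ i else s⁻¹ • ξ i)
    (fun i => if i ∈ I then crd ζ i else s • crd ξ i)
    ⟨hx, fun v hv e => mul_pos hs (hy v hv e), h1, h2, fun i => ?_, fun i hi => ?_, fun i hi => ?_,
      fun i hi v hv p q => ?_, fun i hi v hv p q => ?_, fun i j e => ?_⟩
  · split_ifs with hi
    exacts [(b i hi).1, PC.cb_smul' (a i hi).1 (inv_pos.2 hs)]
  · rw [if_pos hi, LinearMap.smul_apply, smul_eq_mul, mul_left_comm, ← mul_assoc]
    exact (b i hi).2
  · rw [if_neg hi, LinearMap.smul_apply, map_smul, map_smul, smul_inv_smul₀ hs.ne', smul_eq_mul,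
      mul_left_comm, inv_mul_le_one₀ hs]
    exact (a i hi).2
  · rw [if_pos hi]
    exact k hζ (c.2 i hi v hv p q)
  · rw [if_neg hi, LinearMap.smul_apply, ← map_smul]
    exact k hξ (c.1 i hi _ (PC.cb_smul' hv hs)
      (by rw [map_smul]; exact mul_le_mul_of_nonneg_left p hs.le) (by rw [map_smul]; exact q))
  · by_cases hi : i ∈ I
    · rw [if_pos hi, if_pos (e.1 hi), crd_self hζ]
    · rw [if_neg hi, if_neg (mt e.2 hi), LinearMap.smul_apply, map_smul, smul_inv_smul₀ hs.ne',
        crd_self hξ]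

end Pool.Agent.P.MP_f30597_gt.CP
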