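import Pool.Agent.P.MP_f30597_gt.CP.IfaceG

/-! Step DISC. -/

set_option autoImplicit false
set_option linter.unusedSectionVars false

namespace Pool.Agent.P.MP_f30597_gt.CP

open Finset MeasureTheory

theorem p_DISC :
    S_DISC := by
  intro m G _ S B hB hBC u hu
  refine (S.disc (B ∪ convexHull ℝ (Set.range u))
    (hB.union ((Set.finite_range u).isCompact_convexHull ℝ))
    (Set.union_subset hBC (convexHull_min (Set.range_subset_iff.2 hu) S.cv))).subset ?_
  rintro g ⟨p, hp, s, hs, e⟩
  have h0 : 0 < ∑ i, s i := by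
    refine (sum_nonneg fun i _ => (hs i).le).lt_of_ne fun h => S.nz ?_
    have := (sum_eq_zero_iff_of_nonneg fun i _ => (hs i).le).1 h.symm
    have hp0 : p = 0 := e.trans (sum_eq_zero fun i hi => by rw [this i hi, zero_smul])
    exact hp0 ▸ hBC hp
  refine ⟨∑ i, (s i / ∑ j, s j) • u i, .inr ?_, _, h0, .inl ?_⟩
  · exact (convex_convexHull ℝ _).sum_mem (fun i _ => div_nonneg (hs i).le h0.le)
      (by rw [← sum_div, div_self h0.ne']) fun i _ => subset_convexHull ℝ _ ⟨i, rfl⟩
  · have : (∑ j, s j) • S.r g (∑ i, (s i / ∑ j, s j) • u i) = p := by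
      rw [e, map_sum, smul_sum]
      exact sum_congr rfl fun i _ => by rw [map_smul, smul_smul, mul_div_cancel₀ _ h0.ne']
    exact this ▸ hp

end Pool.Agent.P.MP_f30597_gt.CP
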