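import Pool.Agent.P.MP_f30597_gt.CP.IfaceC

/-! Step FAR. -/

set_option autoImplicit false
set_option linter.unusedSectionVars false

namespace Pool.Agent.P.MP_f30597_gt.CP

open Finset Matrix MeasureTheory SI

theorem p_FAR :
    S_FAR := by
  intro G M _ _ n E ψ hψ
  have hL : {l : List G | l.length = n ∧ ∀ x ∈ l, x ∈ E}.Finite := by
    refine ((List.finite_length_eq E n).image (List.map Subtype.val)).subset ?_
    rintro l ⟨h1, h2⟩
    exact ⟨l.attachWith (· ∈ E) h2, by simpa using h1, by simp⟩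
  have hF := hL.biUnion (t := fun l => {g | ψ (sx (tr g l)) ≠ 0}) fun l hl => hψ l hl.1
  refine ⟨hF.toFinset, fun u hu hon => on_eq ψ 0 (fun l hl => ?_) (on_and (len_iff.1 hu) hon)⟩
  obtain ⟨h1, g, hg, h2⟩ := hl
  by_contra hne
  refine hg (hF.mem_toFinset.2 (Set.mem_biUnion (x := l.map (g⁻¹ * ·)) ⟨by simpa using h1, ?_⟩ ?_))
  · intro x hx
    obtain ⟨y, hy, rfl⟩ := List.mem_map.1 hx
    exact h2 y hy
  · have e : tr g (l.map (g⁻¹ * ·)) = l := by simp [tr, Function.comp_def]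
    show ψ (sx (tr g (l.map (g⁻¹ * ·)))) ≠ 0
    rw [e]
    exact hne

end Pool.Agent.P.MP_f30597_gt.CP
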