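import Pool.Agent.P.MP_f30597_gt.CP.IfaceC

/-! Step FIN. -/

set_option autoImplicit false
set_option linter.unusedSectionVars false

namespace Pool.Agent.P.MP_f30597_gt.CP

open Finset Matrix MeasureTheory SI

namespace FINx

variable {G : Type} [Group G]

/-- evaluation on real chains -/
noncomputable def evR (ω : List G → ℝ) : (List G →₀ ℝ) →ₗ[ℝ] ℝ := Finsupp.linearCombination ℝ ω

theorem evR_co (ω : List G → ℝ) (h : ∀ g l, ω (tr g l) = ω l) (y : List G →₀ ℝ) :
    evR ω (coR y) = evR ω y := by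
  rw [evR, coR, Finsupp.linearCombination_mapDomain]
  congr 2
  funext l
  exact h _ l

theorem evR_cast (ω : List G → ℝ) (z : Bar G) :
    evR ω (z.mapRange Int.cast Int.cast_zero) = ev ω z := by
  rw [evR, ev, Finsupp.linearCombination_apply, Finsupp.linearCombination_apply,
    Finsupp.sum_mapRange_index (by simp)]
  simp

theorem evR_bd (ω : List G → ℝ) (u : List G →₀ ℝ) :
    evR ω (bdR u) = u.sum fun l x => x * ev ω (bdZ (sx l)) := by
  rw [bdR, map_finsuppSum]
  refine Finsupp.sum_congr fun l _ => ?_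
  rw [bd_sx, map_sum, map_sum, mul_sum]
  refine sum_congr rfl fun i _ => ?_
  rw [map_zsmul, ev_sx, evR, Finsupp.linearCombination_single]
  simp only [smul_eq_mul, zsmul_eq_mul, Int.cast_pow, Int.cast_neg, Int.cast_one]
  ring

theorem evR_le (ω : List G → ℝ) (M : ℝ) (h : ∀ l, |ω l| ≤ M) (y : List G →₀ ℝ) :
    |evR ω y| ≤ M * y.sum fun _ x => |x| := by
  rw [evR, Finsupp.linearCombination_apply, Finsupp.sum, Finsupp.sum, mul_sum]
  refine (abs_sum_le_sum_abs _ _).trans (sum_le_sum fun l _ => ?_)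
  rw [smul_eq_mul, abs_mul, mul_comm]
  exact mul_le_mul_of_nonneg_right (h l) (abs_nonneg _)

end FINx

open FINx in
theorem p_FIN :
    S_FIN := by
  rintro G _ n ω M hinv hM hcoc z0 hz0 hc hne ⟨z, hz, hε⟩
  have M0 : 0 ≤ M := (abs_nonneg _).trans (hM (List.replicate (n + 1) 1) (by simp))
  let ψ : List G → ℝ := fun l => if l.length = n + 1 then ω l else 0
  have e1 : ∀ u ∈ Len (G := G) (n + 1), ev ψ u = ev ω u := fun u hu =>
    on_eq (p := fun l => l.length = n + 1) _ _
      (fun l hl => by rw [ev_sx, ev_sx]; exact if_pos hl) hu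
  have hψ : ∀ l, |ψ l| ≤ M := fun l => by
    change |if _ then _ else _| ≤ _
    split_ifs with h
    · exact hM l h
    · rwa [abs_zero]
  have hi : ∀ g l, ψ (tr g l) = ψ l := fun g l => by simp only [ψ, tr_length, hinv]
  have hco : ∀ u, ev ω (co u) = ev ω u :=
    inv_co (ev ω) fun g l => by rw [ev_sx, ev_sx, hinv]
  obtain ⟨k, u, hu, e⟩ := hz.gen z0 hz0 hc
  have e2 := congrArg (ev ω) e
  rw [map_add, map_zsmul, hco, hco, hco, bd_eq, hcoc u hu, add_zero] at e2
  have h0 : 0 < |ev ω z| := abs_pos.2 fun h => hne (by rw [e2, h, smul_zero])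
  obtain ⟨v, hv, hlt⟩ := hε (|ev ω z| / (M + 1)) (by positivity)
  have e3 := evR_le ψ M hψ (coR (z.mapRange Int.cast Int.cast_zero + bdR v))
  have e4 : evR ψ (bdR v) = 0 := by
    rw [evR_bd]
    refine sum_eq_zero fun l hl => ?_
    have h1 : sx l ∈ Len (G := G) (n + 2) := hv l hl ▸ sx_len l
    change _ * _ = _
    rw [e1 _ (bdZ_len h1), hcoc _ h1, mul_zero]
  rw [evR_co ψ hi, map_add, evR_cast, e4, add_zero, e1 z hz.len] at e3
  rw [lt_div_iff₀ (by positivity)] at hlt
  have e5 : 0 ≤ (coR (z.mapRange Int.cast Int.cast_zero + bdR v)).sum fun _ x => |x| :=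
    sum_nonneg fun _ _ => abs_nonneg _
  nlinarith

end Pool.Agent.P.MP_f30597_gt.CP
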