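import Pool.Agent.P.MP_f30597_gt.CP.IfaceG

/-! Step GAP. -/

set_option autoImplicit false
set_option linter.unusedSectionVars false

namespace Pool.Agent.P.MP_f30597_gt.CP

open Finset MeasureTheory

theorem p_GAP (hML : S_ML) (hDBL : S_DBL) (hGAP1 : S_GAP1) (hCHAIN : S_CHAIN) :
    S_GAP := by
  intro m K hN hS
  obtain ⟨T, hT, hD⟩ := hML m K hN hS
  have hDbl := hDBL m K T hD
  obtain ⟨a, ha⟩ := pow_unbounded_of_one_lt T (one_lt_two (α := ℝ))
  refine ⟨4 * a * m + 1, fun k w x y u hx hy hu hd wx wy h1 h2 i => ?_⟩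
  have hne : ∀ i, u i ≠ 0 := fun i => ((dt_ne_iff u).1 hd).ne_zero i
  have px : ∀ i, 0 < x (u i) := fun i => hx _ (hu i) (hne i)
  have py : ∀ i, 0 < y (u i) := fun i => hy _ (hu i) (hne i)
  have pρ : ∀ i, 0 < x (u i) / y (u i) := fun i => div_pos (px i) (py i)
  have hch := hCHAIN m (fun i => x (u i) / y (u i)) (T ^ (4 * k + 2)) (one_le_pow₀ hT.le) pρ
    fun I s₀ s₁ n1 n2 h0 h3 h4 => hGAP1 m K T hT hDbl k x y u I s₀ s₁ hx hy hu hd
      (fun ξ hξ => (wx ξ hξ).trans h1) (fun ξ hξ => (wy ξ hξ).trans h2) n1 n2 h0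
      (fun i hi => (div_le_iff₀ (py i)).1 (h3 i hi)) fun i hi => (le_div_iff₀ (py i)).1 (h4 i hi)
  have e1 : nm y u = fun i => (x (u i) / y (u i)) • nm x u i := by
    funext i
    rw [nm, nm, smul_smul]
    congr 1
    have := (px i).ne'
    field_simp
  have hD0 : 0 < |dt (nm x u)| := by
    unfold nm
    rw [abs_pos, dt_smul]
    exact mul_ne_zero (prod_ne_zero_iff.2 fun i _ => inv_ne_zero (px i).ne') hd
  have h5 : |dt (nm y u)| ≤ w := wy _ fun i =>
    ⟨PC.cb_smul (hu i) (inv_pos.2 (py i)).le, by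
      rw [nm, map_smul, smul_eq_mul, inv_mul_cancel₀ (py i).ne']⟩
  rw [e1, dt_smul, abs_mul, abs_of_pos (prod_pos fun i _ => pρ i)] at h5
  have h6 : ∏ i, x (u i) / y (u i) ≤ 2 ^ k := le_of_mul_le_mul_right (h5.trans h1) hD0
  obtain ⟨j, hj⟩ : ∃ j, x (u j) / y (u j) ≤ 2 ^ k := by
    by_contra hc
    have h7 := prod_lt_prod_of_nonempty (s := (univ : Finset (Fin m))) (f := fun _ => (2 : ℝ) ^ k)
      (g := fun i => x (u i) / y (u i)) (fun _ _ => by positivity)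
      (fun j _ => not_le.1 fun h => hc ⟨j, h⟩) ⟨i, mem_univ _⟩
    rw [prod_const, card_univ, Fintype.card_fin] at h7
    exact absurd (h7.trans_le h6) (not_lt.2 (le_self_pow₀ (one_le_pow₀ one_le_two) K.m_pos.ne'))
  rw [← div_le_iff₀ (py i)]
  have hT0 : 0 ≤ T := zero_le_one.trans hT.le
  calc x (u i) / y (u i) ≤ (T ^ (4 * k + 2)) ^ m * (x (u j) / y (u j)) := hch i j
    _ ≤ ((2 ^ a) ^ (4 * k + 2)) ^ m * 2 ^ k :=
        mul_le_mul (pow_le_pow_left₀ (by positivity) (pow_le_pow_left₀ hT0 ha.le _) _) hj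
          (pρ j).le (by positivity)
    _ = 2 ^ (a * (4 * k + 2) * m + k) := by rw [← pow_mul, ← pow_mul, ← pow_add, mul_assoc]
    _ ≤ _ := pow_le_pow_right₀ one_le_two (by nlinarith [Nat.zero_le (a * m)])

end Pool.Agent.P.MP_f30597_gt.CP
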