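import Pool.Agent.P.MP_f30597_gt.CP.IfaceG

/-! Step GAP1. -/

set_option autoImplicit false
set_option linter.unusedSectionVars false

namespace Pool.Agent.P.MP_f30597_gt.CP

open Finset MeasureTheory

theorem GAP1x.comb (Q Q' : ℕ → ℕ → Prop) (k : ℕ) (h0 : ∀ a, Q a 0) (h0' : ∀ a ≤ 2 * k + 1, Q' a 0)
    (m : ∀ a i, Q a i → Q (a + 1) i) (m' : ∀ a i, Q' (a + 1) i → Q' a i)
    (b : ∀ a i, Q a i → i ≤ k) (b' : ∀ a i, Q' a i → i ≤ k)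
    (st : ∀ a i j, Q a i → Q' (a + 1) j → Q (a + 1) (i + 1) ∨ Q' a (j + 1)) : False := by
  classical
  have key : ∀ a ≤ 2 * k + 1, a + Nat.findGreatest (Q' a) k ≤
      Nat.findGreatest (Q a) k + Nat.findGreatest (Q' 0) k := fun a ha => by
    induction a with
    | zero => omega
    | succ a ih =>
      have h1 := Nat.findGreatest_spec k.zero_le (h0 a)
      have h2 := Nat.findGreatest_spec k.zero_le (h0' _ ha)
      have h3 := Nat.le_findGreatest (b _ _ h1) (m _ _ h1)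
      have h4 := Nat.le_findGreatest (b' _ _ h2) (m' _ _ h2)
      have := ih (by omega)
      rcases st _ _ _ h1 h2 with h | h
      · have := Nat.le_findGreatest (b _ _ h) h; omega
      · have := Nat.le_findGreatest (b' _ _ h) h; omega
  have := key _ le_rfl
  have := Nat.findGreatest_le (P := Q (2 * k + 1)) k
  have := Nat.findGreatest_le (P := Q' 0) k
  omega

theorem GAP1x.nrm {m : ℕ} {K : PC m} {x : Fn m} {u : Fin m → V m} (hx : K.Pos x)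
    (hu : ∀ i, u i ∈ K.Cb) (h : dt u ≠ 0) : (∀ i, 0 < x (u i)) ∧ 0 < |dt (nm x u)| ∧
      ∀ i, nm x u i ∈ K.Cb ∧ x (nm x u i) ≤ 1 := by
  have h1 : ∀ i, 0 < x (u i) := fun i => hx _ (hu i) (((dt_ne_iff u).1 h).ne_zero i)
  refine ⟨h1, abs_pos.2 ?_, fun i => ⟨PC.cb_smul' (hu i) (inv_pos.2 (h1 i)), ?_⟩⟩
  · unfold nm
    rw [dt_smul]
    exact mul_ne_zero (prod_ne_zero_iff.2 fun i _ => inv_ne_zero (h1 i).ne') h
  · rw [nm, map_smul, smul_eq_mul, inv_mul_cancel₀ (h1 i).ne']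

theorem p_GAP1 :
    S_GAP1 := by
  intro m K T hT hD k x y u I s₀ s₁ hx hy hu hd wx wy h1 h2 h0 hJ hI
  by_contra! hc
  obtain ⟨x1, x2, x3⟩ := GAP1x.nrm hx hu hd
  obtain ⟨y1, y2, y3⟩ := GAP1x.nrm hy hu hd
  obtain ⟨r, hr⟩ : ∃ r : ℕ → ℝ, ∀ a, r a = s₀ * T ^ (2 * a) := ⟨_, fun _ => rfl⟩
  have T0 : 0 < T := by linarith
  have r0 : ∀ a, 0 < r a := fun a => by rw [hr]; positivity
  have r1 : ∀ a, r (a + 1) = r a * T * T := fun a => by rw [hr, hr]; ring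
  have r2 : Monotone r := fun a b h => by
    rw [hr, hr]; gcongr; exact hT.le
  have bd : ∀ {D e : ℝ} {i : ℕ}, 0 < D → 2 ^ i * D ≤ e → e ≤ 2 ^ k * D → i ≤ k :=
    fun h3 h4 h5 => (pow_le_pow_iff_right₀ one_lt_two).1 (le_of_mul_le_mul_right (h4.trans h5) h3)
  have m' : ∀ a (v : V m), v ∈ K.Cb → r (a + 1) * y v ≤ 1 → r a * y v ≤ 1 := fun a v hv h =>
    (mul_le_mul_of_nonneg_right (r2 a.le_succ) (hy.nn v hv)).trans h
  refine GAP1x.comb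
    (fun a j => ∃ ξ : Fin m → V m, (∀ i, ξ i ∈ K.Cb ∧ y (ξ i) ≤ 1) ∧ (∀ i ∉ I, x (ξ i) ≤ r a) ∧
      2 ^ j * |dt (nm y u)| ≤ |dt ξ|)
    (fun a j => ∃ ζ : Fin m → V m, (∀ i, ζ i ∈ K.Cb ∧ x (ζ i) ≤ 1) ∧
      (∀ i ∈ I, r a * y (ζ i) ≤ 1) ∧ 2 ^ j * |dt (nm x u)| ≤ |dt ζ|) k
    (fun a => ⟨_, y3, fun i hi => ?_, by simp⟩) (fun a ha => ⟨_, x3, fun i hi => ?_, by simp⟩)
    (fun a j ⟨ξ, e1, e2, e3⟩ => ⟨ξ, e1, fun i hi => (e2 i hi).trans (r2 a.le_succ), e3⟩)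
    (fun a j ⟨ζ, e1, e2, e3⟩ => ⟨ζ, e1, fun i hi => m' a _ (e1 i).1 (e2 i hi), e3⟩)
    (fun a j ⟨ξ, e1, _, e3⟩ => bd y2 e3 (wy ξ e1)) (fun a j ⟨ζ, e1, _, e3⟩ => bd x2 e3 (wx ζ e1))
    fun a i j ⟨ξ, e1, e2, e3⟩ ⟨ζ, f1, f2, f3⟩ => ?_
  · rw [nm, map_smul, smul_eq_mul, inv_mul_le_iff₀ (y1 i), mul_comm]
    refine (hJ i hi).trans (mul_le_mul_of_nonneg_right ?_ (y1 i).le)
    simpa [hr 0] using r2 a.zero_le
  · rw [nm, map_smul, smul_eq_mul, mul_left_comm, inv_mul_le_iff₀ (x1 i), mul_one]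
    refine le_trans (mul_le_mul_of_nonneg_right ((r2 ha).trans ?_) (y1 i).le) (hI i hi)
    rw [hr, mul_comm, show 2 * (2 * k + 1) = 4 * k + 2 by ring]
    exact hc.le
  · refine (hD x y hx hy I h1 h2 (r a * T) (mul_pos (r0 a) T0) ξ ζ
      (abs_pos.1 (lt_of_lt_of_le (by positivity) e3))
      (abs_pos.1 (lt_of_lt_of_le (by positivity) f3))
      (fun l hl => ⟨(e1 l).1, by have := e2 l hl; nlinarith, (e1 l).2⟩)
      fun l hl => ⟨(f1 l).1, (f1 l).2, r1 a ▸ f2 l hl⟩).imp ?_ ?_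
    · rintro ⟨l, -, v, g1, g2, g3, g4⟩
      refine ⟨Function.update ξ l v, fun n => ?_, fun n hn => ?_, by rw [pow_succ]; linarith⟩ <;>
        rw [Function.update_apply] <;> split_ifs
      exacts [⟨g1, g3⟩, e1 n, r1 a ▸ g2, (e2 n hn).trans (r2 a.le_succ)]
    · rintro ⟨l, -, v, g1, g2, g3, g4⟩
      refine ⟨Function.update ζ l v, fun n => ?_, fun n hn => ?_, by rw [pow_succ]; linarith⟩ <;>
        rw [Function.update_apply] <;> split_ifs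
      exacts [⟨g1, g2⟩, f1 n, by nlinarith, m' a _ (f1 n).1 (f2 n hn)]

end Pool.Agent.P.MP_f30597_gt.CP
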