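import Pool.Agent.P.MP_f30597_gt.CP.IfaceC
import Pool.Agent.P.MP_f30597_gt.CP.IfaceG

/-! Step GEOM. -/

set_option autoImplicit false
set_option linter.unusedSectionVars false

namespace Pool.Agent.P.MP_f30597_gt.CP

open Finset Matrix MeasureTheory SI

namespace GEOMx

theorem face_eq {m : ℕ} {e : Fin m → V m} {i : Fin m} (z : Fn m) (a : ℝ)
    (h : ∀ j, j ≠ i → z (e j) = a) {x : V m} (hx : x ∈ face e i) : z x = a :=
  convexHull_min (t := {x | z x = a}) (by rintro _ ⟨j, hj, rfl⟩; exact h j hj)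
    (convex_hyperplane z.isLinear a) hx

theorem ball_sub {m : ℕ} {e : Fin m → V m} (hd : dt e ≠ 0) {o : V m} (ho : ∀ i, 0 < crd e i o)
    {ρ : ℝ} (hρ : 0 < ρ) : ∃ r, 0 < r ∧ r ≤ ρ ∧ Metric.closedBall o r ⊆ cn e := by
  have hU : IsOpen {v | ∀ i, 0 < crd e i v} := by
    rw [Set.ofPred_forall]
    exact isOpen_iInter_of_finite fun i =>
      isOpen_lt continuous_const (crd e i).continuous_of_finiteDimensional
  obtain ⟨r, hr, h⟩ := Metric.nhds_basis_closedBall.mem_iff.1 (hU.mem_nhds ho)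
  exact ⟨min r ρ, lt_min hr hρ, min_le_right _ _, fun v hv =>
    ⟨fun i => crd e i v, h (Metric.closedBall_subset_closedBall (min_le_left _ _) hv),
      (sum_crd hd v).symm⟩⟩

theorem cB_ball {m : ℕ} {e : Fin m → V m} (hd : dt e ≠ 0) {o : V m} {r : ℝ} (hr : 0 < r)
    (h : Metric.closedBall o r ⊆ cn e) : cB (Metric.closedBall o r) e ≠ 0 := by
  rw [cB, Set.inter_eq_left.2 h]
  refine mul_ne_zero ?_ (ENNReal.toReal_pos (Metric.measure_closedBall_pos _ _ hr).ne'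
    measure_closedBall_lt_top.ne).ne'
  rcases hd.lt_or_gt with h | h
  · simp [sign_neg h]
  · simp [sign_pos h]

end GEOMx

open GEOMx in
theorem p_GEOM (hPUSH : S_PUSH) (hSUB : S_SUB) (hPRISM : S_PRISM) (hCOC : S_COC) :
    S_GEOM := by
  intro n hn G _ S
  obtain ⟨e, he, hd⟩ := S.toPC.exists_basis
  have hn1 : (0 : ℝ) < n + 1 := by positivity
  obtain ⟨o, ho⟩ : ∃ o : V (n + 1), o = ((n : ℝ) + 1)⁻¹ • ∑ i, e i := ⟨_, rfl⟩
  have hoC : o ∈ S.C :=
    ho ▸ S.cone _ (PC.c_sum univ_nonempty fun i _ => (he i).1) _ (inv_pos.2 hn1)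
  have ho1 : S.eta o = 1 := by simp [ho, fun i => (he i).2, hn1.ne']
  have hoc : ∀ i, 0 < crd e i o := fun i => by simp [ho, crd_self hd, hn1]
  have hD : IsCompact (⋃ i, face e i) :=
    isCompact_iUnion fun i => (Set.toFinite _).isCompact_convexHull ℝ
  obtain ⟨ρ, hρ, E, hE⟩ := hPUSH _ G S o _ hoC ho1 hD fun x hx => by
    obtain ⟨i, hi⟩ := Set.mem_iUnion.1 hx
    refine ⟨face_eq _ _ (fun j _ => (he j).2) hi, fun h => (hoc i).ne' ?_⟩
    exact face_eq _ _ (fun j hj => by rw [crd_self hd, if_neg hj.symm]) (h ▸ hi)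
  obtain ⟨r, hr, hrρ, hU⟩ := ball_sub hd hoc hρ
  have hB := isCompact_closedBall o r
  refine ⟨o, hoC, _, hB, hU.trans (PC.cn_sub fun i => (he i).1), E, fun F => ?_⟩
  obtain ⟨δ, hδ, γ, h1, h2, h3⟩ := hE F
  obtain ⟨W, hW1, hW2, hW3⟩ := hSUB n _ hB S.eta e (fun i => (he i).2 ▸ one_pos) hd δ hδ
  obtain ⟨P, hP1, hP2⟩ := hPRISM _ _ id fun x => S.r (γ x) o
  have hhd : ∀ l : List (V (n + 1)), l.length = n → ∃ x, x ∈ l := fun l hl =>
    List.exists_mem_of_length_pos (hn.trans_eq hl.symm)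
  refine ⟨mp γ W, len_iff.2 (mp_on γ (fun l hl => (List.length_map _).trans hl.1) hW1), ?_, ?_⟩
  · have e1 : ev (S.phi (Metric.closedBall o r) o) (mp γ W) =
        ev (cL (Metric.closedBall o r)) (mp (fun x => S.r (γ x) o) W) := by
      rw [ev_mp, ev_mp]
      simp only [St.phi, List.map_map]
      rfl
    have e2 : mp id W = W := all_eq (mp id) LinearMap.id (fun l => by simp [mp_sx]) W
    have e3 : ev (cL (Metric.closedBall o r)) (bdZ (P W)) = 0 :=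
      hCOC _ _ hB S.eta _ (on_map P _ (fun l hl => on_mono (fun l' h' => ⟨by rw [h'.1, hl.1],
        fun y hy => by
          obtain ⟨x, hx, h | h⟩ := h'.2 y hy <;> rw [h]
          · exact PC.eta_Pos.c (convexHull_min (Set.range_subset_iff.2 fun i => (he i).1) S.cv
              (hl.2 x hx))
          · exact PC.eta_Pos.c (S.inv _ _ hoC)⟩) (hP2 l)) hW1)
    have e4 : ev (cL (Metric.closedBall o r)) (P (bdZ W)) = 0 := by
      refine on_eq (ev _ ∘ₗ P) 0 (fun l ⟨hl, ⟨i, hi⟩, hδ'⟩ => ?_) hW2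
      obtain ⟨x, hx⟩ := hhd l hl
      obtain ⟨z, hz, hz'⟩ := h3 x (Set.mem_iUnion.2 ⟨i, hi x hx⟩)
      refine ev_zero (fun l' h' => cL_zero z
        (fun p hp => hz p (Metric.closedBall_subset_closedBall hrρ hp)) fun y hy => ?_) (hP2 l)
      obtain ⟨x', hx', h | h⟩ := h'.2 y hy <;> rw [h]
      · exact (hz' x' (Set.mem_iUnion.2 ⟨i, hi x' hx'⟩) (hδ' x hx x' hx')).1
      · exact (hz' x' (Set.mem_iUnion.2 ⟨i, hi x' hx'⟩) (hδ' x hx x' hx')).2
    have e5 := congrArg (ev (cL (Metric.closedBall o r))) (hP1 W)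
    rw [map_add, map_sub, e2, e3, e4, hW3, add_zero, eq_comm, sub_eq_zero] at e5
    rw [e1, e5]
    exact cB_ball hd hr hU
  · rw [bd_mp]
    refine mp_on γ (fun l ⟨hl, ⟨i, hi⟩, hδ'⟩ => ?_) hW2
    obtain ⟨x, hx⟩ := hhd l hl
    refine ⟨γ x, h1 x (Set.mem_iUnion.2 ⟨i, hi x hx⟩), fun g hg => ?_⟩
    obtain ⟨y, hy, rfl⟩ := List.mem_map.1 hg
    exact h2 x (Set.mem_iUnion.2 ⟨i, hi x hx⟩) y (Set.mem_iUnion.2 ⟨i, hi y hy⟩) (hδ' x hx y hy)

end Pool.Agent.P.MP_f30597_gt.CP
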