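import Pool.Agent.P.MP_f30597_gt.CP.IfaceC

/-! Step HTPY. -/

set_option autoImplicit false
set_option linter.unusedSectionVars false

namespace Pool.Agent.P.MP_f30597_gt.CP

open Finset Matrix MeasureTheory SI

theorem p_HTPY :
    S_HTPY := by
  intro G _ f h1 h2 h3
  obtain ⟨H, t1, t2, t3⟩ := exists_cone (LinearMap.id - f.restrictScalars ℤ)
    (fun u => by simp [h1]) (by simp [h2]) fun l h => l.head h
  refine ⟨H, t1, len_ind (t2 ▸ zero_mem _) fun l h ih => ?_,
    fun g => len_ind (by simp [tr, t2]) fun l h ih => ?_⟩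
  · rw [t3 l h]
    refine cons_on (p := fun l' => l'.length = l.length) _ (fun l' hl => by simp [hl])
      (sub_mem (sub_mem (sx_on rfl) (h3 l)) (bd_sx_map H _ fun i hi => on_mono (fun l' hl => ?_)
        (len_iff.1 (ih i hi))))
    rw [hl, List.length_eraseIdx_of_lt hi]; omega
  · let A := DistribSMul.toLinearMap ℤ (Bar G) (el g)
    have e1 : ∀ x (u : Bar G), SI.cons (g * x) (el g • u) = el g • SI.cons x u := fun x =>
      all_eq (cons (g * x) ∘ₗ A) (A ∘ₗ cons x) fun l => by
        change SI.cons _ (el g • sx l) = el g • SI.cons x (sx l)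
        rw [el_smul, cons_sx', cons_sx', el_smul]; rfl
    have e2 : H (el g • bdZ (sx l)) = el g • H (bdZ (sx l)) :=
      sub_eq_zero.1 (bd_sx_map (H ∘ₗ A - A ∘ₗ H) ⊥ fun i hi => sub_eq_zero.2
        ((congrArg H (el_smul g _)).trans (ih i hi)))
    rw [t3 l h, t3 (tr g l) (by simpa [tr] using h), ← e1, ← el_smul, bdZ_smul, e2]
    simp [tr, smul_sub]

end Pool.Agent.P.MP_f30597_gt.CP
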