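import Pool.Agent.P.MP_f30597_gt.CP.IfaceG

/-! Step IDEM. -/

set_option autoImplicit false
set_option linter.unusedSectionVars false

namespace Pool.Agent.P.MP_f30597_gt.CP

open Finset MeasureTheory

namespace IDEMx

theorem fin_comm (A : Type) [CommRing A] [IsArtinianRing A] :
    Finite {e : A // IsIdempotentElem e} := by
  have : Finite (TopologicalSpace.Clopens (PrimeSpectrum A)) :=
    Finite.of_injective _ SetLike.coe_injective
  exact Finite.of_equiv _ PrimeSpectrum.isIdempotentElemEquivClopens.toEquiv.symm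

open scoped IsMulCommutative in
theorem fin_of_comm {A : Type} [Ring A] [Algebra ℝ A] [Module.Finite ℝ A] {S : Set A}
    (h1 : ∀ e ∈ S, e * e = e) (h2 : ∀ e ∈ S, ∀ f ∈ S, e * f = f * e) : S.Finite := by
  have := Algebra.isMulCommutative_adjoin ℝ h2
  have : Module.Finite ℝ (Algebra.adjoin ℝ S) :=
    Module.Finite.of_injective (Algebra.adjoin ℝ S).val.toLinearMap Subtype.val_injective
  have : IsArtinianRing (Algebra.adjoin ℝ S) := IsArtinianRing.of_finite ℝ _
  have := fin_comm (Algebra.adjoin ℝ S)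
  exact Finite.of_injective (β := {e : Algebra.adjoin ℝ S // IsIdempotentElem e})
    (fun e => ⟨⟨e.1, Algebra.subset_adjoin e.2⟩, Subtype.ext (h1 e.1 e.2)⟩)
    fun e f h => Subtype.ext (congrArg (fun x => x.1.1) h)

variable {m : ℕ} {K : PC m} {e f : En m}

theorem compl (h : K.Idem e) : K.Idem (1 - e) :=
  ⟨(IsIdempotentElem.one_sub h.1 :), fun x hx =>
    ⟨(h.2 x hx).2, by simpa using (h.2 x hx).1⟩⟩

theorem half (he : K.Idem e) (hf : K.Idem f) : f * e = e * (f * e) := by
  refine PC.ext_cb (K := K) fun x hx => ?_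
  have h0 : e (e x) = e x := LinearMap.congr_fun he.1 x
  have h1 := hf.2 _ (he.2 x hx).1
  have h2 := (he.2 _ h1.2).2
  refine sub_eq_zero.1 (PC.pointed (he.2 _ h1.1).2 ?_)
  rwa [map_sub, h0, sub_sub_sub_cancel_left, ← neg_sub] at h2

theorem comm (he : K.Idem e) (hf : K.Idem f) : e * f = f * e := by
  have h1 := half he hf
  have h2 := half (compl he) hf
  rw [sub_mul, one_mul, eq_comm, sub_eq_self, mul_sub, mul_one, mul_sub, sub_eq_zero] at h2
  exact h2.trans h1.symm

end IDEMx

theorem p_IDEM :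
    S_IDEM := fun _ _ => IDEMx.fin_of_comm (fun _ h => h.1) fun _ he _ hf => IDEMx.comm he hf

end Pool.Agent.P.MP_f30597_gt.CP
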