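import Pool.Agent.P.MP_f30597_gt.CP.IfaceC

/-! Step KAP. -/

set_option autoImplicit false
set_option linter.unusedSectionVars false

namespace Pool.Agent.P.MP_f30597_gt.CP

open Finset Matrix MeasureTheory SI

namespace KAPx

variable {G : Type} [Group G] {φ : List G → ℝ} {Θ : Finset G}

/-- the action of a ring element as an additive map -/
noncomputable def act (r : ZG G) : Bar G →ₗ[ℤ] Bar G :=
  (DistribSMul.toAddMonoidHom _ r).toIntLinearMap

theorem list (r : ZG G) (l : List G) (h : ∀ g, φ (tr g l) ≠ 0 → g ∈ Θ) :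
    ev φ (r • sx l) = ∑ g ∈ Θ, (r.coeff g : ℝ) * φ (tr g l) := by
  classical
  refine zg_ind (P := fun r => ev φ (r • sx l) = ∑ g ∈ Θ, (r.coeff g : ℝ) * φ (tr g l))
    (by simp) (fun x y hx hy => ?_) (fun m g => ?_) r
  · simp [add_smul, hx, hy, add_mul, sum_add_distrib]
  · rw [smul_assoc, map_zsmul, el_smul, ev_sx, sum_eq_single g]
    · simp
    · intro b _ hb
      simp [hb.symm]
    · intro hg
      rw [not_not.1 (mt (h g) hg), mul_zero]

theorem chain (r : ZG G) (c : ℤ) (hr : ∀ g ∈ Θ, r.coeff g = c) {v : Bar G}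
    (hv : v ∈ On fun l => ∀ g, φ (tr g l) ≠ 0 → g ∈ Θ) : ev φ (r • v) = c * ev (om φ) v := by
  refine (on_eq (ev φ ∘ₗ act r) (c • ev (om φ)) (fun l hl => ?_) hv).trans (by simp)
  change ev φ (r • sx l) = c • ev (om φ) (sx l)
  rw [list r l hl, ev_sx, om, finsum_eq_sum_of_support_subset _ (s := Θ) fun g hg => hl g hg,
    zsmul_eq_mul, mul_sum]
  exact sum_congr rfl fun g hg => by rw [hr g hg]

end KAPx

theorem p_KAP :
    S_KAP := by
  intro G ι _ _ n φ hφ β w' hβ
  classical
  have hf : {g | ∃ a, ∃ l ∈ (β a).support, φ (tr g l) ≠ 0}.Finite := by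
    simp only [Set.ofPred_exists]
    exact Set.finite_iUnion fun a => ((β a).support.finite_toSet.biUnion
      fun l hl => hφ l (len_iff.1 (hβ a) hl)).subset fun g hg => by simpa using hg
  refine ⟨hf.toFinset, fun x κ hx => ?_⟩
  rw [map_sum, map_sum, mul_sum]
  refine sum_congr rfl fun a _ => ?_
  rw [KAPx.chain (x a) _ (hx a) fun l hl g hg => hf.mem_toFinset.2 ⟨a, l, hl, hg⟩, map_zsmul,
    zsmul_eq_mul, Int.cast_mul, mul_assoc]

end Pool.Agent.P.MP_f30597_gt.CP
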