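import Pool.Agent.P.MP_f30597_gt.CP.IfaceC

/-! Step LOC. -/

set_option autoImplicit false
set_option linter.unusedSectionVars false

namespace Pool.Agent.P.MP_f30597_gt.CP

open Finset Matrix MeasureTheory SI

namespace LOCx

variable {G ι : Type} [Group G] [Fintype ι] [DecidableEq ι]

/-- the pairing with values in the group ring -/
noncomputable def pg (x y : ι → ZG G) : ZG G := ∑ a, x a * rinvL (y a)

theorem rr (p : ZG G) : rinvL (rinv p) = p := by
  ext g
  change (rinv (rinv p)).coeff g = _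
  rw [rinv_coeff, rinv_coeff, inv_inv]

theorem pg_adj (c : Matrix ι ι (ZG G)) (x y : ι → ZG G) :
    pg x (y ᵥ* cst c) = pg (x ᵥ* c) y := by
  simp only [pg, vecMul, dotProduct, map_sum, rinv_mul, cst, Matrix.of_apply, rr, mul_sum,
    sum_mul, mul_assoc]
  exact sum_comm

theorem pg_zero (x y : ι → ZG G) (h : ∀ b, ∀ g ∈ (y b).coeff.support, (x b).coeff g = 0) :
    (pg x y).coeff 1 = 0 := by
  rw [pg, MonoidAlgebra.coeff_sum, Finsupp.finsetSum_apply]
  refine sum_eq_zero fun b _ => ?_
  rw [MonoidAlgebra.coeff_mul_apply_left]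
  refine sum_eq_zero fun g _ => ?_
  change _ * (rinv (y b)).coeff _ = 0
  rw [rinv_coeff, mul_one, inv_inv]
  by_cases e : g ∈ (y b).coeff.support
  · rw [h b g e, zero_mul]
  · rw [Finsupp.notMem_support_iff.1 e, mul_zero]

theorem pg_v (x x0 : ι → ZG G) (a : ι) (g : G) (k : ℤ) :
    (pg x (Pi.single a (el g) - k • x0)).coeff 1 = (x a).coeff g - (pg x x0).coeff 1 * k := by
  have : pg x (Pi.single a (el g) - k • x0) = x a * el g⁻¹ - k • pg x x0 := by
    simp only [pg, Pi.sub_apply, Pi.smul_apply, map_sub, map_zsmul, mul_sub, sum_sub_distrib,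
      mul_smul_comm, smul_sum]
    rw [sum_eq_single a (fun b _ e => by simp [e]) (by simp), Pi.single_eq_same, rinv_el]
  rw [this, MonoidAlgebra.coeff_sub, Finsupp.sub_apply, MonoidAlgebra.coeff_smul_apply,
    MonoidAlgebra.coeff_mul_single_apply, smul_eq_mul, mul_comm k]
  simp

end LOCx

open LOCx in
theorem p_LOC :
    S_LOC := by
  classical
  intro G ι _ _ _ n deg c w' hn R' Θ
  obtain ⟨x0, h0, h1⟩ := exists_base R'
  have H : ∀ a g, ∃ y : ι → ZG G, deg a = n →
      y ᵥ* cst c = Pi.single a (el g) - w' a • x0 := fun a g => by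
    by_cases e : deg a = n
    · refine ((R'.exact _).1 ⟨hm_zero R' (sub_mem (fun b hb => ?_) (zsmul_mem h0 _)), ?_⟩).imp
        fun y hy _ => hy
      · obtain rfl : b = a := by_contra fun e' => hb (Pi.single_eq_of_ne e' _)
        exact e ▸ Nat.sub_self _
      · change augH w' _ = 0
        rw [map_sub, map_zsmul]
        change aug w' _ - w' a • aug w' x0 = 0
        rw [h1, aug_eq, sum_eq_single a (fun b _ e => by simp [e]) (by simp), Pi.single_eq_same,
          eps_el]
        simp
    · exact ⟨0, fun e' => absurd e' e⟩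
  choose y hy using H
  refine ⟨univ.biUnion fun a => Θ.biUnion fun g => univ.biUnion fun b => (y a g b).coeff.support,
    fun x hx h => ⟨(pg x x0).coeff 1, fun a g hg => ?_⟩⟩
  by_cases e : deg a = n
  · rw [← sub_eq_zero, ← pg_v, ← hy a g e, pg_adj]
    exact pg_zero _ _ fun b t ht => h b t (mem_biUnion.2 ⟨a, mem_univ _,
      mem_biUnion.2 ⟨g, hg, mem_biUnion.2 ⟨b, mem_univ _, ht⟩⟩⟩)
  · have e1 : x a = 0 := by_contra fun e' => e (hx a e')
    have e2 : w' a = 0 := by_contra fun e' => e (dual_deg hn R' a e')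
    simp [e1, e2]

end Pool.Agent.P.MP_f30597_gt.CP
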