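import Pool.Agent.P.MP_f30597_gt.CP.IfaceC

/-! Step MESH. -/

set_option autoImplicit false
set_option linter.unusedSectionVars false

namespace Pool.Agent.P.MP_f30597_gt.CP

open Finset Matrix MeasureTheory SI

namespace MESHx

variable {m : ℕ}

lemma nrm {y : V m} {δ : ℝ} (l : List (V m)) (h : ∀ x ∈ l, dist x y ≤ δ) :
    ‖l.sum - (l.length : ℝ) • y‖ ≤ l.length * δ := by
  induction l with
  | nil => simp
  | cons a l ih =>
    have h1 := h a (by simp)
    have h2 := ih fun x hx => h x (by simp [hx])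
    rw [dist_eq_norm] at h1
    have : (a :: l).sum - ((a :: l).length : ℝ) • y = (a - y) + (l.sum - (l.length : ℝ) • y) := by
      simp only [List.sum_cons, List.length_cons, Nat.cast_succ, add_smul, one_smul]
      abel
    rw [this, List.length_cons, Nat.cast_succ]
    linarith [norm_add_le (a - y) (l.sum - (l.length : ℝ) • y)]

lemma bary_mem {l : List (V m)} (hl : l ≠ []) : bary l ∈ hull l := by
  have h0 : (l.length : ℝ) ≠ 0 := Nat.cast_ne_zero.2 (mt List.length_eq_zero_iff.1 hl)
  rw [bary, ← Fin.sum_univ_getElem, smul_sum]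
  exact (convex_convexHull ℝ _).sum_mem (fun _ _ => by positivity) (by simp [h0])
    fun i _ => subset_convexHull ℝ _ (List.getElem_mem _)

lemma near {l : List (V m)} {k : ℕ} {δ : ℝ} (hk : l.length ≤ k + 1)
    (h : ∀ x ∈ l, ∀ y ∈ l, dist x y ≤ δ) {y : V m} (hy : y ∈ hull l) :
    dist y (bary l) ≤ k / (k + 1) * δ := by
  refine convexHull_min (t := Metric.closedBall (bary l) _) (fun y hy => ?_)
    (convex_closedBall _ _) hy
  have hδ : 0 ≤ δ := dist_nonneg.trans (h y hy y hy)
  obtain ⟨s, t, rfl⟩ := List.append_of_mem hy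
  have h1 := nrm s fun x hx => h x (by simp [hx]) y hy
  have h2 := nrm t fun x hx => h x (by simp [hx]) y hy
  have hn : ((s ++ y :: t).length : ℝ) = s.length + t.length + 1 := by simp [add_assoc]
  have hk' : (s.length + t.length + 1 : ℝ) ≤ k + 1 := by rw [← hn]; exact_mod_cast hk
  have hp : (0 : ℝ) < s.length + t.length + 1 := by positivity
  have e : bary (s ++ y :: t) - y = (s.length + t.length + 1 : ℝ)⁻¹ •
      ((s.sum - (s.length : ℝ) • y) + (t.sum - (t.length : ℝ) • y)) := by
    rw [bary, hn, eq_inv_smul_iff₀ hp.ne', smul_sub, smul_inv_smul₀ hp.ne']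
    simp only [List.sum_append, List.sum_cons, add_smul, one_smul]
    abel
  rw [Metric.mem_closedBall, dist_comm, dist_eq_norm, e, norm_smul, norm_inv,
    Real.norm_of_nonneg hp.le]
  refine (mul_le_mul_of_nonneg_left ((norm_add_le _ _).trans (add_le_add h1 h2))
    (by positivity)).trans ?_
  rw [← add_mul, ← mul_assoc]
  refine mul_le_mul_of_nonneg_right ?_ hδ
  rw [inv_mul_eq_div, div_le_div_iff₀ hp (by positivity)]
  nlinarith

end MESHx

theorem p_MESH :
    S_MESH := by
  intro m sd h0 h1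
  refine len_ind ?_ fun l hl ih => ?_
  · rw [h0]
    exact sx_on ⟨rfl, by simp, by simp⟩
  · rw [h1 l hl]
    refine cons_on (p := fun l' => l'.length + 1 = l.length ∧ (∀ x ∈ l', x ∈ hull l) ∧
      ∀ (k : ℕ) (δ : ℝ), l.length ≤ k + 1 → (∀ x ∈ l, ∀ y ∈ l, dist x y ≤ δ) →
        ∀ x ∈ l', ∀ y ∈ l', dist x y ≤ k / (k + 1) * δ) _ (fun l' h => ⟨h.1, ?_, ?_⟩)
      (bd_sx_map sd _ fun i hi => on_mono (fun l' h => ⟨?_, fun x hx => ?_, ?_⟩) (ih i hi))
    · exact List.forall_mem_cons.2 ⟨MESHx.bary_mem hl, h.2.1⟩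
    · intro k δ hk hd x hx y hy
      rcases List.mem_cons.1 hx with rfl | hx
      · rw [dist_comm]
        exact MESHx.near hk hd (List.forall_mem_cons.2 ⟨MESHx.bary_mem hl, h.2.1⟩ y hy)
      · rcases List.mem_cons.1 hy with rfl | hy
        · exact MESHx.near hk hd (h.2.1 x hx)
        · exact h.2.2 k δ hk hd x hx y hy
    · rw [h.1, List.length_eraseIdx_of_lt hi]
      omega
    · exact convexHull_mono (fun z hz => List.mem_of_mem_eraseIdx hz) (h.2.1 x hx)
    · intro k δ hk hd
      exact h.2.2 k δ ((List.length_eraseIdx_le l i).trans hk) fun x hx y hy =>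
        hd x (List.mem_of_mem_eraseIdx hx) y (List.mem_of_mem_eraseIdx hy)

end Pool.Agent.P.MP_f30597_gt.CP
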