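import Pool.Agent.P.MP_f30597_gt.CP.IfaceG

/-! Step ML. -/

set_option autoImplicit false
set_option linter.unusedSectionVars false

namespace Pool.Agent.P.MP_f30597_gt.CP

open Finset MeasureTheory

namespace MLx

open Filter Topology

variable {m : ℕ}

theorem nrm {K : PC m} (hN : K.Nrm) : ∃ R : ℝ, 0 < R ∧ ∀ T x y I b l, K.Data T x y I b l →
    ∃ x y b l, K.Data T x y I b l ∧
      ∀ v ∈ K.Cb, ‖v‖ ≤ R * (x v + y v) ∧ x v + y v ≤ R * ‖v‖ := by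
  obtain ⟨R, hR, h⟩ := hN
  refine ⟨R, hR, fun T x y I b l D => ?_⟩
  obtain ⟨e, h1, h2, h3⟩ := h (x + y) fun v hv h0 => add_pos (D.hx v hv h0) (D.hy v hv h0)
  refine ⟨x ∘ₗ (e : V m →ₗ[ℝ] V m), y ∘ₗ (e : V m →ₗ[ℝ] V m), fun i => e.symm (b i),
    fun i => l i ∘ₗ (e : V m →ₗ[ℝ] V m),
    ⟨fun v hv h0 => D.hx _ (h1 v hv) (by simpa using h0),
      fun v hv h0 => D.hy _ (h1 v hv) (by simpa using h0), D.ne, D.ne', fun i => h2 _ (D.bin i),
      fun i hi => by simpa using D.bI i hi, fun i hi => by simpa using D.bJ i hi,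
      fun i hi v hv => D.lI i hi _ (h1 v hv), fun i hi v hv => D.lJ i hi _ (h1 v hv),
      fun i k hik => by simpa using D.dual i k hik⟩, h3⟩

theorem scl {K : PC m} {x y l : Fn m} {T τ : ℝ}
    (h : ∀ v ∈ K.Cb, x v ≤ 1 → y v ≤ T → |l v| ≤ 2) {v : V m} (hv : v ∈ K.Cb) (hτ : 0 < τ)
    (h1 : x v ≤ τ) (h2 : y v ≤ T * τ) : |l v| ≤ 2 * τ := by
  have := h (τ⁻¹ • v) (PC.cb_smul hv (by positivity))
    (by rw [map_smul, smul_eq_mul, inv_mul_le_iff₀ hτ]; linarith)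
    (by rw [map_smul, smul_eq_mul, inv_mul_le_iff₀ hτ]; linarith)
  rw [map_smul, smul_eq_mul, abs_mul, abs_of_pos (inv_pos.2 hτ), inv_mul_le_iff₀ hτ] at this
  linarith

theorem limV (U : Ultrafilter ℕ) (a : ℕ → V m) (M : ℝ) (h : ∀ j, ‖a j‖ ≤ M) :
    ∃ a₀, Tendsto a U (𝓝 a₀) := by
  obtain ⟨a₀, -, h1⟩ := (isCompact_closedBall (0 : V m) M).ultrafilter_le_nhds (U.map a)
    (le_principal_iff.2 (Filter.mem_map.2 (univ_mem' fun j => by simpa using h j)))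
  exact ⟨a₀, h1⟩

theorem limF (U : Ultrafilter ℕ) (z : ℕ → Fn m) (M : ℝ) (hM : 0 ≤ M)
    (h : ∀ j v, ‖z j v‖ ≤ M * ‖v‖) : ∃ z₀ : Fn m, ∀ (v : ℕ → V m) (v₀ : V m),
      Tendsto v U (𝓝 v₀) → Tendsto (fun j => z j (v j)) U (𝓝 (z₀ v₀)) := by
  obtain ⟨a, ha⟩ := limV U (fun j i => z j (Pi.single i 1)) M fun j =>
    (pi_norm_le_iff_of_nonneg hM).2 fun i => by simpa [Pi.norm_single] using h j (Pi.single i 1)
  refine ⟨∑ i, a i • LinearMap.proj i, fun v v₀ hv => ?_⟩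
  have e : ∀ j, z j (v j) = ∑ i, z j (Pi.single i 1) * v j i := fun j => by
    conv_lhs => rw [pi_eq_sum_univ' (v j), map_sum]
    exact sum_congr rfl fun i _ => by rw [map_smul, smul_eq_mul, mul_comm]
  simp only [e, LinearMap.coe_sum, Finset.sum_apply, LinearMap.smul_apply, LinearMap.proj_apply,
    smul_eq_mul]
  exact tendsto_finsetSum _ fun i _ => (tendsto_pi_nhds.1 ha i).mul (tendsto_pi_nhds.1 hv i)

theorem big {U : Ultrafilter ℕ} (hU : (U : Filter ℕ) ≤ atTop) (M : ℝ) :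
    ∀ᶠ j : ℕ in U, M ≤ (j : ℝ) + 2 :=
  hU ((tendsto_natCast_atTop_atTop.eventually_ge_atTop M).mono fun j h => by linarith)

theorem limB {U : Ultrafilter ℕ} (hU : (U : Filter ℕ) ≤ atTop) {f g p : ℕ → ℝ} {a q M : ℝ}
    (hf : Tendsto f U (𝓝 a)) (hp : Tendsto p U (𝓝 q)) (hg : ∀ j, g j ≤ M) (ha : 0 ≤ a)
    (h : ∀ᶠ j : ℕ in U, ∀ τ : ℝ, 0 < τ → f j ≤ τ → g j ≤ (j + 2) * τ → |p j| ≤ 2 * τ) :
    |q| ≤ 2 * a := by
  refine le_of_forall_gt_imp_ge_of_dense fun c hc => le_of_tendsto hp.abs ?_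
  have h0 : 0 < c / 2 := by linarith
  filter_upwards [h, big hU (M / (c / 2)), hf.eventually (ge_mem_nhds (show a < c / 2 by linarith))]
    with j h1 h2 h3
  have := h1 _ h0 h3 ((hg j).trans ((div_le_iff₀ h0).1 h2))
  linarith

theorem limA {U : Ultrafilter ℕ} (hU : (U : Filter ℕ) ≤ atTop) {f : ℕ → ℝ} {a : ℝ}
    (hf : Tendsto f U (𝓝 a)) (ha : 0 ≤ a) (h : ∀ᶠ j : ℕ in U, (j + 2) * f j ≤ 1) : a = 0 := by
  refine le_antisymm (le_of_forall_gt_imp_ge_of_dense fun c hc => le_of_tendsto hf ?_) ha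
  filter_upwards [h, big hU (1 / c)] with j h1 h2
  rw [div_le_iff₀ hc] at h2
  exact le_of_mul_le_mul_left (h1.trans h2) (by positivity)

end MLx

open MLx Filter Topology in
theorem p_ML (hSTAR : S_STAR) :
    S_ML := by
  intro m K hN hS
  by_contra hc
  obtain ⟨R, hR, hn⟩ := nrm hN
  have hd : ∀ j : ℕ, ∃ I x y b l, K.Data (j + 2) x y I b l ∧
      ∀ v ∈ K.Cb, ‖v‖ ≤ R * (x v + y v) ∧ x v + y v ≤ R * ‖v‖ := fun j => by
    by_contra h
    exact hc ⟨j + 2, by linarith [(Nat.cast_nonneg j : (0 : ℝ) ≤ j)], fun x y I b l D =>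
      h ⟨I, hn _ x y I b l D⟩⟩
  choose I x y b l D hb using hd
  obtain ⟨c, hc0, hc⟩ := K.bdd_cb
  have hT : ∀ j : ℕ, (1 : ℝ) ≤ j + 2 := fun j => by linarith [(Nat.cast_nonneg j : (0 : ℝ) ≤ j)]
  have x0 : ∀ j, ∀ v ∈ K.Cb, 0 ≤ x j v := fun j => (D j).hx.nn
  have y0 : ∀ j, ∀ v ∈ K.Cb, 0 ≤ y j v := fun j => (D j).hy.nn
  have x1 : ∀ j, ∀ v ∈ K.Cb, x j v ≤ R * ‖v‖ := fun j v hv => by
    linarith [(hb j v hv).2, y0 j v hv]
  have y1 : ∀ j, ∀ v ∈ K.Cb, y j v ≤ R * ‖v‖ := fun j v hv => by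
    linarith [(hb j v hv).2, x0 j v hv]
  have sI : ∀ j, ∀ i ∈ I j, ∀ v ∈ K.Cb, ∀ τ : ℝ, 0 < τ → x j v ≤ τ → y j v ≤ (j + 2) * τ →
      |l j i v| ≤ 2 * τ := fun j i hi v hv τ => scl ((D j).lI i hi) hv
  have sJ : ∀ j, ∀ i ∉ I j, ∀ v ∈ K.Cb, ∀ τ : ℝ, 0 < τ → y j v ≤ τ → x j v ≤ (j + 2) * τ →
      |l j i v| ≤ 2 * τ := fun j i hi v hv τ =>
    scl (fun w hw h1 h2 => (D j).lJ i hi w hw h2 h1) hv
  have l1 : ∀ j i, ∀ v ∈ K.Cb, ‖l j i v‖ ≤ 2 * R * ‖v‖ := fun j i v hv => by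
    by_cases e : v = 0
    · simp [e]
    have h0 : 0 < R * ‖v‖ := mul_pos hR (norm_pos_iff.2 e)
    rw [mul_assoc]
    by_cases hi : i ∈ I j
    · exact sI j i hi v hv _ h0 (x1 j v hv) ((y1 j v hv).trans (le_mul_of_one_le_left h0.le (hT j)))
    · exact sJ j i hi v hv _ h0 (y1 j v hv) ((x1 j v hv).trans (le_mul_of_one_le_left h0.le (hT j)))
  have b1 : ∀ i j, ‖b j i‖ ≤ R * 2 := fun i j => by
    refine (hb j _ ((D j).bin i)).1.trans (mul_le_mul_of_nonneg_left ?_ hR.le)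
    by_cases hi : i ∈ I j
    · linarith [((D j).bI i hi).1, ((D j).bI i hi).2,
        le_mul_of_one_le_left (y0 j _ ((D j).bin i)) (hT j)]
    · linarith [((D j).bJ i hi).1, ((D j).bJ i hi).2,
        le_mul_of_one_le_left (x0 j _ ((D j).bin i)) (hT j)]
  let U := hyperfilter ℕ
  have hU : (U : Filter ℕ) ≤ atTop := Nat.hyperfilter_le_atTop
  obtain ⟨I₀, hI⟩ := (U.map I).eq_pure_of_finite
  have hI : ∀ᶠ j in U, I j = I₀ := by
    have : {I₀} ∈ U.map I := by rw [hI]; exact Ultrafilter.mem_pure.2 rfl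
    exact this
  obtain ⟨X, hX⟩ := limF U x (c * R) (by positivity) fun j => hc ℝ _ _ fun v hv => by
    rw [Real.norm_of_nonneg (x0 j v hv)]; exact x1 j v hv
  obtain ⟨Y, hY⟩ := limF U y (c * R) (by positivity) fun j => hc ℝ _ _ fun v hv => by
    rw [Real.norm_of_nonneg (y0 j v hv)]; exact y1 j v hv
  choose L hL using fun i => limF U (fun j => l j i) (c * (2 * R)) (by positivity)
    fun j => hc ℝ _ _ (l1 j i)
  choose B hB using fun i => limV U (fun j => b j i) _ (b1 i)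
  have hX0 : K.Nn X := fun v hv => ge_of_tendsto' (hX _ v tendsto_const_nhds) fun j => x0 j v hv
  have hY0 : K.Nn Y := fun v hv => ge_of_tendsto' (hY _ v tendsto_const_nhds) fun j => y0 j v hv
  have hBin : ∀ i, B i ∈ K.Cb := fun i =>
    PC.cb_closed.mem_of_tendsto (hB i) (Eventually.of_forall fun j => (D j).bin i)
  have bI : ∀ i ∈ I₀, Y (B i) = 0 := fun i hi => limA hU (hY _ _ (hB i)) (hY0 _ (hBin i))
    (hI.mono fun j e => ((D j).bI i (e ▸ hi)).2)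
  have bJ : ∀ i ∉ I₀, X (B i) = 0 := fun i hi => limA hU (hX _ _ (hB i)) (hX0 _ (hBin i))
    (hI.mono fun j e => ((D j).bJ i (e ▸ hi)).1)
  have lI : ∀ i ∈ I₀, ∀ v ∈ K.Cb, |L i v| ≤ 2 * X v := fun i hi v hv =>
    limB hU (hX _ v tendsto_const_nhds) (hL i _ v tendsto_const_nhds) (fun j => y1 j v hv)
      (hX0 v hv) (hI.mono fun j e => sI j i (e ▸ hi) v hv)
  have lJ : ∀ i ∉ I₀, ∀ v ∈ K.Cb, |L i v| ≤ 2 * Y v := fun i hi v hv =>
    limB hU (hY _ v tendsto_const_nhds) (hL i _ v tendsto_const_nhds) (fun j => x1 j v hv)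
      (hY0 v hv) (hI.mono fun j e => sJ j i (e ▸ hi) v hv)
  obtain ⟨j₀, hj⟩ := hI.exists
  refine hS (hSTAR m K hN X Y I₀ B L ⟨hX0, hY0, fun v hv e => ?_, hj ▸ (D j₀).ne,
    hj ▸ (D j₀).ne', hBin, bI, bJ, lI, lJ, fun i k => ?_⟩)
  · have := ge_of_tendsto' (((hX _ v tendsto_const_nhds).add
      (hY _ v tendsto_const_nhds)).const_mul R) fun j => (hb j v hv).1
    exact (mul_pos_iff_of_pos_left hR).1 ((norm_pos_iff.2 e).trans_le this)
  · by_cases hik : i ∈ I₀ ↔ k ∈ I₀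
    · exact tendsto_nhds_unique (hL i _ _ (hB k)) (tendsto_const_nhds.congr'
        (hI.mono fun j e => ((D j).dual i k (e ▸ hik)).symm))
    · rw [if_neg fun e => hik (by rw [e]), ← abs_nonpos_iff]
      by_cases hi : i ∈ I₀
      · simpa [bJ k fun hk => hik (iff_of_true hi hk)] using lI i hi _ (hBin k)
      · have hk : k ∈ I₀ := by_contra fun hk => hik (iff_of_false hi hk)
        simpa [bI k hk] using lJ i hi _ (hBin k)

end Pool.Agent.P.MP_f30597_gt.CP
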