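import Pool.Agent.P.MP_f30597_gt.CP.IfaceG

/-! Step NEAR. -/

set_option autoImplicit false
set_option linter.unusedSectionVars false

namespace Pool.Agent.P.MP_f30597_gt.CP

open Finset MeasureTheory

namespace NEARx

theorem mem_kup {m : ℕ} {G : Type} [Group G] (S : St m G) {B : Set (V m)} {c : ℝ}
    (hc : ∀ b ∈ B, S.eta b ≤ c) {u : Fin m → V m} {g : G} {a : Fin m → ℝ} (hu : ∀ i, u i ∈ S.C)
    (hB : (B ∩ cn fun i => S.r g (u i)).Nonempty) (ha : ∀ i, 0 < a i)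
    (h : ∀ i, S.xg g (u i) ≤ 2 * a i ∧ a i ≤ 2 * S.xg g (u i)) :
    S.r g (∑ i, (a i)⁻¹ • u i) ∈ S.Kup B (2 * c) (2 * m) := by
  obtain ⟨b, hb, s, hs, e⟩ := hB
  have hcb : ∀ i, S.r g (u i) ∈ S.Cb := fun i => S.r_cb g (PC.sub_cb (hu i))
  have hp : ∀ i, 0 < S.xg g (u i) := fun i => (S.xg_Pos g).c (hu i)
  have e1 : S.r g (∑ i, (a i)⁻¹ • u i) = ∑ i, (a i)⁻¹ • S.r g (u i) := by
    simp only [map_sum, map_smul]
  have e2 : S.eta b = ∑ i, s i * S.xg g (u i) := by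
    rw [e, map_sum]
    exact sum_congr rfl fun i _ => map_smul _ _ _
  rw [e1]
  refine ⟨PC.cb_sum _ fun i _ => PC.cb_smul (hcb i) (inv_pos.2 (ha i)).le, ?_, b, hb, ?_⟩
  · rw [map_sum]
    have : ∑ i, S.eta ((a i)⁻¹ • S.r g (u i)) ≤ ∑ _i : Fin m, (2 : ℝ) := by
      refine sum_le_sum fun i _ => ?_
      rw [map_smul, smul_eq_mul, inv_mul_le_iff₀ (ha i), mul_comm]
      exact (h i).1
    simpa [mul_comm] using this
  · rw [e, smul_sum, ← sum_sub_distrib]
    refine PC.cb_sum _ fun i _ => ?_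
    rw [smul_smul, ← sub_smul]
    refine PC.cb_smul (hcb i) (sub_nonneg.2 ?_)
    rw [← div_eq_mul_inv, le_div_iff₀ (ha i)]
    have h1 : s i * S.xg g (u i) ≤ S.eta b := by
      rw [e2]
      exact single_le_sum (f := fun i => s i * S.xg g (u i))
        (fun j _ => (mul_pos (hs j) (hp j)).le) (mem_univ i)
    have h2 := mul_le_mul_of_nonneg_left (h i).2 (hs i).le
    have h3 := hc b hb
    linarith

end NEARx

open NEARx in
theorem p_NEAR :
    S_NEAR := by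
  intro m G _ S B hB hBC
  obtain ⟨c, hc⟩ := hB.bddAbove_image S.eta.continuous_of_finiteDimensional.continuousOn
  have hc' : ∀ b ∈ B, S.eta b ≤ max c 1 := fun b hb => (hc ⟨b, hb, rfl⟩).trans (le_max_left _ _)
  have hf := S.disc _ (PC.kup_compact hB (2 * max c 1) (2 * m))
    (PC.kup_sub hBC (by positivity) _)
  refine ⟨hf.toFinset, fun u g h hu hg hh hx => hf.mem_toFinset.2 ?_⟩
  have hp : ∀ i, 0 < S.xg h (u i) := fun i => (S.xg_Pos h).c (hu i)
  refine ⟨_, mem_kup S hc' hu hh hp fun i => ⟨by linarith [hp i], by linarith [hp i]⟩, 1,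
    one_pos, ?_⟩
  rw [one_smul, S.r_r, inv_mul_cancel_right]
  exact mem_kup S hc' hu hg hp hx

end Pool.Agent.P.MP_f30597_gt.CP
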