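import Pool.Agent.P.MP_f30597_gt.CP.IfaceG

/-! Step NORM. -/

set_option autoImplicit false
set_option linter.unusedSectionVars false

namespace Pool.Agent.P.MP_f30597_gt.CP

open Finset MeasureTheory

namespace NORMx

theorem john {m : ℕ} (K : PC m) {z : Fn m} (hz : K.Pos z) : ∃ ξ : Fin m → V m,
    (∀ i, ξ i ∈ K.Cb ∧ z (ξ i) ≤ 1) ∧ dt ξ ≠ 0 ∧ ∀ w ∈ K.Cb, ∀ i, |crd ξ i w| ≤ z w := by
  obtain ⟨u, hu, hu0⟩ := K.exists_basis
  have h1 : ∀ w ∈ K.Cb, w ≠ 0 → (z w)⁻¹ • w ∈ K.Cb ∧ z ((z w)⁻¹ • w) ≤ 1 := fun w hw e =>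
    ⟨PC.cb_smul hw (inv_pos.2 (hz w hw e)).le, by
      rw [map_smul, smul_eq_mul, inv_mul_cancel₀ (hz w hw e).ne']⟩
  have h2 : nm z u ∈ Set.univ.pi fun _ : Fin m => {x | x ∈ K.Cb ∧ z x ≤ 1} :=
    fun i _ => h1 _ (PC.sub_cb (hu i).1) (PC.c_ne (hu i).1)
  obtain ⟨ξ, hξ, hm⟩ := (isCompact_univ_pi fun _ : Fin m => hz.compact 1).exists_isMaxOn
    ⟨_, h2⟩ dt_cont.abs.continuousOn
  have h3 : dt ξ ≠ 0 := by
    have h4 : dt (nm z u) ≠ 0 := by
      unfold nm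
      rw [dt_smul]
      exact mul_ne_zero (prod_ne_zero_iff.2 fun i _ => inv_ne_zero (hz.c (hu i).1).ne') hu0
    exact abs_pos.1 ((abs_pos.2 h4).trans_le (hm h2))
  refine ⟨ξ, fun i => hξ i trivial, h3, fun w hw i => ?_⟩
  by_cases e : w = 0
  · simp [e]
  · have h5 : |dt (Function.update ξ i ((z w)⁻¹ • w))| ≤ |dt ξ| := by
      refine hm fun j _ => ?_
      by_cases ej : j = i
      · rw [ej, Function.update_self]
        exact h1 w hw e
      · rw [Function.update_of_ne ej]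
        exact hξ j trivial
    have h6 : |crd ξ i ((z w)⁻¹ • w)| ≤ 1 := by
      rw [crd_apply, abs_div]
      exact div_le_one_of_le₀ h5 (abs_nonneg _)
    rwa [map_smul, smul_eq_mul, abs_mul, abs_of_pos (inv_pos.2 (hz w hw e)),
      inv_mul_le_iff₀ (hz w hw e), mul_one] at h6

end NORMx

theorem p_NORM :
    S_NORM := by
  intro m G _ S
  obtain ⟨B, hB, hBC, hco⟩ := S.cocpt
  obtain ⟨r0, hr0, hr⟩ := (PC.eta_Pos (K := S.toPC)).norm
  obtain ⟨M, hM⟩ := hB.bddAbove_image S.eta.continuous_of_finiteDimensional.continuousOn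
  obtain ⟨ρ, hρ, hrad⟩ := PC.exists_rad hB hBC
  refine ⟨max 1 (max (m * (M / r0)) (m / ρ)), by positivity, fun z hz => ?_⟩
  obtain ⟨ξ, hξ, h0, hc⟩ := NORMx.john S.toPC hz
  obtain ⟨g, t, ht, hk⟩ := hco _ (PC.sum_basis h0 fun i => (hξ i).1)
  let f : En m := t • S.r g
  let f' : En m := t⁻¹ • S.r g⁻¹
  have e1 : ∀ x, f' (f x) = x := fun x => by
    simp only [f, f', LinearMap.smul_apply, map_smul, S.r_inv, smul_inv_smul₀ ht.ne']
  have e2 : ∀ x, f (f' x) = x := fun x => by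
    simp only [f, f', LinearMap.smul_apply, map_smul, S.r_inv', inv_smul_smul₀ ht.ne']
  have c1 : ∀ x ∈ S.Cb, f x ∈ S.Cb := fun x hx => PC.cb_smul (S.r_cb g hx) ht.le
  have c2 : ∀ x ∈ S.Cb, f' x ∈ S.Cb := fun x hx => PC.cb_smul (S.r_cb g⁻¹ hx) (inv_pos.2 ht).le
  have hk' : f (∑ i, ξ i) ∈ B := hk
  have hn : ∀ i, ‖f (ξ i)‖ ≤ M / r0 := fun i => by
    rw [le_div_iff₀ hr0, mul_comm]
    refine (hr _ (c1 _ (hξ i).1)).trans (le_trans ?_ (hM ⟨_, hk', rfl⟩))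
    refine PC.eta_Pos.nn.mono ?_
    rw [← map_sub, ← add_sum_erase _ _ (mem_univ i), add_sub_cancel_left]
    exact c1 _ (PC.cb_sum _ fun j _ => (hξ j).1)
  refine ⟨LinearEquiv.ofLinearMap f' f (LinearMap.ext e1) (LinearMap.ext e2), c2, c1,
    fun x hx => ?_⟩
  change ‖x‖ ≤ _ * z (f' x) ∧ z (f' x) ≤ _
  have hz0 : 0 ≤ z (f' x) := hz.nn _ (c2 x hx)
  constructor
  · have h1 : x = ∑ i, crd ξ i (f' x) • f (ξ i) := by
      simp only [← map_smul, ← map_sum]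
      rw [sum_crd h0, e2]
    have h2 : ‖x‖ ≤ ∑ _i : Fin m, z (f' x) * (M / r0) := by
      conv_lhs => rw [h1]
      refine (norm_sum_le _ _).trans (sum_le_sum fun i _ => ?_)
      rw [norm_smul, Real.norm_eq_abs]
      exact mul_le_mul (hc _ (c2 x hx) i) (hn i) (norm_nonneg _) hz0
    rw [sum_const, card_univ, Fintype.card_fin, nsmul_eq_mul, mul_comm (z _), ← mul_assoc] at h2
    exact h2.trans (mul_le_mul_of_nonneg_right ((le_max_left _ _).trans (le_max_right _ _)) hz0)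
  · have h1 : S.Nn (z ∘ₗ f') := fun y hy => hz.nn _ (c2 y hy)
    have h2 := h1.bound hρ (hrad _ hk') x
    have h3 : z (∑ i, ξ i) ≤ m := by
      rw [map_sum]
      refine (sum_le_sum fun i _ => (hξ i).2).trans ?_
      simp
    rw [LinearMap.comp_apply, LinearMap.comp_apply, e1] at h2
    refine (le_abs_self _).trans (h2.trans (mul_le_mul_of_nonneg_right ?_ (norm_nonneg _)))
    exact (div_le_div_of_nonneg_right h3 hρ.le).trans
      ((le_max_right _ _).trans (le_max_right _ _))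

end Pool.Agent.P.MP_f30597_gt.CP
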