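import Pool.Agent.P.MP_f30597_gt.CP.IfaceC

/-! Step OM. -/

set_option autoImplicit false
set_option linter.unusedSectionVars false

namespace Pool.Agent.P.MP_f30597_gt.CP

open Finset Matrix MeasureTheory SI

namespace OMx

theorem ev_bd {X : Type} (φ : List X → ℝ) (l : List X) :
    ev φ (bdZ (sx l)) = ∑ i ∈ range l.length, (-1 : ℤ) ^ i • φ (l.eraseIdx i) := by
  simp only [bd_sx, map_sum, map_zsmul, ev_sx]

end OMx

theorem p_OM :
    S_OM := by
  intro G _ n φ M h1 h2 h3
  classical
  refine ⟨fun g l => ?_, fun l hl => ?_, fun u hu => ?_⟩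
  · simp only [om, tr_tr]
    exact finsum_comp_equiv (Equiv.mulRight g) (f := fun k => φ (tr k l))
  · rw [om, finsum_eq_sum_of_support_subset (s := (h2 l hl).toFinset) _
      fun g hg => (Set.Finite.coe_toFinset _).ge hg]
    exact (abs_sum_le_sum_abs _ _).trans (h3 l hl _)
  · refine on_eq (ev (om φ) ∘ₗ bdZ) 0 (fun l hl => ?_) (len_iff.1 hu)
    have hf : ∀ i ∈ range l.length, {g | φ (tr g (l.eraseIdx i)) ≠ 0}.Finite := fun i hi =>
      h2 _ (by rw [List.length_eraseIdx_of_lt (mem_range.1 hi), hl]; rfl)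
    have hA := Set.Finite.biUnion (range l.length).finite_toSet hf
    change ev (om φ) (bdZ (sx l)) = 0
    rw [OMx.ev_bd, sum_congr rfl fun i hi => by
      rw [om, finsum_eq_sum_of_support_subset (s := hA.toFinset) _
        fun g hg => (Set.Finite.coe_toFinset _).ge (Set.mem_biUnion hi hg), smul_sum], sum_comm]
    refine sum_eq_zero fun g _ => ?_
    have := h1 (sx (tr g l)) (by rw [← hl, ← tr_length g l]; exact sx_len _)
    rw [OMx.ev_bd, tr_length] at this
    simpa only [tr, List.eraseIdx_map] using this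

end Pool.Agent.P.MP_f30597_gt.CP
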