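import Pool.Agent.P.MP_f30597_gt.CP.IfaceC

/-! Step PRISM. -/

set_option autoImplicit false
set_option linter.unusedSectionVars false

namespace Pool.Agent.P.MP_f30597_gt.CP

open Finset Matrix MeasureTheory SI

theorem p_PRISM :
    S_PRISM := by
  intro X Y f g
  obtain ⟨P, h1, h2, h3⟩ := exists_cone (mp g - mp f) (fun u => by simp [bd_mp])
    (by simp [mp_sx]) fun l h => f (l.head h)
  refine ⟨P, h1, len_ind (h2 ▸ zero_mem _) fun l h ih => ?_⟩
  rw [h3 l h]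
  refine cons_on (p := fun l' => l'.length = l.length ∧ ∀ y ∈ l', ∃ x ∈ l, y = f x ∨ y = g x) _
    (fun l' hl => ⟨by simp [hl.1], List.forall_mem_cons.2 ⟨⟨_, List.head_mem h, Or.inl rfl⟩, hl.2⟩⟩)
    (sub_mem (sub_mem ?_ ?_) (bd_sx_map P _ fun i hi => on_mono (fun l' hl => ⟨?_, fun y hy => ?_⟩)
      (ih i hi)))
  · rw [mp_sx]; exact sx_on ⟨by simp, by simp +contextual; grind⟩
  · rw [mp_sx]; exact sx_on ⟨by simp, by simp +contextual; grind⟩
  · rw [hl.1, List.length_eraseIdx_of_lt hi]; omega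
  · obtain ⟨x, hx, e⟩ := hl.2 y hy
    exact ⟨x, List.mem_of_mem_eraseIdx hx, e⟩

end Pool.Agent.P.MP_f30597_gt.CP
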