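import Pool.Agent.P.MP_f30597_gt.CP.IfaceG

/-! Step PUSH. -/

set_option autoImplicit false
set_option linter.unusedSectionVars false

namespace Pool.Agent.P.MP_f30597_gt.CP

open Finset MeasureTheory

namespace PUSHx

variable {m : ℕ} {G : Type} [Group G] (S : St m G)

theorem tr_cb (g : G) {t : ℝ} (ht : 0 < t) {a : ℝ} {x y : V m} (h : a • x - y ∈ S.Cb) :
    a • (t • S.r g x) - t • S.r g y ∈ S.Cb := by
  have := PC.cb_smul' (S.r_cb g h) ht
  rwa [map_sub, map_smul, smul_sub, smul_comm] at this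

theorem le_of {K : PC m} {z : Fn m} (hz : K.Nn z) {a : ℝ} {x y : V m} (h : a • x - y ∈ K.Cb) :
    z y ≤ a * z x := by
  have := hz.mono h
  rwa [map_smul, smul_eq_mul] at this

end PUSHx

open PUSHx in
theorem p_PUSH (hRAD : S_RAD) :
    S_PUSH := by
  intro m G _ S o D ho heo hD hDx
  obtain ⟨K0, hK0, hK0s, hK0c⟩ := S.cocpt
  choose! g t ht hk using hK0c
  have hη : S.Nn S.eta := PC.eta_Pos.nn
  obtain ⟨L, hL1, hL⟩ := PC.cmp (hK0.insert o) (Set.insert_subset ho hK0s)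
    (hK0.insert o).isBounded
  have hLa : ∀ k ∈ K0, L • k - o ∈ S.Cb := fun k hk =>
    hL k (Set.mem_insert_of_mem _ hk) o (Set.mem_insert _ _)
  have hLb : ∀ k ∈ K0, L • o - k ∈ S.Cb := fun k hk =>
    hL o (Set.mem_insert _ _) k (Set.mem_insert_of_mem _ hk)
  obtain ⟨ρ0, hρ0, hrad⟩ := PC.exists_rad (isCompact_singleton (x := o))
    (Set.singleton_subset_iff.2 ho)
  have hbd : ∀ z : Fn m, S.Nn z → z o = 1 → ∀ (v : V m) (c : ℝ), ‖v‖ ≤ c * ρ0 → |z v| ≤ c := by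
    intro z hz h1 v c hv
    have := hz.bound hρ0 (hrad o rfl) v
    rw [h1, one_div, inv_mul_eq_div] at this
    exact this.trans ((div_le_iff₀ hρ0).2 hv)
  obtain ⟨d, hd0, hd1, hq⟩ := hRAD m S.toPC o D ho heo hD hDx
  have hfin := S.disc (K0 ∪ S.Kup K0 2 (2 * L)) (hK0.union (PC.kup_compact hK0 _ _))
    (Set.union_subset hK0s (PC.kup_sub hK0s two_pos _))
  refine ⟨d / 4 * ρ0, by positivity, hfin.toFinset, fun F => ?_⟩
  have hKF : IsCompact (insert o (⋃ f ∈ F, S.r f '' K0)) :=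
    (F.isCompact_biUnion fun f _ => hK0.image (S.r f).continuous_of_finiteDimensional).insert o
  have hKFs : insert o (⋃ f ∈ F, S.r f '' K0) ⊆ S.C :=
    Set.insert_subset ho (Set.iUnion₂_subset fun f _ => by
      rintro _ ⟨k, hk, rfl⟩; exact S.inv f k (hK0s hk))
  obtain ⟨LF, hLF1, hLF⟩ := PC.cmp hKF hKFs hKF.isBounded
  obtain ⟨ε, hε0, hε⟩ : ∃ ε : ℝ, 0 < ε ∧ ε * (LF ^ 2 + 4 * L ^ 2) = 1 :=
    ⟨(LF ^ 2 + 4 * L ^ 2)⁻¹, by positivity, inv_mul_cancel₀ (by positivity)⟩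
  obtain ⟨q, hqc, hqx⟩ := hq ε hε0
  obtain ⟨ρ1, hρ1, hrad1⟩ := PC.exists_rad (K := S.toPC) (hD.image_of_continuousOn hqc)
    (by rintro _ ⟨x, hx, rfl⟩; exact (hqx x hx).1)
  obtain ⟨δ1, hδ1, hu⟩ := Metric.uniformContinuousOn_iff_le.1
    (hD.uniformContinuousOn_of_continuous hqc) ρ1 hρ1
  have h2 : ∀ x ∈ D, ∀ y ∈ D, dist x y ≤ min δ1 (d * ρ0) → (2 : ℝ) • q x - q y ∈ S.Cb := by
    intro x hx y hy hxy
    have h3 := hu x hx y hy (hxy.trans (min_le_left _ _))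
    have h4 := hrad1 _ ⟨x, hx, rfl⟩ (q x - q y) (by rwa [dist_eq_norm] at h3)
    rw [two_smul, add_sub_assoc]
    exact PC.sub_cb h4
  have hback : ∀ x ∈ D, S.r (g (q x))⁻¹ (t (q x) • S.r (g (q x)) (q x)) = t (q x) • q x :=
    fun x _ => by rw [map_smul, S.r_inv]
  refine ⟨min δ1 (d * ρ0), by positivity, fun x => (g (q x))⁻¹, fun x hx hF => ?_,
    fun x hx y hy hxy => ?_, fun x hx => ?_⟩
  · obtain ⟨hc, he, z, hz, hzo, -, hzq⟩ := hqx x hx
    have hp : t (q x) • q x ∈ insert o (⋃ f ∈ F, S.r f '' K0) :=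
      Set.mem_insert_of_mem _ (Set.mem_biUnion hF ⟨_, hk _ hc, hback x hx⟩)
    have h3 := le_of hz (hLF _ hp o (Set.mem_insert _ _))
    have h4 := le_of hη (hLF o (Set.mem_insert _ _) _ hp)
    rw [map_smul, smul_eq_mul, hzo] at h3
    rw [map_smul, smul_eq_mul, he, heo, mul_one, mul_one] at h4
    have h5 := ht _ hc
    have h6 : t (q x) * z (q x) ≤ LF * ε :=
      (mul_le_mul_of_nonneg_left hzq h5.le).trans (mul_le_mul_of_nonneg_right h4 hε0.le)
    have h7 : LF * (t (q x) * z (q x)) ≤ LF * (LF * ε) :=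
      mul_le_mul_of_nonneg_left h6 (by linarith)
    have h8 : 0 < ε * (4 * L ^ 2) := by positivity
    nlinarith
  · have hcx := (hqx x hx).1
    have hcy := (hqx y hy).1
    rw [Set.Finite.mem_toFinset, inv_inv]
    refine ⟨_, Or.inl (hk _ hcy), t (q x) / t (q y), div_pos (ht _ hcx) (ht _ hcy), Or.inr ?_⟩
    rw [← S.r_r, hback y hy, map_smul, smul_smul, div_mul_cancel₀ _ (ht _ hcy).ne']
    refine ⟨PC.cb_smul' (S.r_cb _ (PC.sub_cb hcy)) (ht _ hcx), ?_, _, hk _ hcx,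
      tr_cb S _ (ht _ hcx) (h2 y hy x hx (by rwa [dist_comm]))⟩
    have h3 := le_of hη (tr_cb S (g (q x)) (ht _ hcx) (h2 x hx y hy hxy))
    have h4 := le_of hη (hLb _ (hk _ hcx))
    rw [heo] at h4
    linarith
  · obtain ⟨hc, he, z, hz, hzo, hzx, hzq⟩ := hqx x hx
    refine ⟨z - (1 - d) • S.eta, fun p hp => ?_, fun y hy hxy => ⟨?_, ?_⟩⟩
    · rw [Metric.mem_closedBall, dist_eq_norm] at hp
      have h3 := abs_le.1 (hbd z hz hzo _ _ hp)
      have h4 := abs_le.1 (hbd _ hη heo _ _ hp)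
      rw [map_sub, hzo] at h3
      rw [map_sub, heo] at h4
      rw [LinearMap.sub_apply, LinearMap.smul_apply, smul_eq_mul]
      nlinarith
    · have h3 := abs_le.1 (hbd z hz hzo (x - y) d
        (by rw [← dist_eq_norm]; exact hxy.trans (min_le_right _ _)))
      rw [map_sub] at h3
      rw [LinearMap.sub_apply, LinearMap.smul_apply, smul_eq_mul, (hDx y hy).1]
      linarith
    · obtain ⟨hcy, hey, -⟩ := hqx y hy
      have h5 := ht _ hcy
      have h3 := S.r_cb (g (q y))⁻¹ (hLa _ (hk _ hcy))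
      have h4 := S.r_cb (g (q y))⁻¹ (hLb _ (hk _ hcy))
      rw [map_sub, map_smul, hback y hy] at h3 h4
      have h6 := le_of hz h3
      have h7 := le_of hη h4
      have h8 := le_of hz (h2 x hx y hy hxy)
      have h9 := hη _ (S.r_cb (g (q y))⁻¹ (PC.sub_cb ho))
      rw [map_smul, smul_eq_mul] at h6 h7
      rw [hey, mul_one] at h7
      rw [LinearMap.sub_apply, LinearMap.smul_apply, smul_eq_mul]
      generalize S.eta (S.r (g (q y))⁻¹ o) = e at h7 h9 ⊢
      generalize z (S.r (g (q y))⁻¹ o) = w at h6 ⊢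
      have h10 : t (q y) * z (q y) ≤ L * e * (2 * ε) :=
        (mul_le_mul_of_nonneg_left (by linarith) h5.le).trans
          (mul_le_mul_of_nonneg_right h7 (by positivity))
      have h11 : L * (t (q y) * z (q y)) ≤ L * (L * e * (2 * ε)) :=
        mul_le_mul_of_nonneg_left h10 (by linarith)
      have h12 : ε * (4 * L ^ 2) ≤ 1 := by nlinarith [mul_nonneg hε0.le (sq_nonneg LF)]
      have h13 := mul_le_mul_of_nonneg_left h12 h9
      have h14 : 0 ≤ (1 / 2 - d) * e := mul_nonneg (by linarith) h9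
      nlinarith

end Pool.Agent.P.MP_f30597_gt.CP
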