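import Pool.Agent.P.MP_f30597_gt.CP.IfaceG

/-! Step RAD. -/

set_option autoImplicit false
set_option linter.unusedSectionVars false

namespace Pool.Agent.P.MP_f30597_gt.CP

open Finset MeasureTheory

namespace RADx

theorem sep {m : ℕ} (K : PC m) {o R : V m} (ho : o ∈ K.C) (hR : R ∉ K.C) :
    ∃ z : Fn m, K.Nn z ∧ z o = 1 ∧ z R ≤ 0 := by
  obtain ⟨f, hf⟩ := geometric_hahn_banach_open_point K.cv K.op hR
  have h1 : ∀ a ∈ K.C, f a ≤ 0 := fun a ha => by
    by_contra h
    have h0 : 0 < f a := not_le.1 h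
    have := hf _ (K.cone a ha ((|f R| + 1) / f a) (by positivity))
    rw [map_smul, smul_eq_mul, div_mul_cancel₀ _ h0.ne'] at this
    linarith [le_abs_self (f R)]
  have h2 : 0 ≤ f R := by
    have : (0 : V m) ∈ {a | f a ≤ f R} :=
      closure_minimal (fun a ha => (hf a ha).le) (isClosed_le f.continuous continuous_const)
        (PC.zero_cb (K := K))
    simpa using this
  have h3 : K.Nn (-(f : V m →ₗ[ℝ] ℝ)) := fun x hx => by
    have : x ∈ {a | f a ≤ 0} := closure_minimal h1 (isClosed_le f.continuous continuous_const) hx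
    simpa using this
  have h4 : f o < 0 := by
    refine (h1 o ho).lt_of_ne fun e => ?_
    obtain ⟨ρ, hρ, h5⟩ := PC.exists_rad (isCompact_singleton (x := o))
      (Set.singleton_subset_iff.2 ho)
    have h6 := h3.bound hρ (h5 o rfl) R
    have h7 := hf o ho
    simp [e] at h6
    linarith
  refine ⟨(f o)⁻¹ • (f : V m →ₗ[ℝ] ℝ), fun x hx => ?_, inv_mul_cancel₀ h4.ne, ?_⟩
  · exact mul_nonneg_of_nonpos_of_nonpos (inv_lt_zero.2 h4).le (neg_nonneg.1 (h3 x hx))
  · exact mul_nonpos_of_nonpos_of_nonneg (inv_lt_zero.2 h4).le h2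

end RADx

theorem p_RAD :
    S_RAD := by
  intro m K o D ho ho1 hD hx
  set s : Set (V m) := (fun v => o + v) ⁻¹' K.C with hs
  have hc : Convex ℝ s := K.cv.translate_preimage_right o
  have hop : IsOpen s := K.op.preimage (by fun_prop)
  have h0 : s ∈ nhds (0 : V m) := hop.mem_nhds (by simpa [hs] using ho)
  have hg : ∀ v, gauge s v < 1 ↔ o + v ∈ K.C := fun v => by
    rw [gauge_lt_one_iff_mem_interior hc h0, hop.interior_eq]; rfl
  have he : ∀ x ∈ D, K.eta (x - o) = 0 := fun x h => by rw [map_sub, (hx x h).1, ho1, sub_self]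
  have hN : ∀ x ∈ D, 0 < gauge s (x - o) := fun x h => by
    refine (gauge_nonneg _).lt_of_ne fun e => ?_
    obtain ⟨r, hr, h1⟩ := PC.Pos.norm (PC.eta_Pos (K := K))
    have hv : 0 < ‖x - o‖ := norm_pos_iff.2 (sub_ne_zero.2 (hx x h).2)
    have ht : 0 ≤ (1 / r + ‖o‖ + 1) / ‖x - o‖ := by positivity
    have h2 := (hg (((1 / r + ‖o‖ + 1) / ‖x - o‖) • (x - o))).1
      (by rw [gauge_smul_of_nonneg ht, ← e, smul_zero]; exact one_pos)
    have h3 := h1 _ (PC.sub_cb h2)
    rw [map_add, map_smul, he x h, smul_zero, add_zero, ho1, mul_comm, ← le_div_iff₀ hr] at h3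
    have h4 := norm_sub_le (o + ((1 / r + ‖o‖ + 1) / ‖x - o‖) • (x - o)) o
    rw [add_sub_cancel_left, norm_smul, Real.norm_of_nonneg ht, div_mul_cancel₀ _ hv.ne'] at h4
    linarith
  have hcN : Continuous fun x => gauge s (x - o) := (continuous_gauge hc h0).comp (by fun_prop)
  obtain ⟨c, hc0, hc1⟩ := hD.exists_forall_le' hcN.continuousOn hN
  refine ⟨min 1 c / 2, by positivity, by linarith [min_le_left 1 c], fun ε hε => ?_⟩
  have t0 : 0 ≤ 1 - min ε 1 := sub_nonneg.2 (min_le_right _ _)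
  have t1 : 0 < min ε 1 := lt_min hε one_pos
  refine ⟨fun x => o + ((1 - min ε 1) / gauge s (x - o)) • (x - o), ?_, fun x h => ⟨?_, ?_, ?_⟩⟩
  · exact continuousOn_const.add ((continuousOn_const.div hcN.continuousOn
      fun x h => (hN x h).ne').smul (by fun_prop))
  · refine (hg _).1 ?_
    rw [gauge_smul_of_nonneg (div_nonneg t0 (hN x h).le), smul_eq_mul,
      div_mul_cancel₀ _ (hN x h).ne']
    linarith
  · rw [map_add, map_smul, he x h, smul_zero, add_zero, ho1]
  · have hp := hN x h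
    obtain ⟨z, z1, z2, z3⟩ := RADx.sep K ho (R := o + (gauge s (x - o))⁻¹ • (x - o)) fun h1 => by
      have := (hg _).2 h1
      rw [gauge_smul_of_nonneg (inv_pos.2 hp).le, smul_eq_mul, inv_mul_cancel₀ hp.ne'] at this
      exact lt_irrefl _ this
    rw [map_add, map_smul, z2, smul_eq_mul] at z3
    have z4 : (gauge s (x - o))⁻¹ * z (x - o) ≤ -1 := by linarith
    refine ⟨z, z1, z2, ?_, ?_⟩
    · rw [inv_mul_le_iff₀ hp, map_sub, z2] at z4
      linarith [min_le_right 1 c, hc1 x h]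
    · rw [map_add, map_smul, z2, smul_eq_mul, div_eq_mul_inv, mul_assoc]
      nlinarith [min_le_left ε 1, mul_le_mul_of_nonneg_left z4 t0]

end Pool.Agent.P.MP_f30597_gt.CP
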