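import Pool.Agent.P.MP_f30597_gt.CP.IfaceC

/-! Step SD. -/

set_option autoImplicit false
set_option linter.unusedSectionVars false

namespace Pool.Agent.P.MP_f30597_gt.CP

open Finset Matrix MeasureTheory SI

theorem p_SD (hMESH : S_MESH) :
    S_SD := by
  intro m
  obtain ⟨sd, h0, h1⟩ := exists_rec (X := V m) (sx ([] : List (V m))) fun l y => cons (bary l) y
  have h2 : ∀ u, bdZ (sd u) = sd (bdZ u) :=
    all_eq (bdZ ∘ₗ sd) (sd ∘ₗ bdZ) (len_ind (by simp [h0, bd_nil]) fun l h ih => by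
      have h4 : bdZ (sd (bdZ (sx l))) = sd (bdZ (bdZ (sx l))) :=
        sub_eq_zero.1 (bd_sx_map (bdZ ∘ₗ sd - sd ∘ₗ bdZ) ⊥ fun i hi => sub_eq_zero.2 (ih i hi))
      change bdZ (sd _) = sd (bdZ _)
      rw [h1 l h, bd_cons, h4, bd_bd, map_zero, map_zero, sub_zero])
  obtain ⟨T, t1, t2, t3⟩ := exists_cone (LinearMap.id - sd) (fun u => by simp [h2])
    (by simp [h0]) fun l h => l.head h
  have h5 : ∀ (l : List (V m)), ∀ x ∈ l, x ∈ hull l := fun l x hx => subset_convexHull ℝ _ hx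
  refine ⟨sd, T, h2, t1, len_ind (t2 ▸ zero_mem _) fun l h ih => ?_, hMESH m sd h0 h1⟩
  rw [t3 l h]
  refine cons_on (p := fun l' => l'.length = l.length ∧ ∀ y ∈ l', y ∈ hull l) _
    (fun l' hl => ⟨by simp [hl.1], List.forall_mem_cons.2 ⟨h5 _ _ (List.head_mem h), hl.2⟩⟩)
    (sub_mem (sub_mem (sx_on ⟨rfl, h5 l⟩) (on_mono (fun _ h => ⟨h.1, h.2.1⟩) (hMESH m sd h0 h1 l)))
      (bd_sx_map T _ fun i hi => on_mono (fun l' hl => ⟨?_, fun y hy => ?_⟩) (ih i hi)))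
  · rw [hl.1, List.length_eraseIdx_of_lt hi]; omega
  · exact convexHull_mono (fun _ => List.mem_of_mem_eraseIdx) (hl.2 y hy)

end Pool.Agent.P.MP_f30597_gt.CP
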