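import Pool.Agent.P.MP_f30597_gt.CP.IfaceG

/-! Step SEG. -/

set_option autoImplicit false
set_option linter.unusedSectionVars false

namespace Pool.Agent.P.MP_f30597_gt.CP

open Finset MeasureTheory

theorem p_SEG :
    S_SEG := by
  classical
  intro ι _ lam s P h1 h2 h3
  by_cases h : ∃ i, lam i ≠ 0 ∧ P i
  swap
  · exact Or.inl fun i a b => h ⟨i, a, b⟩
  obtain ⟨i0, hi0, hP⟩ := h
  obtain ⟨t0, e0, p0⟩ := (h3 i0).1 hP
  have A0 : ∀ j, 0 ≤ s j + t0 * lam j := fun j => by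
    by_cases e : j = i0
    · rw [e, e0]
    · exact (p0 j e).le
  have hex : (∃ i, 0 < lam i) ∧ ∃ i, lam i < 0 := by
    rcases hi0.lt_or_gt with c | c
    · exact ⟨h1.2 ⟨_, c⟩, _, c⟩
    · exact ⟨⟨_, c⟩, h1.1 ⟨_, c⟩⟩
  let τ : ι → ℝ := fun i => -s i / lam i
  have e : ∀ i t, lam i ≠ 0 → s i + t * lam i = (t - τ i) * lam i := fun i t c => by
    simp only [τ]; field_simp; ring
  obtain ⟨a, ha, hm⟩ := exists_max_image (univ.filter fun i => 0 < lam i) τ
    (hex.1.elim fun i c => ⟨i, by simpa using c⟩)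
  obtain ⟨b, hb, hn⟩ := exists_min_image (univ.filter fun i => lam i < 0) τ
    (hex.2.elim fun i c => ⟨i, by simpa using c⟩)
  simp only [mem_filter, mem_univ, true_and] at ha hb hm hn
  have ha0 : τ a ≤ t0 := by
    have := A0 a
    rw [e a t0 ha.ne'] at this
    exact sub_nonneg.1 (nonneg_of_mul_nonneg_left this ha)
  have hb0 : t0 ≤ τ b := by
    have := A0 b
    rw [e b t0 hb.ne] at this
    nlinarith
  have key : ∀ i, lam i ≠ 0 → τ a ≤ τ i → τ i ≤ τ b → P i := fun i c c1 c2 => by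
    have z : s i + τ i * lam i = 0 := by rw [e i _ c, sub_self, zero_mul]
    refine (h3 i).2 ⟨τ i, z, fun j hj => lt_of_le_of_ne ?_ (h2 _ i j hj.symm z).symm⟩
    rcases lt_trichotomy (lam j) 0 with d | d | d
    · rw [e j _ d.ne]
      exact mul_nonneg_of_nonpos_of_nonpos (sub_nonpos.2 (c2.trans (hn j d))) d.le
    · simpa [d] using A0 j
    · rw [e j _ d.ne']
      exact mul_nonneg (sub_nonneg.2 ((hm j d).trans c1)) d.le
  refine Or.inr ⟨a, b, ha, hb, fun i c => ⟨fun hi => ?_, ?_⟩⟩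
  · obtain ⟨t, z, p⟩ := (h3 i).1 hi
    rw [e i t c, mul_eq_zero_iff_right c, sub_eq_zero] at z
    subst z
    by_contra hc
    rw [not_or] at hc
    rcases c.lt_or_gt with d | d
    · have := p b (Ne.symm hc.2)
      rw [e b _ hb.ne] at this
      nlinarith [hn i d]
    · have := p a (Ne.symm hc.1)
      rw [e a _ ha.ne'] at this
      nlinarith [hm i d]
  · rintro (rfl | rfl)
    · exact key _ c le_rfl (ha0.trans hb0)
    · exact key _ c (ha0.trans hb0) le_rfl

end Pool.Agent.P.MP_f30597_gt.CP
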