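import Pool.Agent.P.MP_f30597_gt.CP.IfaceC

/-! Step SOFIC. -/

set_option autoImplicit false
set_option linter.unusedSectionVars false

namespace Pool.Agent.P.MP_f30597_gt.CP

open Finset Matrix MeasureTheory SI

namespace SOFICx

theorem jacZ : IsJacobsonRing ℤ := isJacobsonRing_iff_prime_eq.2 fun P hP => by
  by_cases h : P = ⊥
  · subst h
    refine le_antisymm (fun x hx => ?_) bot_le
    have := Int.isUnit_iff.1 (Ideal.mem_jacobson_bot.1 hx x)
    have h2 := mul_self_nonneg x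
    exact mul_self_eq_zero.1 (by omega : x * x = 0)
  · have := hP.isMaximal h
    exact Ideal.jacobson_eq_self_of_isMaximal

theorem fin_field (k : Type) [Field k] [Algebra.FiniteType ℤ k] : Finite k := by
  have := jacZ
  have := finite_of_finite_type_of_isJacobsonRing ℤ k
  by_cases h : Function.Injective (algebraMap ℤ k)
  · exact absurd (isField_of_isIntegral_of_isField h (Field.toIsField k)) Int.not_isField
  · rw [injective_iff_map_eq_zero] at h
    push Not at h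
    obtain ⟨n, h1, h2⟩ := h
    refine Module.finite_of_fg_torsion k fun x => ⟨⟨n, mem_nonZeroDivisors_of_ne_zero h2⟩, ?_⟩
    show n • x = 0
    rw [Algebra.smul_def, h1, zero_mul]

theorem sep (R : Type) [CommRing R] [IsDomain R] [Algebra.FiniteType ℤ R] (a : R) (ha : a ≠ 0) :
    ∃ (k : Type) (_ : Field k) (_ : Finite k) (φ : R →+* k), φ a ≠ 0 := by
  have := jacZ
  have hR : IsJacobsonRing R := isJacobsonRing_of_finiteType (A := ℤ)
  have h := isJacobsonRing_iff_prime_eq.1 hR ⊥ inferInstance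
  have h2 : a ∉ (⊥ : Ideal R).jacobson := by rw [h]; exact ha
  rw [Ideal.jacobson, Ideal.mem_sInf] at h2
  push Not at h2
  obtain ⟨J, ⟨-, hJ⟩, haJ⟩ := h2
  let := Ideal.Quotient.field J
  exact ⟨R ⧸ J, inferInstance, @fin_field _ _ (Algebra.FiniteType.of_surjective
    (Ideal.Quotient.mk J).toIntAlgHom Ideal.Quotient.mk_surjective), Ideal.Quotient.mk J,
    fun h0 => haJ (Ideal.Quotient.eq_zero_iff_mem.1 h0)⟩

theorem sofic_of (G : Type) [Group G] (h : ∀ F : Finset G, ∃ (H : Subgroup G) (Q : Type)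
    (_ : Group Q) (_ : Finite Q) (π : H →* Q), (∀ g ∈ F, g ∈ H) ∧
      ∀ g : H, g.1 ∈ F → π g = 1 → g.1 = 1) : IsSofic G := by
  classical
  intro F ε hε
  obtain ⟨H, Q, _, _, π, h1, h2⟩ := h F
  have e := Finite.equivFin Q
  have hp : (0 : ℝ) < ε * (Nat.card Q : ℕ) := mul_pos hε (by exact_mod_cast Nat.card_pos)
  refine ⟨Nat.card Q, fun g => if hg : g ∈ H then
    e.permCongr (MulAction.toPerm (π ⟨g, hg⟩)) else 1, fun g hg g' hg' => ?_, fun g hg g1 => ?_⟩
  · rw [Finset.filter_eq_empty_iff.2, Finset.card_empty, Nat.cast_zero]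
    · exact hp
    · intro i _
      beta_reduce
      rw [dif_pos (h1 g hg), dif_pos (h1 g' hg'), dif_pos (H.mul_mem (h1 g hg) (h1 g' hg')),
        show (⟨g * g', H.mul_mem (h1 g hg) (h1 g' hg')⟩ : H) = ⟨g, h1 g hg⟩ * ⟨g', h1 g' hg'⟩
          from rfl, map_mul]
      simp [mul_assoc]
  · rw [Finset.filter_eq_empty_iff.2, Finset.card_empty, Nat.cast_zero]
    · exact hp
    · intro i _ hi
      beta_reduce at hi
      rw [dif_pos (h1 g hg)] at hi
      refine g1 (h2 ⟨g, h1 g hg⟩ hg ?_)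
      simpa [Equiv.permCongr_apply, ← Equiv.eq_symm_apply] using hi

theorem lin {m : ℕ} (G : Type) [Group G] (M : G →* Matrix (Fin m) (Fin m) ℝ)
    (hM : Function.Injective M) : IsSofic G := by
  classical
  refine sofic_of G fun F => ?_
  obtain ⟨S, hS⟩ : ∃ S : Finset ℝ, ∀ g ∈ F, ∀ i j, M g i j ∈ S ∧ M g⁻¹ i j ∈ S :=
    ⟨(F ×ˢ (univ : Finset (Fin m × Fin m))).biUnion fun z => {M z.1 z.2.1 z.2.2, M z.1⁻¹ z.2.1 z.2.2},
      fun g hg i j => ⟨mem_biUnion.2 ⟨(g, i, j), by simpa using hg, by simp⟩,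
        mem_biUnion.2 ⟨(g, i, j), by simpa using hg, by simp⟩⟩⟩
  obtain ⟨R, hR⟩ : ∃ R : Subalgebra ℤ ℝ, R = Algebra.adjoin ℤ (S : Set ℝ) := ⟨_, rfl⟩
  have hft : Algebra.FiniteType ℤ R := (Subalgebra.fg_iff_finiteType R).1 ⟨S, hR.symm⟩
  have hSR : ∀ x ∈ S, x ∈ R := fun x hx => hR ▸ Algebra.subset_adjoin hx
  have hmul : ∀ g h : G, (∀ i j, M g i j ∈ R) → (∀ i j, M h i j ∈ R) →
      ∀ i j, M (g * h) i j ∈ R := fun g h hg hh i j => by
    rw [map_mul, Matrix.mul_apply]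
    exact R.sum_mem fun l _ => R.mul_mem (hg _ _) (hh _ _)
  have hone : ∀ i j, M 1 i j ∈ R := fun i j => by
    rw [map_one, Matrix.one_apply]
    split_ifs
    exacts [R.one_mem, R.zero_mem]
  let H : Subgroup G :=
    { carrier := {g | (∀ i j, M g i j ∈ R) ∧ ∀ i j, M g⁻¹ i j ∈ R}
      mul_mem' := fun {g h} hg hh => ⟨hmul g h hg.1 hh.1, by
        rw [_root_.mul_inv_rev]; exact hmul _ _ hh.2 hg.2⟩
      one_mem' := ⟨hone, by rw [inv_one]; exact hone⟩
      inv_mem' := fun {g} hg => ⟨hg.2, by rw [inv_inv]; exact hg.1⟩ }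
  have hinj : Function.Injective ((R.val : R →+* ℝ).mapMatrix (m := Fin m)) :=
    Matrix.map_injective Subtype.val_injective
  let N : H →* Matrix (Fin m) (Fin m) R :=
    { toFun := fun g => Matrix.of fun i j => ⟨M g i j, g.2.1 i j⟩
      map_one' := hinj (by rw [map_one]; exact map_one M)
      map_mul' := fun g h => hinj (by rw [map_mul]; exact map_mul M g.1 h.1) }
  have hF : ∀ g ∈ F, g ∈ H := fun g hg =>
    ⟨fun i j => hSR _ (hS g hg i j).1, fun i j => hSR _ (hS g hg i j).2⟩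
  have hc : ∀ g : H, ∃ c : R, c ≠ 0 ∧ (g.1 ≠ 1 → ∃ i j, c = (N g - 1) i j) := fun g => by
    by_cases h1 : g.1 = 1
    · exact ⟨1, one_ne_zero, fun h => absurd h1 h⟩
    · have : N g - 1 ≠ 0 := fun h0 => h1 (hM (by
        have := congrArg (R.val : R →+* ℝ).mapMatrix (sub_eq_zero.1 h0)
        rw [map_one] at this
        rw [map_one]
        exact this))
      obtain ⟨i, hi⟩ := Function.ne_iff.1 this
      obtain ⟨j, hj⟩ := Function.ne_iff.1 hi
      exact ⟨_, hj, fun _ => ⟨i, j, rfl⟩⟩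
  choose c hc0 hc1 using hc
  obtain ⟨k, _, _, φ, hφ⟩ := sep R (∏ g ∈ F.subtype (· ∈ H), c g)
    (Finset.prod_ne_zero_iff.2 fun g _ => hc0 g)
  refine ⟨H, (Matrix (Fin m) (Fin m) k)ˣ, inferInstance, inferInstance,
    ((φ.mapMatrix (m := Fin m)).toMonoidHom.comp N).toHomUnits, hF, fun g hg h1 => ?_⟩
  by_contra g1
  obtain ⟨i, j, e⟩ := hc1 g g1
  rw [map_prod, Finset.prod_ne_zero_iff] at hφ
  refine hφ g (Finset.mem_subtype.2 hg) ?_
  have h2 : φ.mapMatrix (N g - 1) = 0 := by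
    rw [map_sub, map_one, sub_eq_zero]
    exact congrArg Units.val h1
  rw [e]
  exact congrFun (congrFun h2 i) j

end SOFICx

theorem p_SOFIC :
    S_SOFIC := by
  intro m G _ r hr
  exact SOFICx.lin G ((LinearMap.toMatrixAlgEquiv' : En m ≃ₐ[ℝ] _).toMulEquiv.toMonoidHom.comp r)
    (LinearMap.toMatrixAlgEquiv'.injective.comp hr)

end Pool.Agent.P.MP_f30597_gt.CP
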