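import Pool.Agent.P.MP_f30597_gt.CP.IfaceG

/-! Step STAR. -/

set_option autoImplicit false
set_option linter.unusedSectionVars false

namespace Pool.Agent.P.MP_f30597_gt.CP

open Finset MeasureTheory

namespace STARx

open Filter Topology

theorem lim {m : ℕ} (F F' : ℕ → En m) (h : ∀ v, ∃ C, ∀ j, ‖F j v‖ ≤ C)
    (h' : ∀ v, ∃ C, ∀ j, ‖F' j v‖ ≤ C) : ∃ (g g' : En m) (φ : ℕ → ℕ), StrictMono φ ∧
      ∀ (v : ℕ → V m) (w : V m), Tendsto v atTop (𝓝 w) →
        Tendsto (fun j => F (φ j) (v j)) atTop (𝓝 (g w)) ∧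
          Tendsto (fun j => F' (φ j) (v j)) atTop (𝓝 (g' w)) := by
  obtain ⟨C, hC⟩ := banach_steinhaus (g := fun j => LinearMap.toContinuousLinearMap (F j)) h
  obtain ⟨C', hC'⟩ := banach_steinhaus (g := fun j => LinearMap.toContinuousLinearMap (F' j)) h'
  obtain ⟨a, -, φ, hφ, ha⟩ := tendsto_subseq_of_bounded
    (x := fun j => (LinearMap.toContinuousLinearMap (F j), LinearMap.toContinuousLinearMap (F' j)))
    ((Metric.isBounded_closedBall (x := 0) (r := C)).prod
      (Metric.isBounded_closedBall (x := 0) (r := C')))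
    fun j => Set.mk_mem_prod (mem_closedBall_zero_iff.2 (hC j)) (mem_closedBall_zero_iff.2 (hC' j))
  exact ⟨a.1, a.2, φ, hφ, fun v w hv =>
    ⟨(isBoundedBilinearMap_apply.continuous.tendsto (a.1, w)).comp
      (((continuous_fst.tendsto a).comp ha).prodMk_nhds hv),
    (isBoundedBilinearMap_apply.continuous.tendsto (a.2, w)).comp
      (((continuous_snd.tendsto a).comp ha).prodMk_nhds hv)⟩⟩

end STARx

open Filter Topology in
theorem p_STAR :
    S_STAR := by
  intro m K ⟨R, hR, hN⟩ x y I b l S
  let a : ℝ → Fin m → ℝ := fun t i => if i ∈ I then 1 else t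
  obtain ⟨D, Da⟩ : ∃ D : ℝ → En m, ∀ t v, D t v = ∑ i, (a t i * l i v) • b i :=
    ⟨fun t => ∑ i, a t i • (l i).smulRight (b i), fun t v => by
      simp [LinearMap.sum_apply, mul_smul]⟩
  have lD : ∀ t v k, l k (D t v) = a t k * l k v := fun t v k => by simp [Da, map_sum, S.dual]
  have DD : ∀ s t v, D s (D t v) = D (s * t) v := fun s t v => by
    rw [Da, Da (s * t)]
    refine sum_congr rfl fun i _ => ?_
    rw [lD]
    simp only [a]
    split_ifs <;> simp [mul_assoc]
  have D1 : ∀ v, D 1 v = v := fun v => by rw [Da]; simpa [a] using sum_dual S.dual v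
  have Dt : ∀ t v, D t v = D 0 v + t • (v - D 0 v) := fun t v => by
    conv_rhs => rw [← congrArg (· - D 0 v) (D1 v)]
    simp only [Da, ← sum_sub_distrib, smul_sum, ← sum_add_distrib, ← sub_smul, smul_smul,
      ← add_smul]
    refine sum_congr rfl fun i _ => ?_
    simp only [a]
    split_ifs <;> simp
  let t : ℕ → ℝ := fun j => j + 1
  have t0 : ∀ j, 0 < t j := fun j => by positivity
  choose h h1 h2 h3 using fun j : ℕ => hN (x + t j • y) fun v hv e => by
    have := S.hxy v hv e
    have := mul_nonneg (Nat.cast_nonneg (α := ℝ) j) (S.hy v hv)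
    simp only [LinearMap.add_apply, LinearMap.smul_apply, smul_eq_mul, t] at *
    linarith
  simp only [LinearMap.add_apply, LinearMap.smul_apply, smul_eq_mul] at h3
  obtain ⟨g, g', φ, hφ, L⟩ := STARx.lim (fun j => D (t j) ∘ₗ (h j : En m))
    (fun j => ((h j).symm : En m) ∘ₗ D (t j)⁻¹) (fun v => by
      obtain ⟨c, -, hc⟩ := K.bdd_cb
      refine ⟨_, fun j => hc _ _ (∑ i, 2 * R * ‖b i‖) (fun u hu => ?_) v⟩
      rw [LinearMap.comp_apply, Da, sum_mul]
      refine norm_sum_le_of_le _ fun i _ => ?_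
      rw [norm_smul, mul_right_comm]
      refine mul_le_mul_of_nonneg_right ?_ (norm_nonneg _)
      have k := (h3 j u hu).2
      have k1 := S.hx _ (h1 j u hu)
      have k2 := mul_nonneg (t0 j).le (S.hy _ (h1 j u hu))
      rw [Real.norm_eq_abs, abs_mul, LinearEquiv.coe_coe]
      simp only [a]
      split_ifs with e
      · have := S.lI i e _ (h1 j u hu)
        rw [abs_one]; linarith
      · have := mul_le_mul_of_nonneg_left (S.lJ i e _ (h1 j u hu)) (t0 j).le
        rw [abs_of_pos (t0 j)]; linarith) (fun v => by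
      refine ⟨∑ i, |l i v| * (R * (x (b i) + y (b i))), fun j => ?_⟩
      rw [LinearMap.comp_apply, Da, map_sum]
      refine norm_sum_le_of_le _ fun i _ => ?_
      rw [mul_comm, mul_smul, map_smul, norm_smul]
      refine mul_le_mul_of_nonneg_left ?_ (abs_nonneg _)
      have k := (h3 j _ (h2 j _ (PC.cb_smul (S.bin i) (t := a (t j)⁻¹ i) (by
        have := t0 j
        simp only [a]; split_ifs <;> positivity)))).1
      refine k.trans (le_of_eq ?_)
      simp only [LinearEquiv.apply_symm_apply, map_smul, smul_eq_mul, a]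
      split_ifs with e
      · simp [S.bI i e]
      · simp [S.bJ i e, (t0 j).ne'])
  simp only [LinearMap.comp_apply, LinearEquiv.coe_coe] at L
  have c0 : Tendsto (fun j => (t (φ j))⁻¹) atTop (𝓝 0) :=
    (tendsto_inv_atTop_zero.comp (tendsto_atTop_add_const_right _ 1
      tendsto_natCast_atTop_atTop)).comp hφ.tendsto_atTop
  have i1 : ∀ j v, D (t j)⁻¹ (D (t j) v) = v := fun j v => by
    rw [DD, inv_mul_cancel₀ (t0 j).ne', D1]
  have i2 : ∀ j v, D (t j) (D (t j)⁻¹ v) = v := fun j v => by
    rw [DD, mul_inv_cancel₀ (t0 j).ne', D1]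
  have Lc := fun v => L (fun _ => v) v tendsto_const_nhds
  have g1 : ∀ v, g' (g v) = v := fun v => by
    have := (L _ _ (Lc v).1).2
    simp only [i1, LinearEquiv.symm_apply_apply] at this
    exact tendsto_nhds_unique this tendsto_const_nhds
  have g2 : ∀ v, g (g' v) = v := fun v => by
    have := (L _ _ (Lc v).2).1
    simp only [i2, LinearEquiv.apply_symm_apply] at this
    exact tendsto_nhds_unique this tendsto_const_nhds
  have cD := (D 0).continuous_of_finiteDimensional
  have Db : ∀ i, l i (D 0 (b i)) = if i ∈ I then 1 else 0 := fun i => by simp [lD, S.dual, a]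
  refine ⟨g' ∘ₗ D 0 ∘ₗ g, ⟨LinearMap.ext fun v => by simp [g2, DD], fun v hv => ⟨?_, ?_⟩⟩,
    fun e => ?_, fun e => ?_⟩
  · have k := ((cD.tendsto _).comp (Lc v).1).add
      (c0.smul ((Lc v).1.sub ((cD.tendsto _).comp (Lc v).1)))
    simp only [Function.comp_def, ← Dt, i1, zero_smul, add_zero] at k
    have hw := PC.cb_closed.mem_of_tendsto k (.of_forall fun j => h1 _ v hv)
    refine PC.cb_closed.mem_of_tendsto (Lc _).2 (.of_forall fun j => h2 _ _ ?_)
    rwa [LinearMap.comp_apply, DD, mul_zero]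
  · have k : ∀ s, g' (D (t s) (h s v) - D 0 (D (t s) (h s v))) ∈ K.Cb := fun s => by
      have hq := PC.cb_smul (h1 s v hv) (t0 s).le
      have e : D (t s) (h s v) - D 0 (D (t s) (h s v)) =
          t s • h s v - D 0 (t s • h s v) := by
        rw [DD, zero_mul, Dt (t s), map_smul, smul_sub, add_sub_cancel_left]
      rw [e]
      generalize t s • h s v = q at hq
      have k := (L _ _ ((c0.smul_const (D 0 q)).add_const (q - D 0 q))).2
      rw [zero_smul, zero_add] at k
      refine PC.cb_closed.mem_of_tendsto k (.of_forall fun j => h2 _ _ ?_)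
      have : (t (φ j))⁻¹ • D 0 q + (q - D 0 q) = D (t (φ j)) ((t (φ j))⁻¹ • q) := by
        rw [map_smul, Dt (t _), smul_add, inv_smul_smul₀ (t0 _).ne']
      rw [this, i1]
      exact PC.cb_smul hq (inv_pos.2 (t0 _)).le
    have k' := (g'.continuous_of_finiteDimensional.tendsto _).comp
      ((Lc v).1.sub ((cD.tendsto _).comp (Lc v).1))
    rw [map_sub, g1] at k'
    exact PC.cb_closed.mem_of_tendsto k' (.of_forall fun j => k _)
  · obtain ⟨i, hi⟩ := S.ne
    have k := congrArg g (LinearMap.congr_fun e (g' (b i)))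
    have := Db i
    simp only [LinearMap.comp_apply, g2, LinearMap.zero_apply, map_zero] at k
    simp [k, hi] at this
  · obtain ⟨i, hi⟩ : ∃ i, i ∉ I := by
      by_contra c
      push Not at c
      exact S.ne' (eq_univ_of_forall c)
    have k := congrArg g (LinearMap.congr_fun e (g' (b i)))
    have := Db i
    simp only [LinearMap.comp_apply, g2, Module.End.one_apply] at k
    simp [k, hi, S.dual] at this

end Pool.Agent.P.MP_f30597_gt.CP
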