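import Pool.Agent.P.MP_f30597_gt.CP.IfaceC

/-! Step SUB. -/

set_option autoImplicit false
set_option linter.unusedSectionVars false

namespace Pool.Agent.P.MP_f30597_gt.CP

open Finset Matrix MeasureTheory SI

namespace SUBx

theorem hull_sub {m : ℕ} {l : List (V m)} {S : Set (V m)} (h : ∀ x ∈ l, x ∈ convexHull ℝ S)
    {y : V m} (hy : y ∈ hull l) : y ∈ convexHull ℝ S :=
  convexHull_min (fun x hx => h x hx) (convex_convexHull ℝ S) hy

theorem cL_face {m : ℕ} (B : Set (V m)) {e : Fin m → V m} (he : dt e ≠ 0) {l : List (V m)}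
    (hl : l.length = m) (i : Fin m) (h : ∀ x ∈ l, x ∈ face e i) : cL B l = 0 := by
  by_contra h0
  have h1 := (cB_ne h0).1
  have h2 : ∀ x ∈ face e i, crd e i x = 0 := fun x hx =>
    convexHull_min (t := (LinearMap.ker (crd e i) : Set (V m))) (by
      rintro _ ⟨j, hj, rfl⟩
      exact (crd_self he i j).trans (if_neg (Ne.symm hj))) (Submodule.convex _) hx
  have h3 := crd_self he i i
  rw [if_pos rfl, ← sum_crd h1 (e i), map_sum, sum_eq_zero fun j _ => by
    rw [map_smul, h2 _ (h _ (tup_mem hl j)), smul_zero]] at h3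
  exact zero_ne_one h3

end SUBx

theorem p_SUB (hSD : S_SD) (hCOC : S_COC) :
    S_SUB := by
  intro n B hB z e hz he δ hδ
  obtain ⟨sd, T, h1, h2, h3, h4⟩ := hSD (n + 1)
  have hpos : ∀ x ∈ convexHull ℝ (Set.range e), 0 < z x := fun x hx =>
    convexHull_min (t := {x | 0 < z x}) (by rintro _ ⟨i, rfl⟩; exact hz i)
      (convex_halfSpace_gt z.isLinear 0) hx
  have key : ∀ N : ℕ, ∃ W : Bar (V (n + 1)),
      (W ∈ On fun l => l.length = n + 1 ∧ (∀ x ∈ l, x ∈ convexHull ℝ (Set.range e)) ∧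
        ∀ x ∈ l, ∀ y ∈ l, dist x y ≤ ((n : ℝ) / (n + 1)) ^ N * Metric.diam (Set.range e)) ∧
      (bdZ W ∈ On fun l => l.length = n ∧ ∃ i, ∀ x ∈ l, x ∈ face e i) ∧
      ev (cL B) W = cB B e := by
    intro N
    induction N with
    | zero =>
      refine ⟨sx (List.ofFn e), sx_on ⟨List.length_ofFn, fun x hx => subset_convexHull ℝ _
        ((List.mem_ofFn' _ _).1 hx), fun x hx y hy => ?_⟩, ?_, ?_⟩
      · rw [pow_zero, one_mul]
        exact Metric.dist_le_diam_of_mem (Set.finite_range e).isBounded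
          ((List.mem_ofFn' _ _).1 hx) ((List.mem_ofFn' _ _).1 hy)
      · refine bd_on (p := fun l => l = List.ofFn e) ?_ (sx_on rfl)
        rintro _ rfl i hi
        have hi' : i < n + 1 := by simpa using hi
        refine ⟨by rw [List.length_eraseIdx_of_lt hi, List.length_ofFn]; rfl, ⟨i, hi'⟩,
          fun x hx => subset_convexHull ℝ _ ?_⟩
        obtain ⟨j, hj, hne, rfl⟩ := List.mem_eraseIdx_iff_getElem.1 hx
        exact ⟨⟨j, by simpa using hj⟩, fun e' => hne (congrArg Fin.val e'),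
          (List.getElem_ofFn hj).symm⟩
      · rw [ev_sx, cL, tup_ofFn]
    | succ N ih =>
      obtain ⟨W, w1, w2, w3⟩ := ih
      refine ⟨sd W, ?_, ?_, ?_⟩
      · refine on_map sd _ (fun l hl => on_mono (fun l' hl' => ⟨hl'.1.trans hl.1,
          fun x hx => SUBx.hull_sub hl.2.1 (hl'.2.1 x hx), fun x hx y hy => ?_⟩) (h4 l)) w1
        rw [pow_succ', mul_assoc]
        exact hl'.2.2 n _ hl.1.le hl.2.2 x hx y hy
      · rw [h1]
        refine on_map sd _ (fun l hl => on_mono (fun l' hl' => ⟨hl'.1.trans hl.1, ?_⟩) (h4 l)) w2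
        obtain ⟨i, hi⟩ := hl.2
        exact ⟨i, fun x hx => SUBx.hull_sub hi (hl'.2.1 x hx)⟩
      · have a1 : ev (cL B) (bdZ (T W)) = 0 := hCOC (n + 1) B hB z _
          (on_map T _ (fun l hl => on_mono (fun l' hl' => ⟨by rw [hl'.1, hl.1],
            fun x hx => hpos x (SUBx.hull_sub hl.2.1 (hl'.2 x hx))⟩) (h3 l)) w1)
        have a2 : ev (cL B) (T (bdZ W)) = 0 :=
          ev_zero (p := fun l => l.length = n + 1 ∧ ∃ i, ∀ x ∈ l, x ∈ face e i)
            (fun l hl => hl.2.elim fun i hi => SUBx.cL_face B he hl.1 i hi)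
            (on_map T _ (fun l hl => on_mono (fun l' hl' => ⟨by rw [hl'.1, hl.1],
              hl.2.imp fun i hi x hx => SUBx.hull_sub hi (hl'.2 x hx)⟩) (h3 l)) w2)
        have a3 := congrArg (ev (cL B)) (h2 W)
        rw [map_add, a1, a2, map_sub, w3, add_zero] at a3
        exact (sub_eq_zero.1 a3.symm).symm
  have hd : 0 ≤ Metric.diam (Set.range e) := Metric.diam_nonneg
  obtain ⟨N, hN⟩ := exists_pow_lt_of_lt_one (x := δ / (Metric.diam (Set.range e) + 1))
    (y := (n : ℝ) / (n + 1)) (by positivity) ((div_lt_one (by positivity)).2 (lt_add_one _))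
  obtain ⟨W, w1, w2, w3⟩ := key N
  have hle : ((n : ℝ) / (n + 1)) ^ N * Metric.diam (Set.range e) ≤ δ := by
    rw [lt_div_iff₀ (by positivity), mul_add_one] at hN
    have : 0 ≤ ((n : ℝ) / (n + 1)) ^ N := by positivity
    linarith
  refine ⟨W, on_mono (fun l hl => ⟨hl.1, hl.2.1⟩) w1, ?_, w3⟩
  have w4 : bdZ W ∈ On fun l => ∀ x ∈ l, ∀ y ∈ l, dist x y ≤ δ :=
    bd_on (fun l hl i _ x hx y hy => (hl.2.2 x (List.mem_of_mem_eraseIdx hx) y
      (List.mem_of_mem_eraseIdx hy)).trans hle) w1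
  exact on_mono (fun l hl => ⟨hl.1.1, hl.1.2, hl.2⟩) (on_and w2 w4)

end Pool.Agent.P.MP_f30597_gt.CP
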