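import Pool.Agent.P.MP_f30597_gt.CP.IfaceG

/-! Step VOL. -/

set_option autoImplicit false
set_option linter.unusedSectionVars false

namespace Pool.Agent.P.MP_f30597_gt.CP

open Finset MeasureTheory

theorem p_VOL :
    S_VOL := by
  intro m z B c u hc hz hB
  let f : En m := Matrix.toLin' (Matrix.of (nm z u)).transpose
  have hf : ∀ s, f s = ∑ i, s i • nm z u i := fun s => by
    ext j
    simp [f, Matrix.mulVec, dotProduct, mul_comm]
  have hd : LinearMap.det f = dt (nm z u) := by
    rw [LinearMap.det_toLin', Matrix.det_transpose, dt]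
  have hs : B ∩ cn u ⊆ f '' Set.Icc 0 fun _ => c := by
    rintro _ ⟨hp, s, h0, rfl⟩
    have h1 := hB _ hp
    simp only [map_sum, map_smul, smul_eq_mul] at h1
    refine ⟨fun i => s i * z (u i), ⟨fun i => (mul_pos (h0 i) (hz i)).le, fun i =>
      (single_le_sum (fun j _ => (mul_pos (h0 j) (hz j)).le) (mem_univ i)).trans h1⟩, ?_⟩
    rw [hf]
    exact sum_congr rfl fun i _ => by rw [nm, smul_smul, mul_inv_cancel_right₀ (hz i).ne']
  have hv : (volume (B ∩ cn u)).toReal ≤ c ^ m * |dt (nm z u)| := by
    refine ENNReal.toReal_le_of_le_ofReal (by positivity) ((measure_mono hs).trans_eq ?_)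
    rw [Measure.addHaar_image_linearMap, Real.volume_Icc_pi, hd, mul_comm,
      ENNReal.ofReal_mul (by positivity), ENNReal.ofReal_pow hc]
    simp
  rw [cB, abs_mul, abs_of_nonneg ENNReal.toReal_nonneg]
  refine (mul_le_of_le_one_left ENNReal.toReal_nonneg ?_).trans hv
  generalize SignType.sign (dt u) = e
  cases e <;> simp

end Pool.Agent.P.MP_f30597_gt.CP
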