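import Pool.Agent.P.MP_f30597_gt.CP.Asm
import Pool.Agent.P.MP_f30597_gt.CP.TNORM
import Pool.Agent.P.MP_f30597_gt.CP.TSTAR
import Pool.Agent.P.MP_f30597_gt.CP.TML
import Pool.Agent.P.MP_f30597_gt.CP.TDBL
import Pool.Agent.P.MP_f30597_gt.CP.TGAP1
import Pool.Agent.P.MP_f30597_gt.CP.TCHAIN
import Pool.Agent.P.MP_f30597_gt.CP.TGAP
import Pool.Agent.P.MP_f30597_gt.CP.TNEAR
import Pool.Agent.P.MP_f30597_gt.CP.TBOX
import Pool.Agent.P.MP_f30597_gt.CP.TSUM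
import Pool.Agent.P.MP_f30597_gt.CP.TVOL
import Pool.Agent.P.MP_f30597_gt.CP.TBOUND
import Pool.Agent.P.MP_f30597_gt.CP.TDISC
import Pool.Agent.P.MP_f30597_gt.CP.TSEG
import Pool.Agent.P.MP_f30597_gt.CP.TCOC0
import Pool.Agent.P.MP_f30597_gt.CP.TCOC1
import Pool.Agent.P.MP_f30597_gt.CP.TRAD
import Pool.Agent.P.MP_f30597_gt.CP.TPUSH
import Pool.Agent.P.MP_f30597_gt.CP.TIDEM
import Pool.Agent.P.MP_f30597_gt.CP.TCEN1
import Pool.Agent.P.MP_f30597_gt.CP.TCENTER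
import Pool.Agent.P.MP_f30597_gt.CP.TCOC
import Pool.Agent.P.MP_f30597_gt.CP.TPRISM
import Pool.Agent.P.MP_f30597_gt.CP.TMESH
import Pool.Agent.P.MP_f30597_gt.CP.TSD
import Pool.Agent.P.MP_f30597_gt.CP.TSUB
import Pool.Agent.P.MP_f30597_gt.CP.TGEOM
import Pool.Agent.P.MP_f30597_gt.CP.THTPY
import Pool.Agent.P.MP_f30597_gt.CP.TLOC
import Pool.Agent.P.MP_f30597_gt.CP.TKAP
import Pool.Agent.P.MP_f30597_gt.CP.TFAR
import Pool.Agent.P.MP_f30597_gt.CP.TNZ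
import Pool.Agent.P.MP_f30597_gt.CP.TOM
import Pool.Agent.P.MP_f30597_gt.CP.TFIN
import Pool.Agent.P.MP_f30597_gt.CP.TAMEN
import Pool.Agent.P.MP_f30597_gt.CP.TSOFIC

/-! All steps together. -/

namespace Pool.Agent.P.MP_f30597_gt.CP

open SI

theorem normal_abelian {G ι : Type} [Group G] [Fintype ι] {n : ℕ} (hn0 : 0 < n)
    (S : St (n + 1) G) {deg : ι → ℕ} {c : Matrix ι ι (ZG G)} {w w' : ι → ℤ}
    (hc : IsResolution deg c w) (hn : ∀ a, deg a ≤ n)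
    (hc' : IsResolution (fun a => n - deg a) (cst c) w') (hV : SimplicialVolumeZero G n) :
    ∃ A : Subgroup G, IsAmenable A ∧
      ∀ T : Finset G, {a : G | ∀ t ∈ T, t⁻¹ * a * t ∈ A}.Infinite := by
  have hCOC := p_COC (p_COC1 (p_COC0 p_SEG))
  obtain ⟨A, h1, h2, h3⟩ := p_CENTER p_IDEM p_CEN1 _ G S (splits hCOC p_DISC
    (p_BOUND p_NORM (p_GAP (p_ML p_STAR) p_DBL p_GAP1 p_CHAIN) p_NEAR p_BOX p_SUM p_VOL)
    (p_GEOM (p_PUSH p_RAD) (p_SUB (p_SD p_MESH) hCOC) p_PRISM hCOC)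
    (p_NZ p_HTPY p_LOC p_KAP p_FAR) p_OM p_FIN hn0 S hc hn hc' hV)
  exact ⟨A, p_AMEN A fun a b => Subtype.ext (h3 a a.2 b b.2),
    fun T => h2.mono fun a ha t _ => h1.conj_mem' a ha t⟩

end Pool.Agent.P.MP_f30597_gt.CP
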