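import Pool.Agent.P.MP_f30597_gt.CP.IfaceG

/-! Step CENTER. -/

set_option autoImplicit false
set_option linter.unusedSectionVars false

namespace Pool.Agent.P.MP_f30597_gt.CP

open Finset MeasureTheory

namespace CENTERx

variable {m : ℕ} {G : Type} [Group G]

theorem idem (S : St m G) (g : G) {e : En m} (h : S.Idem e) : S.Idem (S.r g * e * S.r g⁻¹) := by
  refine ⟨?_, fun x hx => ⟨S.r_cb g (h.2 _ (S.r_cb g⁻¹ hx)).1, ?_⟩⟩
  · refine LinearMap.ext fun x => ?_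
    simp only [Module.End.mul_apply, S.r_inv]
    rw [← Module.End.mul_apply e e, h.1]
  · have := S.r_cb g (h.2 _ (S.r_cb g⁻¹ hx)).2
    rwa [map_sub, S.r_inv'] at this

/-- conjugation of idempotents -/
@[reducible] def ma (S : St m G) : MulAction G {e // S.Idem e} where
  smul g e := ⟨S.r g * e.1 * S.r g⁻¹, idem S g e.2⟩
  one_smul e := Subtype.ext (by
    change S.r 1 * e.1 * S.r 1⁻¹ = e.1
    simp)
  mul_smul g h e := Subtype.ext (by
    change S.r (g * h) * e.1 * S.r (g * h)⁻¹ = S.r g * (S.r h * e.1 * S.r h⁻¹) * S.r g⁻¹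
    simp only [mul_inv_rev, map_mul, mul_assoc])

theorem fin (S : St m G) (H : Subgroup G) : ∃ A : Finset G, (∀ s ∈ A, s ∈ H) ∧
    ∀ z, (∀ s ∈ A, s * z = z * s) → ∀ g ∈ H, g * z = z * g := by
  classical
  obtain ⟨t, h1, h2⟩ := (Submodule.fg_span_iff_fg_span_finset_subset (S.r '' H)).1
    (IsNoetherian.noetherian (R := ℝ) _)
  obtain ⟨A, h3, rfl⟩ := Finset.subset_set_image_iff.1 h1
  refine ⟨A, fun s hs => h3 hs, fun z hz g hg => S.inj ?_⟩
  have h4 : S.r g ∈ Submodule.span ℝ (S.r '' H) := Submodule.subset_span ⟨g, hg, rfl⟩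
  rw [h2] at h4
  rw [map_mul, map_mul]
  generalize S.r g = u at h4
  induction h4 using Submodule.span_induction with
  | mem x hx =>
    obtain ⟨s, hs, rfl⟩ := Finset.mem_image.1 hx
    rw [← map_mul, hz s hs, map_mul]
  | zero => simp
  | add x y _ _ a b => rw [add_mul, mul_add, a, b]
  | smul c x _ a => rw [smul_mul_assoc, mul_smul_comm, a]

end CENTERx

open CENTERx in
theorem p_CENTER (hIDEM : S_IDEM) (hCEN1 : S_CEN1) :
    S_CENTER := by
  rintro m G _ S ⟨e, he, h0, h1⟩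
  let := ma S
  have : Finite {e // S.Idem e} := hIDEM m S.toPC
  let H := (MulAction.toPermHom G {e // S.Idem e}).ker
  obtain ⟨A, hA, hz⟩ := fin S H
  obtain ⟨Φ, hΦ, hT⟩ := hCEN1 m G S e he h0 h1 H inferInstance (fun g hg => by
    have a : S.r g * e * S.r g⁻¹ = e :=
      congrArg (fun p : Equiv.Perm {e // S.Idem e} => (p ⟨e, he⟩).1) (MonoidHom.mem_ker.1 hg)
    conv_rhs => rw [← a, mul_assoc, ← map_mul, inv_mul_cancel, map_one, mul_one]) A hA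
  have := hT.to_subtype
  have := hΦ.to_subtype
  obtain ⟨y, hy⟩ := Finite.exists_infinite_fiber
    fun (γ : {γ | γ ∈ H ∧ ∀ s ∈ A, γ * s * γ⁻¹ ∈ Φ}) (s : A) => (⟨_, γ.2.2 s.1 s.2⟩ : Φ)
  obtain ⟨γ₀⟩ := hy.nonempty
  refine ⟨H ⊓ Subgroup.centralizer H, inferInstance, ?_, fun a ha b hb => hb.2 a ha.1⟩
  refine @Set.infinite_of_injective_forall_mem _ _ hy _ (fun γ => γ₀.1.1⁻¹ * γ.1.1)
    (fun a b c => Subtype.ext (Subtype.ext (mul_left_cancel c))) fun γ => ?_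
  refine ⟨H.mul_mem (H.inv_mem γ₀.1.2.1) γ.1.2.1, hz _ fun s hs => ?_⟩
  have c : γ₀.1.1 * s * γ₀.1.1⁻¹ = γ.1.1 * s * γ.1.1⁻¹ :=
    congrArg Subtype.val (congrFun (γ₀.2.trans γ.2.symm) ⟨s, hs⟩)
  calc s * (γ₀.1.1⁻¹ * γ.1.1) = γ₀.1.1⁻¹ * (γ₀.1.1 * s * γ₀.1.1⁻¹) * γ.1.1 := by group
    _ = γ₀.1.1⁻¹ * γ.1.1 * s := by rw [c]; group

end Pool.Agent.P.MP_f30597_gt.CP
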