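import Pool.Agent.P.MP_f30597_gt.CP.IfaceC

/-! Step NZ. -/

set_option autoImplicit false
set_option linter.unusedSectionVars false

namespace Pool.Agent.P.MP_f30597_gt.CP

open Finset Matrix MeasureTheory SI

namespace NZx

variable {G ι : Type} [Group G] [Fintype ι] [DecidableEq ι]

/-- the composite chain map -/
noncomputable def cmp (Ψ : Bar G →ₗ[ZG G] (ι → ZG G)) (β : ι → Bar G) : Bar G →ₗ[ZG G] Bar G where
  toFun u := ∑ a, Ψ u a • β a + u [] • sx []
  map_add' u v := by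
    simp only [map_add, Pi.add_apply, add_smul, sum_add_distrib, Finsupp.add_apply]
    abel
  map_smul' r u := by
    simp only [map_smul, Pi.smul_apply, smul_eq_mul, RingHom.id_apply, smul_add, smul_sum,
      mul_smul, smul_at_nil]
    rw [smul_comm r, smul_nil, smul_comm]

theorem cmp_eq (Ψ : Bar G →ₗ[ZG G] (ι → ZG G)) (β : ι → Bar G) (u : Bar G) :
    cmp Ψ β u = ∑ a, Ψ u a • β a + u [] • sx [] := rfl

/-- finitely many coefficients -/
noncomputable def cfs (Ψ : Bar G →ₗ[ZG G] (ι → ZG G)) (Y : Finset G) :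
    Bar G →ₗ[ℤ] (ι → Y → ℤ) where
  toFun u := fun b y => (Ψ u b).coeff y
  map_add' u v := by ext b y; simp
  map_smul' m u := by ext b y; rw [map_zsmul]; rfl

theorem cfs_fin (Ψ : Bar G →ₗ[ZG G] (ι → ZG G)) (Y : Finset G) (l : List G) :
    {g | cfs Ψ Y (sx (tr g l)) ≠ 0}.Finite := by
  refine (Set.finite_iUnion fun b : ι => Set.finite_iUnion fun y : Y =>
    (Ψ (sx l) b).coeff.support.finite_toSet.image fun s => (y : G) * s⁻¹).subset fun g hg => ?_
  obtain ⟨b, hb⟩ := Function.ne_iff.1 hg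
  obtain ⟨y, hy⟩ := Function.ne_iff.1 hb
  refine Set.mem_iUnion.2 ⟨b, Set.mem_iUnion.2 ⟨y, g⁻¹ * y, ?_, by simp⟩⟩
  change (Ψ (sx (tr g l)) b).coeff y ≠ 0 at hy
  rw [← el_smul, map_smul, Pi.smul_apply, smul_eq_mul, MonoidAlgebra.coeff_single_mul_apply,
    one_mul] at hy
  exact Finsupp.mem_support_iff.2 hy

theorem ev_fin {n : ℕ} {φ : List G → ℝ}
    (hφ : ∀ l : List G, l.length = n → {g | φ (tr g l) ≠ 0}.Finite) {u : Bar G} (hu : u ∈ Len n) :
    {g : G | ev φ (el g • u) ≠ 0}.Finite := by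
  refine (u.support.finite_toSet.biUnion fun l hl => hφ l (hu l hl)).subset fun g hg => ?_
  by_contra hc
  refine hg (sup_eq (S := u.support) (ev φ ∘ₗ DistribSMul.toLinearMap ℤ (Bar G) (el g)) 0
    (fun l hl => ?_) fun _ h => h)
  change ev φ (el g • sx l) = 0
  rw [el_smul, ev_sx]
  by_contra e
  exact hc (Set.mem_biUnion hl e)

end NZx

open NZx in
theorem p_NZ (hHTPY : S_HTPY) (hLOC : S_LOC) (hKAP : S_KAP) (hFAR : S_FAR) :
    S_NZ := by
  classical
  intro G ι _ _ _ n deg c w w' R hn hn0 R' φ hφ hfin ⟨E, hE⟩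
  obtain ⟨Ψ, h⟩ := exists_psi R
  obtain ⟨β, hβ⟩ := exists_beta R
  obtain ⟨f1, f2, -⟩ := fund0 R hn hn0 R' h hβ
  refine ⟨_, f1, f2, fun hz => ?_⟩
  obtain ⟨H, H1, H2, H3⟩ := hHTPY G (cmp Ψ β) (fun u => by
    rw [cmp_eq, cmp_eq, map_add, map_zsmul, bdZ_nil, smul_zero, add_zero, map_sum, ← h.ch, ← h.au,
      aug_eq, add_comm, sum_smul]
    simp only [bdZ_smul, fun a => (hβ a).2, smul_add, sum_add_distrib, smul_sum, smul_smul,
      vecMul, dotProduct, sum_smul]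
    rw [sum_comm]
    exact congrArg₂ _ (sum_congr rfl fun a _ => by rw [smul_comm, smul_nil, smul_smul]) rfl)
    (by rw [cmp_eq, psi_nil h.hm]; simp) (fun l => by
    refine add_mem (sum_mem fun a _ => ?_) ?_
    · by_cases e : Ψ (sx l) a = 0
      · simp [e]
      · exact Submodule.smul_mem _ _ (h.hm l a e ▸ (hβ a).1)
    · cases l with
      | nil => exact zsmul_mem (sx_len _) _
      | cons x l => simp)
  obtain ⟨Θ, hΘ⟩ := hKAP G ι n φ hfin (fun a => if deg a = n then β a else 0) w' fun a => by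
    split_ifs with e
    exacts [e ▸ (hβ a).1, zero_mem _]
  obtain ⟨Y, hY⟩ := hLOC G ι n deg c w' hn R' Θ
  obtain ⟨F1, hF1⟩ := hFAR G ℝ n E (ev φ ∘ₗ H) fun l hl => by
    simp only [LinearMap.comp_apply, H3]
    exact ev_fin hfin (hl ▸ H2 l)
  obtain ⟨F2, hF2⟩ := hFAR G (ι → Y → ℤ) n E (cfs Ψ Y) fun l _ => cfs_fin Ψ Y l
  obtain ⟨W, hW, hW0, hWb⟩ := hE (F1 ∪ F2)
  have a1 : ev φ (H (bdZ W)) = 0 := hF1 _ (bdZ_len hW) (on_mono
    (fun l ⟨g, hg, hl⟩ => ⟨g, fun e => hg (mem_union_left _ e), hl⟩) hWb)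
  have a2 := hF2 _ (bdZ_len hW) (on_mono
    (fun l ⟨g, hg, hl⟩ => ⟨g, fun e => hg (mem_union_right _ e), hl⟩) hWb)
  obtain ⟨κ, hκ⟩ := hY (Ψ W) (psi_hm h.hm hW) fun b y hy => by
    rw [h.ch]
    exact congrFun (congrFun a2 b) ⟨y, hy⟩
  have a3 := hΘ (Ψ W) κ hκ
  have a4 : ∑ a, Ψ W a • (if deg a = n then β a else 0) = ∑ a, Ψ W a • β a :=
    sum_congr rfl fun a _ => by
      by_cases e : Ψ W a = 0
      · simp [e]
      · rw [if_pos (psi_hm h.hm hW a e)]
  have a5 : ∑ a, w' a • (if deg a = n then β a else 0) = ∑ a, w' a • β a :=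
    sum_congr rfl fun a _ => by
      by_cases e : w' a = 0
      · simp [e]
      · rw [if_pos (dual_deg hn R' a e)]
  have a6 : H W ∈ Len (n + 2) := sup_map (S := {l | l.length = n + 1}) H
    (Len (n + 2)).toAddSubgroup (fun l hl => by
      have := H2 l
      rwa [show l.length = n + 1 from hl] at this) hW
  have a7 := congrArg (ev φ) (H1 W)
  rw [a4, a5, hz, mul_zero] at a3
  rw [map_add, hφ _ a6, a1, cmp_eq, len_at_nil hW, zero_smul, add_zero, add_zero, map_sub, a3,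
    sub_zero] at a7
  exact hW0 a7.symm

end Pool.Agent.P.MP_f30597_gt.CP
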