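import Pool.Agent.P.MP_f30597_gt.CP.IfaceG

/-! Step SUM. -/

set_option autoImplicit false
set_option linter.unusedSectionVars false

namespace Pool.Agent.P.MP_f30597_gt.CP

open Finset MeasureTheory

theorem p_SUM :
    S_SUM := by
  classical
  intro N c m w hw
  let b : ℕ → ℝ := fun k =>
    (4 * w * N * (2 * c + 1) ^ m) * (((k + 1 : ℕ) : ℝ) ^ m * (1 / 2) ^ (k + 1))
  have hb : Summable b := ((summable_nat_add_iff (f := fun k : ℕ => (k : ℝ) ^ m * (1 / 2) ^ k) 1).2
    (summable_pow_mul_geometric_of_norm_lt_one m (by norm_num))).mul_left _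
  refine ⟨∑' k, b k, fun α A d hd hA => ?_⟩
  have ex : ∀ a, ∃ k : ℕ, a ∈ A → w ≤ 2 ^ k * d a := fun a => by
    by_cases ha : a ∈ A
    · obtain ⟨k, hk⟩ := pow_unbounded_of_one_lt (w / d a) (one_lt_two (α := ℝ))
      exact ⟨k, fun _ => ((div_lt_iff₀ (hd a ha).1).1 hk).le⟩
    · exact ⟨0, fun h => absurd h ha⟩
  have hk : ∀ a ∈ A, d a ≤ 4 * w * (1 / 2) ^ (Nat.find (ex a) + 1) := fun a ha => by
    rcases e : Nat.find (ex a) with _ | k
    · linarith [(hd a ha).2]
    · have h1 := Nat.find_min (ex a) (m := k) (by omega)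
      have h2 : 2 ^ k * d a < w := not_le.1 fun h => h1 fun _ => h
      rw [one_div, inv_pow, ← div_eq_mul_inv, le_div_iff₀ (by positivity), pow_succ, pow_succ]
      linarith
  rw [← sum_fiberwise_of_maps_to (g := fun a => Nat.find (ex a)) fun a ha => mem_image_of_mem _ ha]
  refine le_trans (sum_le_sum fun k _ => ?_) (hb.sum_le_tsum _ fun k _ => by positivity)
  have h1 := hA k (A.filter fun a => Nat.find (ex a) = k) (filter_subset _ _) fun a ha =>
    (mem_filter.1 ha).2 ▸ Nat.find_spec (ex a) (mem_filter.1 ha).1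
  have h2 : N * (2 * (c * (k + 1)) + 1) ^ m ≤ N * ((2 * c + 1) ^ m * (k + 1) ^ m) := by
    rw [← mul_pow]
    exact Nat.mul_le_mul_left _ (Nat.pow_le_pow_left (by nlinarith) _)
  have h3 : ((A.filter fun a => Nat.find (ex a) = k).card : ℝ) ≤
      N * ((2 * c + 1) ^ m * ((k + 1 : ℕ) : ℝ) ^ m) := by exact_mod_cast h1.trans h2
  refine (sum_le_card_nsmul _ _ (4 * w * (1 / 2) ^ (k + 1)) fun a ha =>
    (mem_filter.1 ha).2 ▸ hk a (mem_filter.1 ha).1).trans ?_
  rw [nsmul_eq_mul]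
  refine (mul_le_mul_of_nonneg_right h3 (by positivity)).trans_eq ?_
  simp only [b]
  ring

end Pool.Agent.P.MP_f30597_gt.CP
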